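import Pool.Agent.H62.LP.Ori

/-!
# Orientations and Hall's theorem
-/

set_option autoImplicit false

open scoped ENNReal

open Finset

namespace Pool.Agent.H62.LP

open Classical in
/-- the number of edges labelled `s` of the Cayley graph from `X` to `Y` -/
noncomputable def nE {Γ : Type*} [Group Γ] (X Y : Finset Γ) (s : Γ) : ℕ :=
  (X.filter fun x => x * s ∈ Y).card

theorem ori_le {Γ : Type*} [Group Γ] {K : ℕ} {S : Finset Γ} (h : Ori K S) (X Y : Finset Γ) :
    ∑ s ∈ S, nE X Y s ≤ K * (X.card + Y.card) := by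
  classical
  obtain ⟨P, Q, hP, hQ, hPQ⟩ := h
  have h1 : ∀ s ∈ S, nE X Y s ≤ (X.filter fun x => s ∈ P x).card +
      (Y.filter fun y => s ∈ Q y).card := by
    intro s hs
    have h2 : (X.filter fun x => x * s ∈ Y) ⊆ (X.filter fun x => s ∈ P x) ∪
        (Y.filter fun y => s ∈ Q y).image fun y => y * s⁻¹ := by
      intro x hx
      rw [mem_filter] at hx
      rcases hPQ x s hs with h | h
      · exact mem_union_left _ (mem_filter.2 ⟨hx.1, h⟩)
      · refine mem_union_right _ (mem_image.2 ⟨x * s, mem_filter.2 ⟨hx.2, h⟩, ?_⟩)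
        group
    have h3 : nE X Y s = (X.filter fun x => x * s ∈ Y).card := by
      unfold nE
      congr
    rw [h3]
    exact (card_le_card h2).trans ((card_union_le _ _).trans
      (Nat.add_le_add_left card_image_le _))
  refine (sum_le_sum h1).trans ?_
  rw [sum_add_distrib, mul_add]
  have aux : ∀ (Z : Finset Γ) (T : Γ → Finset Γ), (∀ x, (T x).card ≤ K) →
      ∑ s ∈ S, (Z.filter fun x => s ∈ T x).card ≤ K * Z.card := by
    intro Z T hT
    have h4 : ∑ s ∈ S, (Z.filter fun x => s ∈ T x).card =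
        ∑ x ∈ Z, (S.filter fun s => s ∈ T x).card := by
      simp only [card_filter]
      exact sum_comm
    rw [h4, mul_comm]
    refine (sum_le_card_nsmul _ _ K fun x _ => ?_).trans (le_of_eq (by simp))
    refine le_trans (card_le_card fun s hs => ?_) (hT x)
    exact (mem_filter.1 hs).2
  exact Nat.add_le_add (aux X P hP) (aux Y Q hQ)

theorem hall {Γ : Type*} [Group Γ] (K : ℕ) (S : Finset Γ)
    (h : ∀ X Y : Finset Γ, ∑ s ∈ S, nE X Y s ≤ K * (X.card + Y.card)) : Ori K S := by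
  classical
  let t : Γ × S → Finset ((Γ × Fin K) ⊕ (Γ × Fin K)) := fun e =>
    (univ.image fun i => Sum.inl (e.1, i)) ∪ (univ.image fun i => Sum.inr (e.1 * e.2, i))
  have hall : ∀ E : Finset (Γ × S), E.card ≤ (E.biUnion t).card := by
    intro E
    set X := E.image Prod.fst with hX
    set Y := E.image (fun e => e.1 * (e.2 : Γ)) with hY
    have h1 : (X ×ˢ (univ : Finset (Fin K))).disjSum (Y ×ˢ (univ : Finset (Fin K))) ⊆
        E.biUnion t := by
      intro z hz
      rw [mem_disjSum] at hz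
      rcases hz with ⟨⟨x, i⟩, hx, rfl⟩ | ⟨⟨y, i⟩, hy, rfl⟩
      · rw [mem_product] at hx
        obtain ⟨e, he, hex⟩ := mem_image.1 hx.1
        refine mem_biUnion.2 ⟨e, he, mem_union_left _ (mem_image.2 ⟨i, mem_univ _, ?_⟩)⟩
        simp only at hex
        rw [hex]
      · rw [mem_product] at hy
        obtain ⟨e, he, hey⟩ := mem_image.1 hy.1
        refine mem_biUnion.2 ⟨e, he, mem_union_right _ (mem_image.2 ⟨i, mem_univ _, ?_⟩)⟩
        simp only at hey
        rw [hey]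
    have h2 : K * (X.card + Y.card) ≤ (E.biUnion t).card := by
      refine le_trans (le_of_eq ?_) (card_le_card h1)
      rw [card_disjSum, card_product, card_product, card_univ, Fintype.card_fin]
      ring
    refine le_trans ?_ ((h X Y).trans h2)
    have h3 : ∀ s, nE X Y s = (X.filter fun x => x * s ∈ Y).card := by
      intro s
      unfold nE
      congr
    simp only [h3]
    rw [← card_sigma]
    refine card_le_card_of_injOn (fun e => (⟨(e.2 : Γ), e.1⟩ : Σ _ : Γ, Γ)) ?_ ?_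
    · intro e he
      rw [mem_coe, mem_sigma, mem_filter]
      exact ⟨e.2.2, mem_image_of_mem _ he, mem_image.2 ⟨e, he, rfl⟩⟩
    · rintro ⟨x, s⟩ _ ⟨x', s'⟩ _ hxs
      simp only [Sigma.mk.injEq, heq_eq_eq] at hxs
      obtain ⟨h4, h5⟩ := hxs
      rw [h5, Subtype.ext h4]
  obtain ⟨f, hf, hft⟩ := (Finset.all_card_le_biUnion_card_iff_exists_injective t).1 hall
  have hcase : ∀ e : Γ × S, (∃ i, f e = Sum.inl (e.1, i)) ∨ ∃ i, f e = Sum.inr (e.1 * e.2, i) := by
    intro e
    rcases mem_union.1 (hft e) with h1 | h1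
    · obtain ⟨i, _, hi⟩ := mem_image.1 h1
      exact Or.inl ⟨i, hi.symm⟩
    · obtain ⟨i, _, hi⟩ := mem_image.1 h1
      exact Or.inr ⟨i, hi.symm⟩
  refine ⟨fun x => (univ.filter fun s : S => ∃ i, f (x, s) = Sum.inl (x, i)).image (fun s => s.1),
    fun y => (univ.filter fun s : S => ∃ i, f (y * (s : Γ)⁻¹, s) = Sum.inr (y, i)).image
      (fun s => s.1), fun x => ?_, fun y => ?_, fun x s hs => ?_⟩
  · refine card_image_le.trans ?_
    have h1 : ∀ s ∈ (univ.filter fun s : S => ∃ i, f (x, s) = Sum.inl (x, i)),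
        ∃ i : Fin K, f (x, s) = Sum.inl (x, i) := fun s hs => (mem_filter.1 hs).2
    rcases Finset.eq_empty_or_nonempty
      (univ.filter fun s : S => ∃ i, f (x, s) = Sum.inl (x, i)) with h0 | ⟨s₀, hs₀⟩
    · rw [h0, card_empty]
      exact Nat.zero_le _
    haveI : Nonempty (Fin K) := ⟨(h1 s₀ hs₀).choose⟩
    choose! g hg using h1
    refine le_trans (card_le_card_of_injOn g (fun _ _ => mem_coe.2 (mem_univ _)) ?_)
      (le_of_eq (by rw [card_univ, Fintype.card_fin]))
    intro s hs s' hs' hss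
    have h2 := hg s (mem_coe.1 hs)
    have h3 := hg s' (mem_coe.1 hs')
    rw [hss, ← h3] at h2
    exact (Prod.mk.inj (hf h2)).2
  · refine card_image_le.trans ?_
    have h1 : ∀ s ∈ (univ.filter fun s : S => ∃ i, f (y * (s : Γ)⁻¹, s) = Sum.inr (y, i)),
        ∃ i : Fin K, f (y * (s : Γ)⁻¹, s) = Sum.inr (y, i) := fun s hs => (mem_filter.1 hs).2
    rcases Finset.eq_empty_or_nonempty
      (univ.filter fun s : S => ∃ i, f (y * (s : Γ)⁻¹, s) = Sum.inr (y, i)) with h0 | ⟨s₀, hs₀⟩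
    · rw [h0, card_empty]
      exact Nat.zero_le _
    haveI : Nonempty (Fin K) := ⟨(h1 s₀ hs₀).choose⟩
    choose! g hg using h1
    refine le_trans (card_le_card_of_injOn g (fun _ _ => mem_coe.2 (mem_univ _)) ?_)
      (le_of_eq (by rw [card_univ, Fintype.card_fin]))
    intro s hs s' hs' hss
    have h2 := hg s (mem_coe.1 hs)
    have h3 := hg s' (mem_coe.1 hs')
    rw [hss, ← h3] at h2
    exact (Prod.mk.inj (hf h2)).2
  · rcases hcase (x, ⟨s, hs⟩) with ⟨i, hi⟩ | ⟨i, hi⟩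
    · exact Or.inl (mem_image.2 ⟨⟨s, hs⟩, mem_filter.2 ⟨mem_univ _, i, hi⟩, rfl⟩)
    · refine Or.inr (mem_image.2 ⟨⟨s, hs⟩, mem_filter.2 ⟨mem_univ _, i, ?_⟩, rfl⟩)
      simp only at hi
      rw [mul_inv_cancel_right]
      exact hi

/-- a bound for oriented sets above the Littlewood exponent -/
theorem card_lt_of_lit_lt {Γ : Type*} [Group Γ] (p : ℝ) (hp : 0 < p)
    (h : Lit Γ < ENNReal.ofReal p) : ∃ M : ℝ, 1 ≤ M ∧ ∀ (L : ℕ) (R : Finset Γ), 1 ≤ L → Ori L R →
      (R.card : ℝ) < M * (L : ℝ) ^ p := by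
  by_contra hcon
  push Not at hcon
  refine absurd (le_lit p hp fun M => ?_) (not_le.2 h)
  obtain ⟨L, R, hL, hO, hR⟩ := hcon (max M 1) (le_max_right _ _)
  refine ⟨L, R, hL, hO, le_trans ?_ hR⟩
  gcongr
  exact le_max_left _ _

/-- above the Littlewood exponent there are dense finite subgraphs -/
theorem dense_of_lit_lt {Γ : Type*} [Group Γ] (p : ℝ) (hp : 0 < p)
    (h : Lit Γ < ENNReal.ofReal p) : ∃ c : ℝ, 0 < c ∧ ∀ S : Finset Γ, S.Nonempty →
      ∃ X Y : Finset Γ, 0 < X.card + Y.card ∧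
        c * (S.card : ℝ) ^ (1 / p) * ((X.card : ℝ) + Y.card) ≤ ∑ s ∈ S, (nE X Y s : ℝ) := by
  classical
  obtain ⟨M, hM1, hM⟩ := card_lt_of_lit_lt p hp h
  have hM0 : 0 < M := by linarith
  refine ⟨1 / 2 * (M⁻¹) ^ (1 / p), by positivity, fun S hS => ?_⟩
  set v : ℝ := (M⁻¹) ^ (1 / p) * (S.card : ℝ) ^ (1 / p) with hv
  have hv' : v = (M⁻¹ * S.card) ^ (1 / p) := by
    rw [hv, Real.mul_rpow (by positivity) (by positivity)]
  have hv0 : 0 ≤ v := by positivity
  have hvp : M * v ^ p = S.card := by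
    rw [hv', ← Real.rpow_mul (by positivity), one_div_mul_cancel hp.ne', Real.rpow_one,
      mul_inv_cancel_left₀ hM0.ne']
  rcases lt_or_ge v 1 with hlt | hge
  · obtain ⟨s₀, hs₀⟩ := hS
    refine ⟨{1}, {s₀}, by simp, ?_⟩
    have h1 : (1 : ℝ) ≤ ∑ s ∈ S, (nE {1} {s₀} s : ℝ) := by
      have h2 : (nE {1} {s₀} s₀ : ℝ) ≤ ∑ s ∈ S, (nE {1} {s₀} s : ℝ) :=
        single_le_sum (f := fun s => (nE {1} {s₀} s : ℝ)) (fun s _ => Nat.cast_nonneg _) hs₀
      refine le_trans ?_ h2
      have h3 : 1 ≤ nE {1} {s₀} s₀ := by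
        unfold nE
        rw [Nat.one_le_iff_ne_zero, ← Nat.pos_iff_ne_zero, card_pos]
        exact ⟨1, mem_filter.2 ⟨mem_singleton_self _, by simp⟩⟩
      exact_mod_cast h3
    simp only [card_singleton, Nat.cast_one]
    have h4 : 1 / 2 * M⁻¹ ^ (1 / p) * (S.card : ℝ) ^ (1 / p) * (1 + 1) = v := by
      rw [hv]
      ring
    linarith
  · set K := ⌊v⌋₊ with hK
    have hK1 : 1 ≤ K := (Nat.one_le_floor_iff v).2 hge
    have hKv : (K : ℝ) ≤ v := Nat.floor_le hv0
    have hKv2 : v ≤ 2 * K := by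
      have h1 := Nat.lt_floor_add_one v
      have h2 : (1 : ℝ) ≤ K := by exact_mod_cast hK1
      rw [← hK] at h1
      linarith
    have hnot : ¬ Ori K S := by
      intro hO
      have h1 := hM K S hK1 hO
      have h2 : M * (K : ℝ) ^ p ≤ M * v ^ p := by gcongr
      linarith
    obtain ⟨X, Y, hXY⟩ : ∃ X Y : Finset Γ, K * (X.card + Y.card) < ∑ s ∈ S, nE X Y s := by
      by_contra hcon
      push Not at hcon
      exact hnot (hall K S hcon)
    refine ⟨X, Y, ?_, ?_⟩
    · by_contra h0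
      have h1 : X.card + Y.card = 0 := by omega
      have h2 : X = ∅ := card_eq_zero.1 (by omega)
      rw [h1, mul_zero, h2] at hXY
      have h3 : ∑ s ∈ S, nE (∅ : Finset Γ) Y s = 0 := by
        refine sum_eq_zero fun s _ => ?_
        unfold nE
        simp
      omega
    · have h1 : (K : ℝ) * ((X.card : ℝ) + Y.card) ≤ ∑ s ∈ S, (nE X Y s : ℝ) := by
        exact_mod_cast hXY.le
      refine le_trans ?_ h1
      have h2 : 1 / 2 * M⁻¹ ^ (1 / p) * (S.card : ℝ) ^ (1 / p) = v / 2 := by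
        rw [hv]
        ring
      rw [h2]
      gcongr
      linarith

end Pool.Agent.H62.LP
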