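import Pool.Agent.H62.LP.Defs

/-!
# Loop percolation in dimension three: targets, part 2 (loop estimates, fat loops, gluing)
-/

set_option autoImplicit false

open MeasureTheory ProbabilityTheory Filter Topology
open scoped ENNReal NNReal

namespace Pool.Agent.H62.LP

/-! ## Constants -/

/-- `C₀` is a constant of the upper bound of the Green function. -/
def HGU (C₀ : ℝ≥0) : Prop :=
  1 ≤ C₀ ∧ ∀ x y : V3, Gr x y ≤ (C₀ : ℝ≥0∞) / ((1 + nm (x - y) : ℕ) : ℝ≥0∞)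

/-- `c`, `M` are constants of the lower bound inside large balls. -/
def HGB (c : ℝ≥0) (M : ℕ) : Prop := 0 < c ∧ 40 ≤ M ∧ ∀ (n : ℕ) (B : Set V3), 1 ≤ n →
  Bl 0 (M * n) ⊆ B → ∀ x ∈ Bl 0 (20 * n), ∀ y ∈ Bl 0 (20 * n),
    (c : ℝ≥0∞) / (n : ℝ≥0∞) ≤ Hk (QB B) x y

open Classical in
/-- The indicator of the region. -/
noncomputable def oneR (s : ℤ) (n : ℕ) (x : V3) : ℝ≥0∞ := if x ∈ Rg s n then 1 else 0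

/-- The kernel of the energy of the occupation measure of the region. -/
noncomputable def gR (s : ℤ) (n : ℕ) (b b' : V3) : ℝ≥0∞ := oneR s n b * oneR s n b' * Gr b b'

/-! ## Moments of the loop measure -/

open Classical in
/-- Lower bound for the mixed moment. -/
def T_LOW : Prop := ∀ (c : ℝ≥0) (M : ℕ), HGB c M → ∀ (n : ℕ), 1 ≤ n → ∀ e f : V3 → ℝ≥0∞,
  (∀ x, e x ≠ 0 → x ∈ Bl 0 (20 * n)) → (∀ x, f x ≠ 0 → x ∈ Bl 0 (20 * n)) →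
  ((c : ℝ≥0∞) / (n : ℝ≥0∞)) ^ 2 * (mass e * mass f) ≤
    ∑' l : List V3, if (∀ x ∈ l, x ∈ Bl 0 (M * n)) then lw l * (vis e l * vis f l) else 0

/-- Upper bound for moments with two marks far away. -/
def T_UP2 : Prop := ∀ C₀ : ℝ≥0, HGU C₀ → ∀ (n : ℕ), 1 ≤ n → ∀ (U S : Set V3),
  (∀ x ∈ U, ∀ y ∈ S, n ≤ nm (x - y)) → ∀ (e : V3 → ℝ≥0∞) (g : V3 → V3 → ℝ≥0∞),
  (∀ x, e x ≠ 0 → x ∈ U) → (∀ b b', g b b' ≠ 0 → b ∈ S ∧ b' ∈ S) → (∀ b b', g b b' = g b' b) →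
  ∑' l : List V3, lw l * (vis e l * vis2 g l) ≤
    2 * ((C₀ : ℝ≥0∞) / (n : ℝ≥0∞)) ^ 2 * (mass e * ∑' b, ∑' b', g b b' * Gr b b')

open Classical in
/-- Loops which visit a far away set, first moment. -/
def T_UHT : Prop := ∀ C₀ : ℝ≥0, HGU C₀ → ∀ (n : ℕ), 1 ≤ n → ∀ (U S : Set V3),
  (∀ x ∈ U, ∀ y ∈ S, n ≤ nm (x - y)) → ∀ (e : V3 → ℝ≥0∞), (∀ x, e x ≠ 0 → x ∈ U) →
  ∑' l : List V3, (if ∃ y ∈ l, y ∈ S then lw l * vis e l else 0) ≤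
    (C₀ : ℝ≥0∞) / (n : ℝ≥0∞) * mass e

open Classical in
/-- Loops which visit a far away set, second moment. -/
def T_UH2 : Prop := ∀ C₀ : ℝ≥0, HGU C₀ → ∀ (n : ℕ), 1 ≤ n → ∀ (U S : Set V3),
  (∀ x ∈ U, ∀ y ∈ S, n ≤ nm (x - y)) → ∀ (e : V3 → ℝ≥0∞), (∀ x, e x ≠ 0 → x ∈ U) →
  ∑' l : List V3, (if ∃ y ∈ l, y ∈ S then lw l * vis e l ^ 2 else 0) ≤
    2 * ((C₀ : ℝ≥0∞) / (n : ℝ≥0∞)) * erg e e

/-! ## The hitting lemma -/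

open Classical in
/-- The part of the mixed moment on good loops. -/
def T_HLA : Prop := ∀ (C₀ c : ℝ≥0) (M : ℕ), HGU C₀ → HGB c M → ∃ c₂ κ : ℝ≥0, 0 < c₂ ∧ 0 < κ ∧
  ∀ (n : ℕ) (s : ℤ), 1 ≤ n → (s = 1 ∨ s = -1) → ∀ e : V3 → ℝ≥0∞,
    (∀ x, e x ≠ 0 → x ∈ Bl 0 (2 * n)) → mass e ≠ ⊤ →
    c₂ * (n : ℝ≥0∞) * mass e ≤ ∑' l : List V3,
      if (∀ x ∈ l, x ∈ Bl 0 (M * n)) ∧
          (κ : ℝ≥0∞) * (n : ℝ≥0∞) * vis2 (gR s n) l ≤ vis (oneR s n) l ^ 2 then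
        lw l * (vis e l * vis (oneR s n) l) else 0

/-- Good loops are fat. -/
def T_HLF : Prop := ∀ (κ : ℝ≥0) (n : ℕ) (s : ℤ) (l : List V3),
  (κ : ℝ≥0∞) * (n : ℝ≥0∞) * vis2 (gR s n) l ≤ vis (oneR s n) l ^ 2 → vis (oneR s n) l ≠ 0 →
    Fat (κ / 4) n {x | x ∈ l ∧ x ∈ Rg s n}

open Classical in
/-- The measure of the loops inside `B(0, M n)` which visit the support of `e` and are fat. -/
noncomputable def hitFat (κ : ℝ≥0) (M n : ℕ) (s : ℤ) (e : V3 → ℝ≥0∞) : ℝ≥0∞ :=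
  ∑' l : List V3, if (∀ x ∈ l, x ∈ Bl 0 (M * n)) ∧ (∃ x ∈ l, e x ≠ 0) ∧
    Fat κ n {x | x ∈ l ∧ x ∈ Rg s n} then lw l else 0

/-- The statement of the hitting lemma with given constants. -/
def HHL (c₁ κ : ℝ≥0) (M : ℕ) : Prop := 0 < c₁ ∧ 0 < κ ∧ ∀ (n : ℕ) (s : ℤ), 1 ≤ n →
  (s = 1 ∨ s = -1) → ∀ e : V3 → ℝ≥0∞, (∀ x, e x ≠ 0 → x ∈ Bl 0 (2 * n)) → mass e ≠ ⊤ →
    c₁ * mass e ^ 2 ≤ (n : ℝ≥0∞) * erg e e * hitFat κ M n s e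

/-- The hitting lemma. -/
def T_HLM : Prop := ∀ (C₀ c : ℝ≥0) (M : ℕ), HGU C₀ → HGB c M → ∃ c₁ κ : ℝ≥0, HHL c₁ κ M

open Classical in
/-- Loops which meet two fat sets. -/
def T_TWO : Prop := ∀ (C₀ c κ : ℝ≥0) (M : ℕ), HGU C₀ → HGB c M → 0 < κ → ∃ c₃ : ℝ≥0, 0 < c₃ ∧
  ∀ (n : ℕ), 1 ≤ n → ∀ w₁ w₂ : V3 → ℝ≥0∞, (∀ x, w₁ x ≠ 0 → x ∈ Bl 0 (20 * n)) →
    (∀ x, w₂ x ≠ 0 → x ∈ Bl 0 (20 * n)) → (∀ x y, w₁ x ≠ 0 → w₂ y ≠ 0 → n ≤ nm (x - y)) →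
    mass w₁ = κ * n → mass w₂ = κ * n → (∀ x, pot w₁ x ≤ 1) → (∀ x, pot w₂ x ≤ 1) →
    (c₃ : ℝ≥0∞) ≤ ∑' l : List V3, if (∀ x ∈ l, x ∈ Bl 0 (M * n)) ∧ (∃ x ∈ l, w₁ x ≠ 0) ∧
      (∃ x ∈ l, w₂ x ≠ 0) then lw l else 0

/-! ## Large loops -/

open Classical in
/-- The weight of the walks from `y` to `a` with intermediate vertices in `B \ A`. -/
noncomputable def Rt (A B : Set V3) (y a : V3) : ℝ≥0∞ :=
  ∑' t : List V3, if (∀ u ∈ t, u ∈ B ∧ u ∉ A) then wt Q y (t ++ [a]) else 0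

open Classical in
/-- The probability to leave `B` from `a` before the next visit to `A`. -/
noncomputable def esc (A B : Set V3) (a : V3) : ℝ≥0∞ := ∑' y, if y ∉ B then Rt A B a y else 0

open Classical in
/-- Rooting a loop which visits `A` and leaves `B`. -/
def T_RTL : Prop := ∀ A B : Set V3, A ⊆ B →
  ∑' l : List V3, (if (∃ x ∈ l, x ∈ A) ∧ (∃ y ∈ l, y ∉ B) then lw l else 0) ≤
    ∑' a, ∑' y, if a ∈ A ∧ y ∉ B then Hk Q a y * Rt A B y a else 0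

open Classical in
/-- Last visit decomposition. -/
def T_ESC : Prop := ∀ A B : Set V3, A ⊆ B → ∀ x ∈ B,
  ∑' a, (if a ∈ A then Gk (QB B) x a * esc A B a else 0) ≤ 1

open Classical in
/-- The measure of the loops which visit `B(z, r)` and leave `B(z, K r)` is bounded. -/
def T_LOC : Prop := ∃ (K : ℕ) (C : ℝ≥0), 2 ≤ K ∧ ∀ (z : V3) (r : ℕ), 1 ≤ r →
  ∑' c : Lp, (if (∃ x ∈ c, nm (x - z) ≤ r) ∧ (∃ y ∈ c, K * r < nm (y - z)) then mu c else 0) ≤ C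

/-! ## Loops as sets of vertices -/

/-- Edges of loops of positive measure. -/
def T_ADJ : Prop := ∀ (d : ℕ) (c : Cycle (Vt d)), mu c ≠ 0 →
  (∀ x y, Trav c x y → Adj x y ∧ x ∈ c ∧ y ∈ c) ∧
    ∀ x ∈ c, ∀ y ∈ c, Relation.ReflTransGen (Trav c) x y

/-- Translation of loops: the loop measure and the soup are invariant. -/
def T_TRL : Prop := ∀ (d : ℕ) (z : Vt d), (∀ c : Cycle (Vt d), mu (c.map (· + z)) = mu c) ∧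
  ∀ α : ℝ≥0, (soup d α).map (fun (N : Cycle (Vt d) → ℕ) c => N (c.map (· + z))) = soup d α

/-- Connected sets meet all spheres. -/
def T_SPH : Prop := ∀ (K : Set V3) (z : V3) (n : ℕ), IsConn K → z ∈ K → (∃ y ∈ K, n ≤ nm (y - z)) →
  ∀ r ≤ n, ∃ u ∈ K, nm (u - z) = r

/-! ## The fat lemma -/

/-- Measurability and locality of the fat events. -/
def T_FME : Prop := ∀ (M : ℕ) (κ : ℝ≥0) (s : ℤ) (z : V3) (n : ℕ) (K : Set V3),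
  (∀ c, MeasurableSet {N : Lp → ℕ | FatAt M κ s z n K (sp N) c}) ∧
  MeasurableSet {N : Lp → ℕ | FatEv M κ s z n K (sp N)} ∧
  ∀ S c, FatAt M κ s z n K S c ↔ FatAt M κ s z n K (Ins z (M * n) S) c

/-- The fat property, small scales. -/
def T_BAS : Prop := ∀ (C₀ c₁ κ : ℝ≥0) (M : ℕ), HGU C₀ → 40 ≤ M → HHL c₁ κ M → ∀ ε : ℝ≥0, 0 < ε →
  ∃ c₄ : ℝ, 0 < c₄ ∧ ∀ n : ℕ, 1 ≤ n → FB ε M κ (c₄ / (1 + Real.log n)) n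

open Classical in
/-- The random mass. -/
noncomputable def WW {Ω : Type} [MeasurableSpace Ω] (P : Measure Ω) (I : ℕ) (N m : ℕ → ℕ)
    (A : ℕ → ℕ → Set Ω) (a κ : ℝ≥0) (ω : Ω) : ℝ≥0∞ :=
  ∑ i ∈ Finset.Icc 1 I, ∑ k ∈ Finset.Icc 1 (N i),
    if ω ∈ A i k then (a : ℝ≥0∞) / P (A i k) * ((κ : ℝ≥0∞) * m i) else 0

open Classical in
/-- The random energy. -/
noncomputable def EW {Ω : Type} [MeasurableSpace Ω] (P : Measure Ω) (I : ℕ) (N : ℕ → ℕ)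
    (A : ℕ → ℕ → Set Ω) (a : ℝ≥0) (X : ℕ → ℕ → ℕ → ℕ → Ω → ℝ≥0∞) (ω : Ω) : ℝ≥0∞ :=
  ∑ i ∈ Finset.Icc 1 I, ∑ k ∈ Finset.Icc 1 (N i), ∑ j ∈ Finset.Icc 1 I, ∑ l ∈ Finset.Icc 1 (N j),
    if ω ∈ A i k ∧ ω ∈ A j l then
      (a : ℝ≥0∞) / P (A i k) * ((a : ℝ≥0∞) / P (A j l)) * X i k j l ω else 0

/-- The geometry of the scales: `m 0 = n`, the scales decrease by the factor `ρ / 2` at least, `N i`
boxes of scale `i`. -/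
structure Scales (M I n : ℕ) (N m : ℕ → ℕ) (a ρ : ℝ) : Prop where
  zero : m 0 = n
  pos : ∀ i, i ≤ I → 1 ≤ m i
  dec : ∀ i j, i < j → j ≤ I → ρ * m j ≤ 2 * m i
  big : 1 ≤ ρ * a ^ 3
  up : ∀ i, 1 ≤ i → i ≤ I → N i * (3 * M * m i) ≤ n
  lo : ∀ i, 1 ≤ i → i ≤ I → n ≤ N i * (6 * M * m i)

/-- The events and mutual energies of the second moment argument. -/
structure Events {Ω : Type} [MeasurableSpace Ω] (P : Measure Ω) (M I : ℕ) (N m : ℕ → ℕ)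
    (a κ C₀ : ℝ≥0) (A : ℕ → ℕ → Set Ω) (X : ℕ → ℕ → ℕ → ℕ → Ω → ℝ≥0∞) : Prop where
  meas : ∀ i k, MeasurableSet (A i k)
  measX : ∀ i k j l, Measurable (X i k j l)
  prob : ∀ i k, 1 ≤ i → i ≤ I → 1 ≤ k → k ≤ N i → (a : ℝ≥0∞) ≤ P (A i k)
  same : ∀ i k l, 1 ≤ i → i ≤ I → 1 ≤ k → k ≤ N i → 1 ≤ l → l ≤ N i → k ≠ l →
    P (A i k ∩ A i l) = P (A i k) * P (A i l)
  diag : ∀ i k ω, 1 ≤ i → i ≤ I → 1 ≤ k → k ≤ N i → ω ∈ A i k → X i k i k ω ≤ κ * m i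
  sameX : ∀ i k l ω, 1 ≤ i → i ≤ I → 1 ≤ k → k ≤ N i → 1 ≤ l → l ≤ N i → k ≠ l →
    ω ∈ A i k → ω ∈ A i l →
    X i k i l ω * (M * ((k : ℤ) - l).natAbs : ℕ) ≤ κ ^ 2 * C₀ * m i
  far : ∀ i k j l, 1 ≤ i → i < j → j ≤ I → 1 ≤ k → k ≤ N i → 1 ≤ l → l ≤ N j →
    2 * M * m i ≤ ((3 * M * m i * k : ℤ) - 3 * M * m j * l).natAbs →
    P (A i k ∩ A j l) = P (A i k) * P (A j l)
  farX : ∀ i k j l ω, 1 ≤ i → i < j → j ≤ I → 1 ≤ k → k ≤ N i → 1 ≤ l → l ≤ N j →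
    2 * M * m i ≤ ((3 * M * m i * k : ℤ) - 3 * M * m j * l).natAbs → ω ∈ A i k → ω ∈ A j l →
    X i k j l ω * (((3 * M * m i * k : ℤ) - 3 * M * m j * l).natAbs : ℕ) ≤
      2 * κ ^ 2 * C₀ * m i * m j
  near : ∀ i k j l ω, 1 ≤ i → i < j → j ≤ I → 1 ≤ k → k ≤ N i → 1 ≤ l → l ≤ N j →
    ω ∈ A i k → ω ∈ A j l → X i k j l ω ≤ κ * m j
  symm : ∀ i k j l ω, X i k j l ω = X j l i k ω

/-- Lower tail of the random mass. -/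
def T_SMW : Prop := ∀ (κ C₀ : ℝ≥0) (M : ℕ), 0 < κ → 1 ≤ C₀ → 1 ≤ M → ∃ S : ℝ, 0 < S ∧
  ∀ (Ω : Type) [MeasurableSpace Ω] (P : Measure Ω) [IsProbabilityMeasure P] (I n : ℕ)
    (N m : ℕ → ℕ) (a : ℝ≥0) (ρ : ℝ) (A : ℕ → ℕ → Set Ω) (X : ℕ → ℕ → ℕ → ℕ → Ω → ℝ≥0∞),
    0 < a → 1 ≤ I → Scales M I n N m a ρ → Events P M I N m a κ C₀ A X → S * a * I ^ 2 ≤ 1 →
    P {ω | WW P I N m A a κ ω < ENNReal.ofReal (I * a * κ * n / (12 * M))} ≤ 1 / 4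

/-- The mean of the random energy. -/
def T_SME : Prop := ∀ (κ C₀ : ℝ≥0) (M : ℕ), 0 < κ → 1 ≤ C₀ → 1 ≤ M → ∃ S : ℝ, 0 < S ∧
  ∀ (Ω : Type) [MeasurableSpace Ω] (P : Measure Ω) [IsProbabilityMeasure P] (I n : ℕ)
    (N m : ℕ → ℕ) (a : ℝ≥0) (ρ : ℝ) (A : ℕ → ℕ → Set Ω) (X : ℕ → ℕ → ℕ → ℕ → Ω → ℝ≥0∞),
    0 < a → 1 ≤ I → Scales M I n N m a ρ → Events P M I N m a κ C₀ A X →
    S * a * I ^ 2 * (1 + Real.log ((n : ℝ) / m I)) ≤ 1 →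
    ∫⁻ ω, EW P I N A a X ω ∂P ≤ ENNReal.ofReal (2 * I * a * κ * n / (3 * M))

/-- The fat property, the step from small scales to larger scales. -/
def T_STP : Prop := ∀ (C₀ c₁ κ : ℝ≥0) (M : ℕ), HGU C₀ → 40 ≤ M → HHL c₁ κ M → ∀ ε : ℝ≥0, 0 < ε →
  ∃ a₀ C₄ : ℝ, 0 < a₀ ∧ 0 < C₄ ∧ ∀ a : ℝ, 0 < a → a ≤ a₀ → ∀ n : ℕ,
    C₄ * (1 + Real.log (1 / a)) ≤ Real.log n → (∀ m : ℕ, 1 ≤ m → m < n → FB ε M κ a m) →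
    FB ε M κ a n

/-- The fat lemma. -/
def T_FAT : Prop := ∀ (C₀ c₁ κ : ℝ≥0) (M : ℕ), HGU C₀ → 40 ≤ M → HHL c₁ κ M → ∀ ε : ℝ≥0, 0 < ε →
  ∃ a : ℝ, 0 < a ∧ ∀ n : ℕ, 1 ≤ n → FB ε M κ a n

/-! ## Gluing -/

/-- Measurability and locality of the link events. -/
def T_LME : Prop := ∀ (z : V3) (r : ℕ) (K₁ K₂ : Set V3),
  MeasurableSet {N : Lp → ℕ | Lk z r K₁ K₂ (sp N)} ∧
  (∀ S T : Set Lp, Ins z r S ⊆ T → Lk z r K₁ K₂ S → Lk z r K₁ K₂ T) ∧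
  ∀ S : Set Lp, Lk z r K₁ K₂ S ↔ Lk z r K₁ K₂ (Ins z r S)

/-- The gluing lemma. -/
def T_GLU : Prop := ∃ M' : ℕ, 1 ≤ M' ∧ ∀ ε : ℝ≥0, 0 < ε → ∃ p : ℝ, 0 < p ∧ p ≤ 1 ∧
  ∀ (n : ℕ) (z : V3) (K₁ K₂ : Set V3), 1 ≤ n → IsConn K₁ → IsConn K₂ →
    (∃ x ∈ K₁, nm (x - z) ≤ 2 * n) → (∃ y ∈ K₁, 4 * n ≤ nm (y - z)) →
    (∃ x ∈ K₂, nm (x - z) ≤ 2 * n) → (∃ y ∈ K₂, 4 * n ≤ nm (y - z)) →
    ENNReal.ofReal p ≤ soup 3 ε {N | Lk z (M' * n) K₁ K₂ (sp N)}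

/-! ## Local crossings -/

/-- A finite connected set `D` from `B(z, n)` to the outside of the ball of radius `m`, joined by the
loops of the finite set `F`, all inside `B(z, r)`. -/
def IsCr (z : V3) (n m r : ℕ) (p : Finset V3 × Finset Lp) : Prop :=
  (∀ c ∈ p.2, ∀ u ∈ c, nm (u - z) ≤ r) ∧ IsConn (p.1 : Set V3) ∧ (∃ u ∈ p.1, nm (u - z) ≤ n) ∧
    (∃ u ∈ p.1, m ≤ nm (u - z)) ∧ ∀ u ∈ p.1, ∀ v ∈ p.1, Conn (p.2 : Set Lp) u v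

/-- There is a local crossing. -/
def CrL (z : V3) (n m r : ℕ) (S : Set Lp) : Prop := ∃ p, IsCr z n m r p ∧ (p.2 : Set Lp) ⊆ S

open Classical in
/-- Local crossings are as likely as crossings, up to a constant. -/
def T_LCR : Prop := ∀ (K : ℕ) (C : ℝ≥0), 2 ≤ K → (∀ (z : V3) (r : ℕ), 1 ≤ r →
  ∑' c : Lp, (if (∃ x ∈ c, nm (x - z) ≤ r) ∧ (∃ y ∈ c, K * r < nm (y - z)) then mu c else 0) ≤ C) →
  ∀ (α : ℝ≥0) (z : V3) (n m : ℕ), 1 ≤ m → n ≤ m →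
    ENNReal.ofReal (Real.exp (-(α * C))) * soup 3 α {N | ¬ CrL z n m (K * m) (sp N)} ≤
      soup 3 α {N | ¬ Cross n m N}

end Pool.Agent.H62.LP
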