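import Pool.Agent.H62.LP.Defs

/-!
# Loop percolation in dimension three: targets, part 3 (merging, percolation of good blocks)
-/

set_option autoImplicit false

open MeasureTheory ProbabilityTheory Filter Topology
open scoped ENNReal NNReal

namespace Pool.Agent.H62.LP

/-! ## Merging (deterministic part) -/

/-- `T x` is the set of the boxes touched by the crossing with index `x`. -/
structure Touch (β : ℕ) (T : V3 → Set V3) : Prop where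
  self : ∀ x, nm x ≤ 2 * β → x ∈ T x
  sph : ∀ x y, nm x ≤ 2 * β → nm y ≤ 2 * β → nm (x - y) ≤ 1 → ∀ r, 2 ≤ r → r + 1 ≤ β →
    ∃ z ∈ T y, nm (z - x) = r

/-- The crossings `x` and `y` come close to the box `z`. -/
def near (T : V3 → Set V3) (x y z : V3) : Prop := z ∈ T x ∧ ∃ z' ∈ T y, nm (z' - z) ≤ 1

/-- The boxes where `A` comes close to its complement, inside the ball of radius `L`. -/
def spot (T : V3 → Set V3) (L : ℕ) (A : Set V3) : Set V3 :=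
  {z | nm z ≤ L ∧ ∃ x y, x ∈ A ∧ y ∉ A ∧ nm x ≤ L ∧ nm y ≤ L ∧ near T x y z}

/-- A set with few spots which meets the smaller ball contains it. -/
def T_SHL : Prop := ∀ (β : ℕ) (T : V3 → Set V3), Touch β T → ∀ (L b t : ℕ) (A : Set V3),
  L ≤ 2 * β → b + 1 ≤ β → t + 1 ≤ b → (spot T L A).ncard < t → (∃ x ∈ A, nm x + b ≤ L) →
    ∀ y, nm y + b ≤ L → y ∈ A

/-- The number of classes of `E` which meet the ball of radius `L`. -/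
noncomputable def cls (E : V3 → V3 → Prop) (L : ℕ) : ℕ :=
  ((fun x => {y | nm y ≤ L ∧ E x y}) '' {x | nm x ≤ L}).ncard

/-- The union of the classes of the points of `F`, inside the ball of radius `L`. -/
def hull (E : V3 → V3 → Prop) (L : ℕ) (F : Finset V3) : Set V3 := {y | nm y ≤ L ∧ ∃ x ∈ F, E x y}

/-- One round of merging: all crossings are equivalent or the number of classes drops. -/
def T_RD1 : Prop := ∀ (β : ℕ) (T : V3 → Set V3), Touch β T → ∀ (L b t s : ℕ)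
  (E E' : V3 → V3 → Prop), L ≤ 2 * β → b + 1 ≤ β → b ≤ L → t + 1 ≤ b → Equivalence E →
  Equivalence E' → (∀ x y, E x y → E' x y) →
  (∀ F : Finset V3, F.card ≤ s → (∀ x ∈ F, nm x ≤ L) → t ≤ (spot T L (hull E L F)).ncard →
    ∃ x y, x ∈ hull E L F ∧ y ∉ hull E L F ∧ nm y ≤ L ∧ E' x y) →
  (∀ x y, nm x + b ≤ L → nm y + b ≤ L → E' x y) ∨ cls E' (L - b) * (s + 1) ≤ cls E L

/-- Separated subsets. -/
def T_SEP : Prop := ∀ (K : ℕ) (Z : Finset V3), ∃ Z' ⊆ Z,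
  (∀ z ∈ Z', ∀ z' ∈ Z', z ≠ z' → K < nm (z - z')) ∧ Z.card ≤ Z'.card * (2 * K + 1) ^ 3

/-! ## Merging (probability) -/

/-- The links are measurable events, far links fail independently with probability at most
`1 - p`. -/
def LnkP {Ω : Type} [MeasurableSpace Ω] (P : Measure Ω) (K₀ : ℕ) (p : ℝ) (β : ℕ)
    (T : V3 → Set V3) (Lnk : V3 → V3 → V3 → Set Ω) : Prop :=
  (∀ x y z, MeasurableSet (Lnk x y z)) ∧
  ∀ (Z : Finset V3) (x y : V3 → V3),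
    (∀ z ∈ Z, nm z ≤ 2 * β ∧ nm (x z) ≤ 2 * β ∧ nm (y z) ≤ 2 * β ∧ near T (x z) (y z) z) →
    (∀ z ∈ Z, ∀ z' ∈ Z, z ≠ z' → K₀ < nm (z - z')) →
    P {ω | ∀ z ∈ Z, ω ∉ Lnk (x z) (y z) z} ≤ ENNReal.ofReal ((1 - p) ^ Z.card)

/-- The bound for the failure of one round. -/
noncomputable def qq (β s t K₀ : ℕ) (p : ℝ) : ℝ :=
  (((4 * β + 1) ^ 3 + 1 : ℕ) : ℝ) ^ s * (1 - p) ^ (t / (2 * K₀ + 1) ^ 3)

/-- The probability of an exceptional set of classes in one round. -/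
def T_RD2 : Prop := ∀ (Ω : Type) [MeasurableSpace Ω] (P : Measure Ω) [IsProbabilityMeasure P]
  (β K₀ : ℕ) (p : ℝ) (T : V3 → Set V3) (Lnk : V3 → V3 → V3 → Set Ω), 0 < p → p ≤ 1 →
  LnkP P K₀ p β T Lnk → ∀ (L t s : ℕ) (E : V3 → V3 → Prop), L ≤ 2 * β →
  P {ω | ∃ F : Finset V3, F.card ≤ s ∧ (∀ x ∈ F, nm x ≤ L) ∧
      t ≤ (spot T L (hull E L F)).ncard ∧ ∀ x y z, x ∈ hull E L F → y ∉ hull E L F → nm y ≤ L →
        nm z ≤ 2 * β → ω ∉ Lnk x y z} ≤ ENNReal.ofReal (qq β s t K₀ p)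

/-- The relation after several rounds. -/
def RelJ {Ω : Type} {J : ℕ} (Lnk : V3 → V3 → V3 → Set Ω) (β : ℕ) (ω : Fin J → Ω) :
    V3 → V3 → Prop :=
  Relation.EqvGen (fun x y => nm x ≤ 2 * β ∧ nm y ≤ 2 * β ∧
    ∃ (j : Fin J) (z : V3), nm z ≤ 2 * β ∧ ω j ∈ Lnk x y z)

/-- Several rounds. -/
def T_ITR : Prop := ∀ (Ω : Type) [MeasurableSpace Ω] (P : Measure Ω) [IsProbabilityMeasure P]
  (J β K₀ b t s : ℕ) (p : ℝ) (T : V3 → Set V3) (Lnk : V3 → V3 → V3 → Set Ω), 0 < p → p ≤ 1 →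
  Touch β T → LnkP P K₀ p β T Lnk → (4 * β + 1) ^ 3 < (s + 1) ^ J → J * b ≤ β → b + 1 ≤ β →
  t + 1 ≤ b →
  Measure.pi (fun _ : Fin J => P) {ω | ¬ ∀ x y, nm x ≤ β → nm y ≤ β → RelJ Lnk β ω x y} ≤
    J * ENNReal.ofReal (qq β s t K₀ p)

/-- The measurability of the final relation. -/
def T_RLM : Prop := ∀ (Ω : Type) [MeasurableSpace Ω] (J β : ℕ) (Lnk : V3 → V3 → V3 → Set Ω),
  (∀ x y z, MeasurableSet (Lnk x y z)) →
  ∀ x y, MeasurableSet {ω : Fin J → Ω | RelJ Lnk β ω x y}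

/-- The merging lemma. -/
def T_MGF : Prop := ∀ (p : ℝ) (K₀ : ℕ) (δ : ℝ), 0 < p → p ≤ 1 → 0 < δ → ∃ β₀ : ℕ, ∀ β, β₀ ≤ β →
  ∀ (Ω : Type) [MeasurableSpace Ω] (P : Measure Ω) [IsProbabilityMeasure P]
    (T : V3 → Set V3) (Lnk : V3 → V3 → V3 → Set Ω), Touch β T → LnkP P K₀ p β T Lnk →
  Measure.pi (fun _ : Fin 20 => P) {ω | ¬ ∀ x y, nm x ≤ β → nm y ≤ β → RelJ Lnk β ω x y} ≤
    ENNReal.ofReal δ

/-! ## Percolation of good blocks -/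

/-- Multiplication of a lattice point by a number. -/
def sc {d : ℕ} (n : ℕ) (x : Vt d) : Vt d := fun i => n * x i

/-- Bad blocks of level `k`. -/
def bd (ρ D : ℕ) (B : Set (Vt 2)) : ℕ → Set (Vt 2)
  | 0 => B
  | k + 1 => {y | ∃ x₁ x₂, nm (x₁ - sc ρ y) ≤ 2 * ρ ∧ nm (x₂ - sc ρ y) ≤ 2 * ρ ∧
      D < nm (x₁ - x₂) ∧ x₁ ∈ bd ρ D B k ∧ x₂ ∈ bd ρ D B k}

/-- The set reached from the origin through good blocks. -/
def gcl (B : Set (Vt 2)) : Set (Vt 2) :=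
  {v | Relation.ReflTransGen (fun u v => u ∉ B ∧ v ∉ B ∧ nm (u - v) ≤ 1) 0 v}

/-- If the blocks near the origin are good at all levels then the good blocks percolate. -/
def T_BDD : Prop := ∀ ρ D : ℕ, 10 * (D + 1) ≤ ρ → ∀ B : Set (Vt 2),
  (∀ k y, nm y ≤ D → y ∉ bd ρ D B k) → (gcl B).Infinite

/-- A bad block of level `k` gives `2 ^ k` bad blocks far from each other. -/
def T_BDC : Prop := ∀ ρ D K₁ : ℕ, 3 ≤ ρ → K₁ + 6 ≤ D → ∀ (k : ℕ) (y : Vt 2),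
  ∃ 𝓕 : Finset (Finset (Vt 2)), 𝓕.card ≤ (4 * ρ + 1) ^ (4 * (2 ^ k - 1)) ∧
    (∀ Y ∈ 𝓕, Y.card = 2 ^ k ∧ (∀ u ∈ Y, ∀ v ∈ Y, u ≠ v → K₁ < nm (u - v)) ∧
      ∀ u ∈ Y, nm (u - sc (ρ ^ k) y) ≤ 3 * ρ ^ k) ∧
    ∀ B : Set (Vt 2), y ∈ bd ρ D B k → ∃ Y ∈ 𝓕, (Y : Set (Vt 2)) ⊆ B

/-- Percolation of good blocks. -/
def T_BLK : Prop := ∀ K₁ : ℕ, ∃ δ : ℝ, 0 < δ ∧ ∀ (Ω : Type) [MeasurableSpace Ω] (P : Measure Ω)
  [IsProbabilityMeasure P] (B : Ω → Set (Vt 2)), (∀ y, MeasurableSet {ω | y ∈ B ω}) →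
  (∀ Y : Finset (Vt 2), (∀ u ∈ Y, ∀ v ∈ Y, u ≠ v → K₁ < nm (u - v)) →
    P {ω | (Y : Set (Vt 2)) ⊆ B ω} ≤ ENNReal.ofReal (δ ^ Y.card)) →
  1 / 2 ≤ P {ω | (gcl (B ω)).Infinite}

end Pool.Agent.H62.LP
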