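import Pool.Agent.H62.LP.T2
import Pool.Agent.H62.LP.T3

/-!
# Loop percolation in dimension three: targets, part 4 (blocks, final assembly)
-/

set_option autoImplicit false

open MeasureTheory ProbabilityTheory Filter Topology
open scoped ENNReal NNReal

namespace Pool.Agent.H62.LP

/-! ## Constants -/

/-- The gluing lemma for given constants. -/
def HGL (M' : ℕ) (ε : ℝ≥0) (p : ℝ) : Prop := 0 < p ∧ p ≤ 1 ∧
  ∀ (n : ℕ) (z : V3) (K₁ K₂ : Set V3), 1 ≤ n → IsConn K₁ → IsConn K₂ →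
    (∃ x ∈ K₁, nm (x - z) ≤ 2 * n) → (∃ y ∈ K₁, 4 * n ≤ nm (y - z)) →
    (∃ x ∈ K₂, nm (x - z) ≤ 2 * n) → (∃ y ∈ K₂, 4 * n ≤ nm (y - z)) →
    ENNReal.ofReal p ≤ soup 3 ε {N | Lk z (M' * n) K₁ K₂ (sp N)}

open Classical in
/-- The constants of the bound for large loops. -/
def HLC (K : ℕ) (C : ℝ≥0) : Prop := 2 ≤ K ∧ ∀ (z : V3) (r : ℕ), 1 ≤ r →
  ∑' c : Lp, (if (∃ x ∈ c, nm (x - z) ≤ r) ∧ (∃ y ∈ c, K * r < nm (y - z)) then mu c else 0) ≤ C

/-! ## The choice of the crossings -/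

/-- Crossings together with their loops. -/
abbrev Cr := Finset V3 × Finset Lp

/-- A local measurable choice of the crossings of the annuli around the points of `n ℤ³`. -/
structure CrSel (n β K : ℕ) (D : V3 → (Lp → ℕ) → Option Cr) : Prop where
  meas : ∀ x p, MeasurableSet {N | D x N = some p}
  some : ∀ x N p, D x N = some p →
    IsCr (sc n x) n (β * n) (K * (β * n)) p ∧ (p.2 : Set Lp) ⊆ sp N
  none : ∀ x N, D x N = none → ¬ CrL (sc n x) n (β * n) (K * (β * n)) (sp N)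
  loc : ∀ x (N N' : Lp → ℕ), (∀ c : Lp, c ≠ Cycle.nil →
    (∀ u ∈ c, nm (u - sc n x) ≤ K * (β * n)) → N c = N' c) → D x N = D x N'

/-- There is a local measurable choice. -/
def T_CSL : Prop := ∀ n β K : ℕ, ∃ D, CrSel n β K D

/-- The vertices of a crossing. -/
def ver (o : Option Cr) : Set V3 := {u | ∃ p ∈ o, u ∈ p.1}

/-- The boxes touched by a set. -/
def tch (n : ℕ) (A : Set V3) : Set V3 := {z | ∃ u ∈ A, nm (u - sc n z) ≤ n}

/-- The boxes touched by the crossings, in the coordinates of the block with centre `v`. -/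
def TB (n : ℕ) (v : V3) (d : V3 → Set V3) (x : V3) : Set V3 := {z | z + v ∈ tch n (d (x + v))}

/-- The touched boxes have the properties used in the merging argument. -/
def T_TCH : Prop := ∀ (n β r : ℕ) (v : V3) (d : V3 → Cr), 1 ≤ n →
  (∀ x, nm x ≤ 2 * β → IsCr (sc n (x + v)) n (β * n) r (d (x + v))) →
  Touch β (TB n v (fun x => ((d x).1 : Set V3)))

/-- The links of the block with centre `v`. -/
def LkB (M' n : ℕ) (v : V3) (d : V3 → Set V3) (x y z : V3) : Set (Lp → ℕ) :=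
  {N | Lk (sc n (z + v)) (M' * (2 * n)) (d (x + v)) (d (y + v)) (sp N)}

/-- The links satisfy the hypotheses of the merging lemma. -/
def T_LKP : Prop := ∀ (M' : ℕ) (ε : ℝ≥0) (p : ℝ), HGL M' ε p → ∀ (n β r : ℕ) (v : V3)
  (d : V3 → Cr), 1 ≤ n → 17 ≤ β →
  (∀ x, nm x ≤ 2 * β → IsCr (sc n (x + v)) n (β * n) r (d (x + v))) →
  LnkP (soup 3 ε) (4 * M') p β (TB n v (fun x => ((d x).1 : Set V3)))
    (LkB M' n v (fun x => ((d x).1 : Set V3)))

/-! ## Good blocks -/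

/-- Configurations: the loops of the crossings and twenty rounds of sprinkling. -/
abbrev Om := (Lp → ℕ) × (Fin 20 → Lp → ℕ)

/-- Their law. -/
noncomputable def PP (α ε : ℝ≥0) : Measure Om :=
  (soup 3 α).prod (Measure.pi (fun _ : Fin 20 => soup 3 ε))

/-- The union of all loops. -/
def tot (ω : Om) : Lp → ℕ := fun c => ω.1 c + ∑ j, ω.2 j c

/-- The block with centre `v` is good. -/
def GoodB (M' n β : ℕ) (D : V3 → (Lp → ℕ) → Option Cr) (v : V3) (ω : Om) : Prop :=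
  (∀ x, nm x ≤ 2 * β → D (x + v) ω.1 ≠ none) ∧
  ∀ x y, nm x ≤ β → nm y ≤ β → RelJ (LkB M' n v (fun x => ver (D x ω.1))) β ω.2 x y

/-- Good blocks: measurability and locality. -/
def T_GBM : Prop := ∀ (M' n β K : ℕ) (D : V3 → (Lp → ℕ) → Option Cr), CrSel n β K D →
  2 * M' ≤ K * β → ∀ v : V3, MeasurableSet {ω | GoodB M' n β D v ω} ∧
    ∀ ω ω' : Om, (∀ c : Lp, c ≠ Cycle.nil → (∀ u ∈ c, nm (u - sc n v) ≤ (K + 2) * (β * n)) →
      ω.1 c = ω'.1 c ∧ ∀ j, ω.2 j c = ω'.2 j c) → (GoodB M' n β D v ω ↔ GoodB M' n β D v ω')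

/-- Good blocks: probability. -/
def T_GBP : Prop := ∀ (M' : ℕ) (ε : ℝ≥0) (p : ℝ), HGL M' ε p → ∀ (K : ℕ) (C : ℝ≥0), HLC K C →
  ∀ (α : ℝ≥0) (δ : ℝ), 0 < δ → ∃ β₀ : ℕ, ∀ β, β₀ ≤ β → ∃ η : ℝ, 0 < η ∧ ∀ n : ℕ, 1 ≤ n →
    soup 3 α {N | ¬ Cross n (β * n) N} ≤ ENNReal.ofReal η →
    ∀ D : V3 → (Lp → ℕ) → Option Cr, CrSel n β K D → ∀ v : V3,
      PP α ε {ω | ¬ GoodB M' n β D v ω} ≤ ENNReal.ofReal δ

/-- Good blocks: independence. -/
def T_GBI : Prop := ∀ (M' n β K : ℕ) (D : V3 → (Lp → ℕ) → Option Cr), 1 ≤ n → 1 ≤ β →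
  CrSel n β K D → 2 * M' ≤ K * β → ∀ (α ε : ℝ≥0) (V : Finset V3),
  (∀ v ∈ V, ∀ v' ∈ V, v ≠ v' → 2 * (K + 2) * β < nm (v - v')) →
    PP α ε {ω | ∀ v ∈ V, ¬ GoodB M' n β D v ω} = ∏ v ∈ V, PP α ε {ω | ¬ GoodB M' n β D v ω}

/-- The plane. -/
def emb (y : Vt 2) : V3 := ![y 0, y 1, 0]

/-- Percolation of good blocks gives an infinite cluster. -/
def T_GCL : Prop := ∀ (M' n β K : ℕ) (D : V3 → (Lp → ℕ) → Option Cr), 1 ≤ n → 3 ≤ β →
  CrSel n β K D → ∀ ω : Om, (gcl {y | ¬ GoodB M' n β D (sc β (emb y)) ω}).Infinite →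
    ∃ u, {w | Conn (sp (tot ω)) u w}.Infinite

/-- The law of the union of all loops. -/
def T_TOT : Prop := ∀ α ε : ℝ≥0, (PP α ε).map tot = soup 3 (α + 20 * ε)

/-! ## Clusters -/

/-- Almost surely, points joined by chains of loops are in the same cluster. -/
def T_OPN : Prop := ∀ α : ℝ≥0, ∀ᵐ N ∂(soup 3 α), ∀ u v, Conn (sp N) u v → v ∈ cluster N u

/-- Measurability of the events of the problem. -/
def T_CLM : Prop := ∀ (d : ℕ), (∀ x : Vt d, MeasurableSet {N | (cluster N x).Infinite}) ∧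
  ∀ n m : ℕ, MeasurableSet {N : Cycle (Vt d) → ℕ | Cross n m N}

/-- Monotonicity. -/
def T_MON : Prop := ∀ (d : ℕ) (α α' : ℝ≥0), α ≤ α' → ∀ n m : ℕ,
  soup d α {N | Cross n m N} ≤ soup d α' {N | Cross n m N}

/-- All vertices have infinite clusters with the same probability. -/
def T_CZR : Prop := ∀ (d : ℕ) (α : ℝ≥0), (0 < soup d α {N | ∃ x, (cluster N x).Infinite}) →
  0 < soup d α {N | (cluster N 0).Infinite}

/-- The easy direction. -/
def T_EAS : Prop := ∀ d : ℕ, alphaSharp d ≤ alphaC d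

/-- The finite size criterion. -/
def T_FSC : Prop := ∀ α ε : ℝ≥0, 0 < ε → ∃ (β : ℕ) (η : ℝ), 2 ≤ β ∧ 0 < η ∧ ∀ n : ℕ, 1 ≤ n →
  ENNReal.ofReal (1 - η) ≤ soup 3 α {N | Cross n (β * n) N} →
    0 < soup 3 (α + ε) {N | (cluster N 0).Infinite}

/-- The two thresholds agree in dimension three. -/
def T_FIN : Prop := alphaSharp 3 = alphaC 3

end Pool.Agent.H62.LP
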