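import Pool.Agent.H62.LP.Power

/-!
# The Littlewood exponent of direct powers
-/

set_option autoImplicit false

open Filter Topology
open scoped ENNReal

namespace Pool.Agent.H62.LP

/-- the numerical part -/
theorem ori_power' {Γ G : Type*} [Group Γ] [Group G] {n r K : ℕ} (S : Finset Γ)
    (hS : Ori K S) (hn : n + 1 = 2 * r) (hr : 1 ≤ r) (hK : 1 ≤ K) (hKS : K ≤ S.card)
    (H : Subgroup G) (φ : H →* (Fin n → Γ)) (hφ : Function.Surjective φ) :
    ∃ R : Finset G, R.card = K * S.card ^ r / K ^ r ∧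
      Ori (K * (n * (Nat.log 2 (S.card + 1) + 1) + 2 ^ (n + 2))) R := by
  set k := S.card with hk
  set m := K * k ^ r / K ^ r with hm
  have hKr : 0 < K ^ r := by positivity
  have hk1 : 1 ≤ k := hK.trans hKS
  have hm1 : 1 ≤ m := by
    rw [hm, Nat.one_le_div_iff hKr]
    calc K ^ r ≤ k ^ r := Nat.pow_le_pow_left hKS r
      _ ≤ K * k ^ r := Nat.le_mul_of_pos_left _ hK
  have hmk : m ≤ k ^ n := by
    have h1 : m ≤ k ^ r := by
      rw [hm]
      refine Nat.div_le_of_le_mul ?_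
      refine Nat.mul_le_mul_right _ ?_
      exact Nat.le_self_pow (by omega) K
    exact h1.trans (Nat.pow_le_pow_right hk1 (by omega))
  set b := k ^ n / m with hb
  have hb1 : 1 ≤ b := by
    rw [hb, Nat.one_le_div_iff (by omega)]
    exact hmk
  have hmr : (0 : ℝ) < m := by exact_mod_cast (by omega : 0 < m)
  have hKrr : (0 : ℝ) < (K : ℝ) ^ r := by exact_mod_cast hKr
  -- `k ^ n ≤ 2 m b`
  have h2 : k ^ n ≤ 2 * m * b := by
    have h3 : k ^ n < m * (b + 1) := by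
      rw [hb]
      exact Nat.lt_mul_div_succ _ (by omega)
    nlinarith
  -- `K ^ r m ≤ K k ^ r`
  have h4 : m * K ^ r ≤ K * k ^ r := Nat.div_mul_le_self _ _
  refine ori_power S hS hn H φ hφ hb1 (Nat.mul_div_le _ _) ((2 ^ (n + 1) * K : ℕ) : ℝ) ?_ ?_
  · rw [← Nat.cast_mul]
    refine Nat.cast_le.2 ?_
    -- multiply by `m`
    have h5 : m * (2 ^ n * (K ^ r * k ^ (n - r))) ≤ m * (2 ^ (n + 1) * K * b) := by
      calc m * (2 ^ n * (K ^ r * k ^ (n - r))) = 2 ^ n * k ^ (n - r) * (m * K ^ r) := by ring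
        _ ≤ 2 ^ n * k ^ (n - r) * (K * k ^ r) := Nat.mul_le_mul_left _ h4
        _ = 2 ^ n * K * (k ^ (n - r) * k ^ r) := by ring
        _ = 2 ^ n * K * k ^ n := by rw [← pow_add, Nat.sub_add_cancel (by omega)]
        _ ≤ 2 ^ n * K * (2 * m * b) := Nat.mul_le_mul_left _ h2
        _ = m * (2 ^ (n + 1) * K * b) := by ring
    exact Nat.le_of_mul_le_mul_left h5 (by omega)
  · have h5 : k + 1 ≤ 2 ^ (Nat.log 2 (k + 1) + 1) := (Nat.lt_pow_succ_log_self one_lt_two _).le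
    have h6 : ((k + 1) ^ (K * n) : ℕ) ≤ 2 ^ ((Nat.log 2 (k + 1) + 1) * (K * n)) := by
      calc (k + 1) ^ (K * n) ≤ (2 ^ (Nat.log 2 (k + 1) + 1)) ^ (K * n) :=
            Nat.pow_le_pow_left h5 _
        _ = 2 ^ ((Nat.log 2 (k + 1) + 1) * (K * n)) := (pow_mul _ _ _).symm
    have h7 : Real.exp ((2 ^ (n + 1) * K : ℕ) : ℝ) ≤ (2 : ℝ) ^ (2 ^ (n + 2) * K) := by
      have h8 : Real.exp 1 ≤ (2 : ℝ) ^ 2 := by
        have := Real.exp_one_lt_d9
        norm_num at this ⊢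
        linarith
      calc Real.exp ((2 ^ (n + 1) * K : ℕ) : ℝ) = Real.exp 1 ^ (2 ^ (n + 1) * K) := by
            rw [← Real.exp_nat_mul, mul_one]
        _ ≤ ((2 : ℝ) ^ 2) ^ (2 ^ (n + 1) * K) := pow_le_pow_left₀ (Real.exp_pos _).le h8 _
        _ = (2 : ℝ) ^ (2 ^ (n + 2) * K) := by
            rw [← pow_mul]
            congr 1
            ring
    calc (((k + 1) ^ (K * n) : ℕ) : ℝ) * Real.exp ((2 ^ (n + 1) * K : ℕ) : ℝ)
        ≤ ((2 ^ ((Nat.log 2 (k + 1) + 1) * (K * n)) : ℕ) : ℝ) * (2 : ℝ) ^ (2 ^ (n + 2) * K) := by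
          refine mul_le_mul (Nat.cast_le.2 h6) h7 (Real.exp_pos _).le (Nat.cast_nonneg _)
      _ = (2 : ℝ) ^ (K * (n * (Nat.log 2 (k + 1) + 1) + 2 ^ (n + 2))) := by
          push_cast
          rw [← pow_add]
          congr 1
          ring
      _ < (2 : ℝ) ^ (K * (n * (Nat.log 2 (k + 1) + 1) + 2 ^ (n + 2)) + 1) :=
          pow_lt_pow_right₀ one_lt_two (Nat.lt_succ_self _)

/-- polynomials are smaller than exponentials -/
lemma growth (A q ε : ℝ) (hε : 0 < ε) (hA : 0 ≤ A) (hq : 0 ≤ q) :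
    ∀ᶠ t : ℕ in atTop, A * ((t : ℝ) + 1) ^ q ≤ (2 : ℝ) ^ (ε * t) := by
  set ρ : ℝ := (2 : ℝ) ^ (-ε) with hρ
  have hρ0 : 0 < ρ := by positivity
  have hρ1 : ρ < 1 := Real.rpow_lt_one_of_one_lt_of_neg one_lt_two (by linarith)
  have h1 := tendsto_pow_const_mul_const_pow_of_abs_lt_one ⌈q⌉₊
    (show |ρ| < 1 by rw [abs_of_pos hρ0]; exact hρ1)
  have h2 := (tendsto_add_atTop_iff_nat 1).2 h1
  have h3 := h2.const_mul A
  rw [mul_zero] at h3
  filter_upwards [h3.eventually_le_const hρ0] with t ht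
  have h4 : ((t : ℝ) + 1) ^ q ≤ ((t : ℝ) + 1) ^ ⌈q⌉₊ := by
    rw [← Real.rpow_natCast]
    refine Real.rpow_le_rpow_of_exponent_le ?_ (Nat.le_ceil q)
    have : (0 : ℝ) ≤ t := Nat.cast_nonneg t
    linarith
  have h5 : A * ((t : ℝ) + 1) ^ ⌈q⌉₊ * ρ ^ t ≤ 1 := by
    push_cast at ht
    rw [pow_succ ρ t] at ht
    have h6 : (A * ((t : ℝ) + 1) ^ ⌈q⌉₊ * ρ ^ t) * ρ ≤ 1 * ρ := by
      rw [one_mul]
      refine le_trans (le_of_eq ?_) ht
      ring
    exact le_of_mul_le_mul_right h6 hρ0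
  have h7 : (2 : ℝ) ^ (ε * t) * ρ ^ t = 1 := by
    rw [hρ, ← Real.rpow_natCast, ← Real.rpow_mul (by norm_num), ← Real.rpow_add (by norm_num)]
    rw [show ε * (t : ℝ) + -ε * (t : ℝ) = 0 by ring, Real.rpow_zero]
  have h8 : 0 < ρ ^ t := by positivity
  refine le_of_mul_le_mul_right ?_ h8
  rw [h7]
  refine le_trans ?_ h5
  gcongr

theorem power_lit {Γ G : Type*} [Group Γ] [Group G] {f : Γ → ℂ} (hf : f ∈ T1 Γ) (p : ℝ)
    (hp : 1 < p) (hfp : ¬ Memℓp f (ENNReal.ofReal p)) {n r : ℕ} (hn : n + 1 = 2 * r)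
    (hr : 1 ≤ r) (H : Subgroup G) (φ : H →* (Fin n → Γ)) (hφ : Function.Surjective φ)
    (q : ℝ) (hq0 : 0 < q) (hq : q < 1 + r * (p - 1)) : ENNReal.ofReal q ≤ Lit G := by
  have hrr : (1 : ℝ) ≤ r := by exact_mod_cast hr
  -- an exponent `p'` slightly smaller than `p`
  obtain ⟨p', hp'1, hp'p, hqp'⟩ : ∃ p' : ℝ, 1 < p' ∧ p' < p ∧ q < 1 + r * (p' - 1) := by
    have h1 : 1 + (q - 1) / r < p := by
      have : (q - 1) / r < p - 1 := by
        rw [div_lt_iff₀ (by linarith)]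
        linarith
      linarith
    obtain ⟨p', h2, h3⟩ := exists_between (max_lt h1 hp)
    refine ⟨p', (le_max_right _ _).trans_lt h2, h3, ?_⟩
    have h4 := (le_max_left _ _).trans_lt h2
    have h5 : (q - 1) / r < p' - 1 := by linarith
    rw [div_lt_iff₀ (by linarith)] at h5
    linarith
  obtain ⟨C, hC1, hC⟩ := ori_of_T1 hf
  have hlev : ∀ T : ℕ, ∃ t, T ≤ t ∧ ∃ S : Finset Γ, (∀ s ∈ S, (1 / 2 : ℝ) ^ t < ‖f s‖) ∧
      (2 : ℝ) ^ (p' * t) ≤ S.card := by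
    intro T
    by_contra hcon
    push Not at hcon
    exact hfp (memlp_of_levels p p' (by linarith) hp'p T fun t ht S hS => hcon t ht S hS)
  refine le_lit q hq0 fun M => ?_
  set P : ℕ := ⌈p'⌉₊ with hP
  set D : ℕ := C * (n * (P + 2) + 2 ^ (n + 2)) with hD
  have hC0 : (0 : ℝ) < C := by exact_mod_cast (by omega : 0 < C)
  have hDpos : 0 < D := by
    rw [hD]
    have : 0 < 2 ^ (n + 2) := by positivity
    exact Nat.mul_pos (by omega) (by omega)
  have hε : 0 < 1 + r * (p' - 1) - q := by linarith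
  have hev1 := growth (|M| * (D : ℝ) ^ q * 2 * (C : ℝ) ^ r) q (1 + r * (p' - 1) - q) hε
    (by positivity) hq0.le
  have hev2 := growth (C : ℝ) 0 (p' - 1) (by linarith) hC0.le le_rfl
  obtain ⟨T, hT⟩ := eventually_atTop.1 (hev1.and hev2)
  obtain ⟨t, htT, S, hS, hSc⟩ := hlev T
  obtain ⟨hT1, hT2⟩ := hT t htT
  rw [Real.rpow_zero, mul_one] at hT2
  set k : ℕ := ⌈(2 : ℝ) ^ (p' * t)⌉₊ with hk
  have hkS : k ≤ S.card := Nat.ceil_le.2 hSc
  obtain ⟨S', hS'S, hS'k⟩ := Finset.exists_subset_card_eq hkS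
  have hori : Ori (C * 2 ^ t) S' := hC t S' fun s hs => hS s (hS'S hs)
  set K : ℕ := C * 2 ^ t with hK
  have hK1 : 1 ≤ K := by
    have : 0 < 2 ^ t := by positivity
    exact Nat.mul_pos (by omega) this
  have hkr : (2 : ℝ) ^ (p' * t) ≤ k := Nat.le_ceil _
  have hKk : K ≤ S'.card := by
    rw [hS'k]
    have h1 : (K : ℝ) ≤ (2 : ℝ) ^ (p' * t) := by
      rw [hK]
      push_cast
      calc (C : ℝ) * 2 ^ t ≤ (2 : ℝ) ^ ((p' - 1) * t) * 2 ^ t := by gcongr
        _ = (2 : ℝ) ^ (p' * t) := by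
            rw [← Real.rpow_natCast, ← Real.rpow_add (by norm_num)]
            congr 1
            ring
    exact_mod_cast h1.trans hkr
  obtain ⟨R, hRc, hRo⟩ := ori_power' S' hori hn hr hK1 hKk H φ hφ
  rw [hS'k] at hRc hRo
  refine ⟨_, R, ?_, hRo, ?_⟩
  · have : 0 < 2 ^ (n + 2) := by positivity
    exact Nat.mul_pos (by omega) (by omega)
  -- the bound for the orientation constant
  have hL : K * (n * (Nat.log 2 (k + 1) + 1) + 2 ^ (n + 2)) ≤ D * (2 ^ t * (t + 1)) := by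
    have h1 : k ≤ 2 ^ (P * t) := by
      rw [hk]
      refine Nat.ceil_le.2 ?_
      push_cast
      rw [← Real.rpow_natCast]
      refine Real.rpow_le_rpow_of_exponent_le one_le_two ?_
      push_cast
      exact mul_le_mul_of_nonneg_right (Nat.le_ceil p') (Nat.cast_nonneg t)
    have h2 : Nat.log 2 (k + 1) ≤ P * t + 1 := by
      have h3 : k + 1 ≤ 2 ^ (P * t + 1) := by
        rw [pow_succ]
        have : 1 ≤ 2 ^ (P * t) := Nat.one_le_two_pow
        omega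
      calc Nat.log 2 (k + 1) ≤ Nat.log 2 (2 ^ (P * t + 1)) := Nat.log_mono_right h3
        _ = P * t + 1 := Nat.log_pow one_lt_two _
    have h4 : n * (Nat.log 2 (k + 1) + 1) + 2 ^ (n + 2) ≤
        (n * (P + 2) + 2 ^ (n + 2)) * (t + 1) := by
      calc n * (Nat.log 2 (k + 1) + 1) + 2 ^ (n + 2)
          ≤ n * (P * t + 2) + 2 ^ (n + 2) :=
            Nat.add_le_add_right (Nat.mul_le_mul_left _ (by omega)) _
        _ ≤ n * (P * t + 2) + 2 ^ (n + 2) + (n * P + 2 * n * t + 2 ^ (n + 2) * t) :=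
            Nat.le_add_right _ _
        _ = (n * (P + 2) + 2 ^ (n + 2)) * (t + 1) := by ring
    rw [hK, hD]
    calc C * 2 ^ t * (n * (Nat.log 2 (k + 1) + 1) + 2 ^ (n + 2))
        ≤ C * 2 ^ t * ((n * (P + 2) + 2 ^ (n + 2)) * (t + 1)) := Nat.mul_le_mul_left _ h4
      _ = _ := by ring
  have hLr : ((K * (n * (Nat.log 2 (k + 1) + 1) + 2 ^ (n + 2)) : ℕ) : ℝ) ^ q ≤
      (D : ℝ) ^ q * ((2 : ℝ) ^ (q * t) * ((t : ℝ) + 1) ^ q) := by
    have h1 : (((K * (n * (Nat.log 2 (k + 1) + 1) + 2 ^ (n + 2)) : ℕ)) : ℝ) ≤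
        (D : ℝ) * ((2 : ℝ) ^ t * ((t : ℝ) + 1)) := by
      exact_mod_cast hL
    refine (Real.rpow_le_rpow (Nat.cast_nonneg _) h1 hq0.le).trans (le_of_eq ?_)
    rw [Real.mul_rpow (by positivity) (by positivity),
      Real.mul_rpow (by positivity) (by positivity), ← Real.rpow_natCast,
      ← Real.rpow_mul (by norm_num), mul_comm (t : ℝ) q]
  -- the number of elements
  have hcard : (2 : ℝ) ^ ((1 + r * (p' - 1)) * t) ≤ 2 * (C : ℝ) ^ r * R.card := by
    have h1 : K ^ r ≤ K * k ^ r := by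
      rw [hS'k] at hKk
      calc K ^ r ≤ k ^ r := Nat.pow_le_pow_left hKk r
        _ ≤ K * k ^ r := Nat.le_mul_of_pos_left _ hK1
    have hKr : 0 < K ^ r := by positivity
    have h2 : K * k ^ r ≤ 2 * (K * k ^ r / K ^ r) * K ^ r := by
      have h3 : K * k ^ r < K ^ r * (K * k ^ r / K ^ r + 1) := Nat.lt_mul_div_succ _ hKr
      have h4 : 1 ≤ K * k ^ r / K ^ r := (Nat.one_le_div_iff hKr).2 h1
      nlinarith
    rw [← hRc] at h2
    have h5 : (K : ℝ) * (k : ℝ) ^ r ≤ 2 * R.card * (K : ℝ) ^ r := by exact_mod_cast h2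
    have h6 : (K : ℝ) = C * 2 ^ t := by
      rw [hK]
      push_cast
      rfl
    have h7 : (1 : ℝ) ≤ C := by exact_mod_cast hC1
    have h8 : (2 : ℝ) ^ t * ((2 : ℝ) ^ (p' * t)) ^ r ≤ 2 * R.card * ((C : ℝ) * 2 ^ t) ^ r := by
      rw [h6] at h5
      refine le_trans ?_ h5
      refine mul_le_mul ?_ (pow_le_pow_left₀ (by positivity) hkr r) (by positivity)
        (by positivity)
      exact le_mul_of_one_le_left (by positivity) h7
    have h9 : (0 : ℝ) < ((2 : ℝ) ^ t) ^ r := by positivity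
    have h10 : (2 : ℝ) ^ ((1 + r * (p' - 1)) * t) * ((2 : ℝ) ^ t) ^ r =
        (2 : ℝ) ^ t * ((2 : ℝ) ^ (p' * t)) ^ r := by
      rw [← Real.rpow_natCast (2 : ℝ) t, ← Real.rpow_natCast _ r, ← Real.rpow_natCast _ r,
        ← Real.rpow_mul (by norm_num), ← Real.rpow_mul (by norm_num),
        ← Real.rpow_add (by norm_num), ← Real.rpow_add (by norm_num)]
      congr 1
      ring
    refine le_of_mul_le_mul_right ?_ h9
    rw [h10]
    refine h8.trans (le_of_eq ?_)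
    rw [mul_pow]
    ring
  -- the comparison
  have hfin : |M| * ((K * (n * (Nat.log 2 (k + 1) + 1) + 2 ^ (n + 2)) : ℕ) : ℝ) ^ q *
      (2 * (C : ℝ) ^ r) ≤ R.card * (2 * (C : ℝ) ^ r) := by
    calc |M| * ((K * (n * (Nat.log 2 (k + 1) + 1) + 2 ^ (n + 2)) : ℕ) : ℝ) ^ q *
            (2 * (C : ℝ) ^ r)
        ≤ |M| * ((D : ℝ) ^ q * ((2 : ℝ) ^ (q * t) * ((t : ℝ) + 1) ^ q)) * (2 * (C : ℝ) ^ r) := by
          gcongr
      _ = (|M| * (D : ℝ) ^ q * 2 * (C : ℝ) ^ r * ((t : ℝ) + 1) ^ q) * (2 : ℝ) ^ (q * t) := by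
          ring
      _ ≤ (2 : ℝ) ^ ((1 + r * (p' - 1) - q) * t) * (2 : ℝ) ^ (q * t) := by gcongr
      _ = (2 : ℝ) ^ ((1 + r * (p' - 1)) * t) := by
          rw [← Real.rpow_add (by norm_num)]
          congr 1
          ring
      _ ≤ 2 * (C : ℝ) ^ r * R.card := hcard
      _ = _ := by ring
  have hpos : (0 : ℝ) < 2 * (C : ℝ) ^ r := by positivity
  refine le_trans ?_ (le_of_mul_le_mul_right hfin hpos)
  gcongr
  exact le_abs_self M

/-- the main theorem -/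
theorem main {Γ G : Type*} [Group Γ] [Group G] (n : ℕ) (H : Subgroup G)
    (φ : H →* (Fin n → Γ)) (hφ : Function.Surjective φ) :
    (((n + 1) / 2 : ℕ) : ℝ≥0∞) * (Lit Γ - 1) ≤ Lit G - 1 := by
  set r := (n + 1) / 2 with hr
  rcases Nat.eq_zero_or_pos r with h0 | h0
  · rw [h0, Nat.cast_zero, zero_mul]
    exact bot_le
  -- restriction to `2 r - 1` coordinates
  have hle : 2 * r - 1 ≤ n := by omega
  let ι : Fin (2 * r - 1) → Fin n := Fin.castLE hle
  let res : (Fin n → Γ) →* (Fin (2 * r - 1) → Γ) :=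
    { toFun := fun x i => x (ι i)
      map_one' := rfl
      map_mul' := fun _ _ => rfl }
  have hres : Function.Surjective res := by
    intro y
    classical
    refine ⟨fun i => if h : (i : ℕ) < 2 * r - 1 then y ⟨i, h⟩ else 1, ?_⟩
    funext i
    change (if h : ((ι i : Fin n) : ℕ) < 2 * r - 1 then y ⟨(ι i : Fin n), h⟩ else 1) = y i
    rw [dif_pos (show ((ι i : Fin n) : ℕ) < 2 * r - 1 from i.2)]
    rfl
  refine le_of_forall_lt_imp_le_of_dense fun c hc => ?_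
  have hr0 : (r : ℝ≥0∞) ≠ 0 := by exact_mod_cast h0.ne'
  have hrt : (r : ℝ≥0∞) ≠ ∞ := ENNReal.natCast_ne_top r
  have hct : c ≠ ∞ := (hc.trans_le le_top).ne
  have h1 : c / r < Lit Γ - 1 := by
    refine ENNReal.div_lt_of_lt_mul' hc
  have h2 : c / r + 1 < Lit Γ := lt_tsub_iff_right.1 h1
  obtain ⟨p, hp1, hp2⟩ := exists_between h2
  have hpt : p ≠ ∞ := (hp2.trans_le le_top).ne
  have hp0 : 0 < p := (bot_le).trans_lt hp1
  -- a function in `T₁` which is not in `ℓᵖ`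
  obtain ⟨f, hf, hfp⟩ : ∃ f ∈ T1 Γ, ¬ Memℓp f p := by
    by_contra hcon
    push Not at hcon
    exact absurd (sInf_le (show p ∈ {p : ℝ≥0∞ | 0 < p ∧ p < ∞ ∧ ∀ f ∈ T1 Γ, Memℓp f p} from
      ⟨hp0, hpt.lt_top, hcon⟩)) (not_le.2 hp2)
  have hpr : ENNReal.ofReal p.toReal = p := ENNReal.ofReal_toReal hpt
  have h3 : c.toReal / r + 1 < p.toReal := by
    have h4 := (ENNReal.toReal_lt_toReal (ENNReal.add_ne_top.2
      ⟨(h1.trans_le le_top).ne, ENNReal.one_ne_top⟩) hpt).2 hp1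
    rwa [ENNReal.toReal_add (h1.trans_le le_top).ne ENNReal.one_ne_top, ENNReal.toReal_div,
      ENNReal.toReal_natCast, ENNReal.toReal_one] at h4
  have hrr : (0 : ℝ) < r := by exact_mod_cast h0
  have hx : 0 ≤ c.toReal := ENNReal.toReal_nonneg
  have hx' : 0 ≤ c.toReal / r := by positivity
  have h5 : 1 + c.toReal < 1 + r * (p.toReal - 1) := by
    have h6 : c.toReal / r < p.toReal - 1 := by linarith
    rw [div_lt_iff₀ hrr] at h6
    linarith
  have h7 := power_lit hf p.toReal (by linarith) (by rw [hpr]; exact hfp)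
    (show 2 * r - 1 + 1 = 2 * r by omega) h0 H (res.comp φ)
    (by rw [MonoidHom.coe_comp]; exact hres.comp hφ) (1 + c.toReal) (by linarith) h5
  refine ENNReal.le_sub_of_add_le_right ENNReal.one_ne_top ?_
  rw [ENNReal.ofReal_add zero_le_one hx, ENNReal.ofReal_one, ENNReal.ofReal_toReal hct,
    add_comm] at h7
  exact h7

end Pool.Agent.H62.LP
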