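import Mathlib

/-!
# Amenability and Dixmier systems
-/

set_option autoImplicit false

open Finset

namespace Pool.Agent.H62.LP

/-- A real function on `N` is bounded. -/
def Bdd {N : Type*} (φ : N → ℝ) : Prop := ∃ C, ∀ x, |φ x| ≤ C

/-- Amenability of a discrete group `N`: there is a left-invariant mean on the bounded real
functions on `N`, that is, a functional `M` (its values at unbounded functions are irrelevant) which
on bounded functions is additive and homogeneous, is nonnegative on nonnegative functions, takes the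
value `1` at the constant function `1`, and is invariant under left translations. -/
def IsAmenable (N : Type*) [Group N] : Prop :=
  ∃ M : (N → ℝ) → ℝ,
    (∀ φ ψ, Bdd φ → Bdd ψ → M (fun x => φ x + ψ x) = M φ + M ψ) ∧
    (∀ (c : ℝ) φ, Bdd φ → M (fun x => c * φ x) = c * M φ) ∧
    (∀ φ, Bdd φ → (∀ x, 0 ≤ φ x) → 0 ≤ M φ) ∧
    M (fun _ => 1) = 1 ∧
    (∀ (g : N) φ, Bdd φ → M (fun x => φ (g * x)) = M φ)

/-- a Dixmier system: an obstruction to amenability -/
def Dix (N : Type*) [Group N] : Prop :=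
  ∃ (n : ℕ) (f : Fin n → N → ℝ) (s : Fin n → N) (B : ℝ), (∀ i u, |f i u| ≤ B) ∧
    ∀ u, 1 ≤ ∑ i, (f i u - f i (s i * u))

lemma Bdd.add {N : Type*} {φ ψ : N → ℝ} (h1 : Bdd φ) (h2 : Bdd ψ) : Bdd fun x => φ x + ψ x := by
  obtain ⟨C, hC⟩ := h1
  obtain ⟨D, hD⟩ := h2
  exact ⟨C + D, fun x => (abs_add_le _ _).trans (add_le_add (hC x) (hD x))⟩

lemma Bdd.mul {N : Type*} {φ : N → ℝ} (c : ℝ) (h1 : Bdd φ) : Bdd fun x => c * φ x := by
  obtain ⟨C, hC⟩ := h1
  exact ⟨|c| * C, fun x => by
    rw [abs_mul]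
    exact mul_le_mul_of_nonneg_left (hC x) (abs_nonneg c)⟩

lemma Bdd.comp {N N' : Type*} {φ : N → ℝ} (g : N' → N) (h1 : Bdd φ) : Bdd fun x => φ (g x) := by
  obtain ⟨C, hC⟩ := h1
  exact ⟨C, fun x => hC _⟩

/-- Hahn-Banach -/
theorem dix_of_not_amenable {N : Type*} [Group N] (h : ¬ IsAmenable N) : Dix N := by
  by_contra hdix
  apply h
  -- the space of bounded functions
  let V : Submodule ℝ (N → ℝ) :=
    { carrier := {f | Bdd f}
      add_mem' := fun ha hb => ha.add hb
      zero_mem' := ⟨0, fun x => by simp⟩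
      smul_mem' := fun c f hf => hf.mul c }
  let T : N → V → V := fun g f => ⟨fun x => f.1 (g * x), f.2.comp _⟩
  let D : Submodule ℝ V := Submodule.span ℝ {d | ∃ (g : N) (f : V), d = f - T g f}
  let p : V → ℝ := fun f => ⨆ x, f.1 x
  have hbdd : ∀ f : V, BddAbove (Set.range fun x => f.1 x) := by
    rintro ⟨f, C, hC⟩
    refine ⟨C, ?_⟩
    rintro _ ⟨x, rfl⟩
    exact (le_abs_self _).trans (hC x)
  have hle : ∀ (f : V) (x : N), f.1 x ≤ p f := fun f x => le_ciSup (hbdd f) x
  have hp1 : ∀ c : ℝ, 0 < c → ∀ f, p (c • f) = c * p f := by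
    intro c hc0 f
    simp only [p]
    rw [Real.mul_iSup_of_nonneg hc0.le]
    rfl
  have hp2 : ∀ f g, p (f + g) ≤ p f + p g := by
    intro f g
    refine ciSup_le fun x => ?_
    exact add_le_add (hle f x) (hle g x)
  have hD : ∀ d ∈ D, 0 ≤ p d := by
    intro d hd
    obtain ⟨n, c, v, hv⟩ := Submodule.mem_span_set'.1 hd
    by_contra hneg
    push Not at hneg
    choose g f hgf using fun i => (v i).2
    apply hdix
    set δ : ℝ := -(p d) with hδ
    have hδ0 : 0 < δ := by linarith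
    have hB : ∀ i, ∃ B : ℝ, 0 ≤ B ∧ ∀ u, |(-(c i / δ)) * (f i).1 u| ≤ B := by
      intro i
      obtain ⟨C, hC⟩ := (f i).2.mul (-(c i / δ))
      exact ⟨|C|, abs_nonneg C, fun u => (hC u).trans (le_abs_self C)⟩
    choose B hB0 hB using hB
    refine ⟨n, fun i u => (-(c i / δ)) * (f i).1 u, g, ∑ i, B i, fun i u => ?_, fun u => ?_⟩
    · exact (hB i u).trans (single_le_sum (f := B) (fun j _ => hB0 j) (mem_univ i))
    · have h1 : ∑ i, ((-(c i / δ)) * (f i).1 u - (-(c i / δ)) * (f i).1 (g i * u)) =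
          -(d.1 u) / δ := by
        have h2 : d.1 u = ∑ i, c i * ((f i).1 u - (f i).1 (g i * u)) := by
          rw [← hv]
          have h3 : (∑ i, c i • (v i : V)).1 u = ∑ i, (c i • (v i : V)).1 u :=
            map_sum ((LinearMap.proj u : (N → ℝ) →ₗ[ℝ] ℝ).comp V.subtype) _ _
          rw [h3]
          refine sum_congr rfl fun i _ => ?_
          rw [hgf i]
          rfl
        rw [h2, ← sum_neg_distrib, sum_div]
        refine sum_congr rfl fun i _ => ?_
        ring
      rw [h1, le_div_iff₀ hδ0]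
      have := hle d u
      linarith
  obtain ⟨φ, hφ0, hφp⟩ := exists_extension_of_le_sublinear (⟨D, 0⟩ : V →ₗ.[ℝ] ℝ) p hp1 hp2
    (fun d => hD d.1 d.2)
  have hφ0' : ∀ d ∈ D, φ d = 0 := fun d hd => hφ0 ⟨d, hd⟩
  have hpos : ∀ f : V, (∀ x, 0 ≤ f.1 x) → 0 ≤ φ f := by
    intro f hf
    have h1 := hφp (-f)
    have h2 : p (-f) ≤ 0 := ciSup_le fun x => by
      have h3 : (-f).1 x = -(f.1 x) := rfl
      rw [h3]
      linarith [hf x]
    rw [map_neg] at h1
    linarith
  let o : V := ⟨fun _ => 1, 1, fun x => by simp⟩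
  have hone : φ o = 1 := by
    have h1 := hφp o
    have h2 : p o = 1 := ciSup_const
    have h3 := hφp (-o)
    have h4 : p (-o) = -1 := ciSup_const (a := (-1 : ℝ))
    rw [map_neg] at h3
    linarith
  have hinv : ∀ (g : N) (f : V), φ (T g f) = φ f := by
    intro g f
    have h1 := hφ0' (f - T g f) (Submodule.subset_span ⟨g, f, rfl⟩)
    rw [map_sub] at h1
    linarith
  classical
  have hM : ∃ M : (N → ℝ) → ℝ, ∀ f (hf : Bdd f), M f = φ ⟨f, hf⟩ :=
    ⟨fun f => if hf : Bdd f then φ ⟨f, hf⟩ else 0, fun f hf => dif_pos hf⟩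
  obtain ⟨M, hM⟩ := hM
  refine ⟨M, ?_, ?_, ?_, ?_, ?_⟩
  · intro f g hf hg
    rw [hM f hf, hM g hg, hM _ (hf.add hg), ← map_add]
    rfl
  · intro c f hf
    rw [hM f hf, hM _ (hf.mul c), ← smul_eq_mul, ← map_smul]
    rfl
  · intro f hf h0
    rw [hM f hf]
    exact hpos ⟨f, hf⟩ h0
  · rw [hM _ (show Bdd (fun _ : N => (1 : ℝ)) from ⟨1, fun x => by simp⟩)]
    exact hone
  · intro g f hf
    rw [hM f hf, hM _ (hf.comp _)]
    exact hinv g ⟨f, hf⟩

theorem IsAmenable.sum {N : Type*} {M : (N → ℝ) → ℝ}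
    (hadd : ∀ φ ψ, Bdd φ → Bdd ψ → M (fun x => φ x + ψ x) = M φ + M ψ)
    (hsmul : ∀ (c : ℝ) φ, Bdd φ → M (fun x => c * φ x) = c * M φ)
    {ι : Type*} (s : Finset ι) (f : ι → N → ℝ) (hf : ∀ i, Bdd (f i)) :
    Bdd (fun x => ∑ i ∈ s, f i x) ∧ M (fun x => ∑ i ∈ s, f i x) = ∑ i ∈ s, M (f i) := by
  classical
  induction s using Finset.induction_on with
  | empty =>
    have h0 : Bdd (fun _ : N => (0 : ℝ)) := ⟨0, fun x => by simp⟩
    refine ⟨by simpa using h0, ?_⟩
    have h1 := hsmul 0 _ h0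
    simpa using h1
  | insert a s ha ih =>
    simp only [sum_insert ha]
    exact ⟨(hf a).add ih.1, by rw [hadd _ _ (hf a) ih.1, ih.2]⟩

theorem not_dix_of_amenable {N : Type*} [Group N] (h : IsAmenable N) : ¬ Dix N := by
  rintro ⟨n, f, s, B, hB, hf⟩
  obtain ⟨M, hadd, hsmul, hpos, hone, hinv⟩ := h
  have hfb : ∀ i, Bdd (f i) := fun i => ⟨B, hB i⟩
  have hd : ∀ i, Bdd fun u => f i u + (-1) * f i (s i * u) := fun i =>
    (hfb i).add ((hfb i).comp _ |>.mul _)
  obtain ⟨h1, h2⟩ := IsAmenable.sum hadd hsmul univ _ hd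
  have h3 : ∀ i, M (fun u => f i u + (-1) * f i (s i * u)) = 0 := by
    intro i
    rw [hadd _ _ (hfb i) (((hfb i).comp _).mul _), hsmul _ _ ((hfb i).comp _), hinv _ _ (hfb i)]
    ring
  rw [sum_congr rfl fun i _ => h3 i, sum_const_zero] at h2
  have hc1 : Bdd (fun _ : N => (1 : ℝ)) := ⟨1, fun x => by simp⟩
  have h4 := hpos _ (h1.add (hc1.mul (-1))) fun u => by
    have h5 := hf u
    have h6 : ∑ i, (f i u + (-1) * f i (s i * u)) = ∑ i, (f i u - f i (s i * u)) :=
      sum_congr rfl fun i _ => by ring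
    rw [h6]
    linarith
  rw [hadd _ _ h1 (hc1.mul (-1)), h2, hsmul _ _ hc1, hone] at h4
  linarith

theorem dix_iff {N : Type*} [Group N] : Dix N ↔ ¬ IsAmenable N :=
  ⟨fun h h' => not_dix_of_amenable h' h, dix_of_not_amenable⟩

/-- subgroups of amenable groups are amenable -/
theorem Dix.of_injective {H G : Type*} [Group H] [Group G] (j : H →* G)
    (hj : Function.Injective j) (h : Dix H) : Dix G := by
  classical
  -- an equivariant map from `G` to `H`
  obtain ⟨r, hr⟩ : ∃ r : G → H, ∀ k g, r (j k * g) = k * r g := by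
    let o : G → G := fun g => Quotient.out (QuotientGroup.mk g⁻¹ : G ⧸ j.range)
    have h1 : ∀ g, g * o g ∈ j.range := by
      intro g
      have h2 : (QuotientGroup.mk (o g) : G ⧸ j.range) = QuotientGroup.mk g⁻¹ :=
        Quotient.out_eq _
      have h3 := QuotientGroup.eq.1 h2.symm
      rwa [inv_inv] at h3
    have h2 : ∀ k g, o (j k * g) = o g := by
      intro k g
      have h3 : (QuotientGroup.mk (j k * g)⁻¹ : G ⧸ j.range) = QuotientGroup.mk g⁻¹ := by
        rw [QuotientGroup.eq, inv_inv, mul_inv_cancel_right]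
        exact ⟨k, rfl⟩
      simp only [o]
      rw [h3]
    choose t ht using h1
    refine ⟨t, fun k g => hj ?_⟩
    rw [ht, h2, map_mul, ht, mul_assoc]
  obtain ⟨n, f, s, B, hB, hf⟩ := h
  refine ⟨n, fun i g => f i (r g), fun i => j (s i), B, fun i g => hB _ _, fun g => ?_⟩
  have h1 := hf (r g)
  simpa only [hr] using h1

/-- a finitely generated subgroup -/
theorem Dix.fg {G : Type*} [Group G] (h : Dix G) :
    ∃ (n : ℕ) (s : Fin n → G), Dix (Subgroup.closure (Set.range s)) := by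
  obtain ⟨n, f, s, B, hB, hf⟩ := h
  refine ⟨n, s, n, fun i u => f i u, fun i => ⟨s i, Subgroup.subset_closure ⟨i, rfl⟩⟩, B,
    fun i u => hB _ _, fun u => hf u⟩

/-- the bound for a mean -/
lemma mean_bound {N : Type*} {M : (N → ℝ) → ℝ}
    (hadd : ∀ φ ψ, Bdd φ → Bdd ψ → M (fun x => φ x + ψ x) = M φ + M ψ)
    (hsmul : ∀ (c : ℝ) φ, Bdd φ → M (fun x => c * φ x) = c * M φ)
    (hpos : ∀ φ, Bdd φ → (∀ x, 0 ≤ φ x) → 0 ≤ M φ) (hone : M (fun _ => 1) = 1)
    (φ : N → ℝ) (C : ℝ) (hC : ∀ x, |φ x| ≤ C) : |M φ| ≤ C := by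
  have hφ : Bdd φ := ⟨C, hC⟩
  have h1 : Bdd (fun _ : N => (1 : ℝ)) := ⟨1, fun x => by simp⟩
  have h2 := hpos _ ((h1.mul C).add (hφ.mul (-1))) fun x => by
    have := (abs_le.1 (hC x)).2
    linarith
  rw [hadd _ _ (h1.mul C) (hφ.mul (-1)), hsmul _ _ h1, hsmul _ _ hφ, hone] at h2
  have h3 := hpos _ ((h1.mul C).add hφ) fun x => by
    have := (abs_le.1 (hC x)).1
    linarith
  rw [hadd _ _ (h1.mul C) hφ, hsmul _ _ h1, hone] at h3
  rw [abs_le]
  constructor <;> linarith

/-- extensions -/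
theorem amenable_of_hom {G P : Type*} [Group G] [Group P] (ψ : G →* P)
    (h1 : IsAmenable ψ.ker) (h2 : IsAmenable ψ.range) : IsAmenable G := by
  obtain ⟨M, hadd, hsmul, hpos, hone, hinv⟩ := h1
  obtain ⟨M', hadd', hsmul', hpos', hone', hinv'⟩ := h2
  have hbd := mean_bound hadd hsmul hpos hone
  -- lifts
  have hl : ∀ q : ψ.range, ∃ g, ψ g = q := fun q => q.2
  choose ℓ hℓ using hl
  let A : (G → ℝ) → G → ℝ := fun φ g => M fun n => φ (g * n)
  have hA : ∀ φ, Bdd φ → Bdd (A φ) := by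
    rintro φ ⟨C, hC⟩
    exact ⟨C, fun g => hbd _ C fun n => hC _⟩
  have hAψ : ∀ φ, Bdd φ → ∀ g g', ψ g = ψ g' → A φ g = A φ g' := by
    intro φ hφ g g' hg
    have hk : g'⁻¹ * g ∈ ψ.ker := by
      rw [MonoidHom.mem_ker, map_mul, map_inv, hg, inv_mul_cancel]
    have h3 := hinv ⟨g'⁻¹ * g, hk⟩ (fun n => φ (g' * n)) (hφ.comp _)
    calc A φ g = M fun x : ψ.ker => φ (g' * ((⟨g'⁻¹ * g, hk⟩ * x : ψ.ker) : G)) := by
          simp only [A]
          congr 1
          funext n
          congr 1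
          rw [Subgroup.coe_mul]
          group
      _ = A φ g' := h3
  refine ⟨fun φ => M' fun q => A φ (ℓ q), ?_, ?_, ?_, ?_, ?_⟩
  · intro φ χ hφ hχ
    have h3 : ∀ g, A (fun x => φ x + χ x) g = A φ g + A χ g := fun g =>
      hadd _ _ (hφ.comp _) (hχ.comp _)
    simp only [h3]
    exact hadd' _ _ ((hA φ hφ).comp _) ((hA χ hχ).comp _)
  · intro c φ hφ
    have h3 : ∀ g, A (fun x => c * φ x) g = c * A φ g := fun g => hsmul _ _ (hφ.comp _)
    simp only [h3]
    exact hsmul' _ _ ((hA φ hφ).comp _)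
  · intro φ hφ h0
    exact hpos' _ ((hA φ hφ).comp _) fun q => hpos _ (hφ.comp _) fun n => h0 _
  · have h3 : ∀ g, A (fun _ => 1) g = 1 := fun g => hone
    simp only [h3]
    exact hone'
  · intro g φ hφ
    have h3 : ∀ g', A (fun x => φ (g * x)) g' = A φ (g * g') := by
      intro g'
      simp only [A]
      congr 1
      funext n
      rw [mul_assoc]
    simp only [h3]
    have h4 : ∀ q : ψ.range, A φ (g * ℓ q) = A φ (ℓ (⟨ψ g, g, rfl⟩ * q)) := by
      intro q
      refine hAψ φ hφ _ _ ?_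
      rw [map_mul, hℓ, hℓ]
      rfl
    simp only [h4]
    exact hinv' ⟨ψ g, g, rfl⟩ (fun q => A φ (ℓ q)) ((hA φ hφ).comp _)

theorem Dix.hom {G P : Type*} [Group G] [Group P] (ψ : G →* P) (h : Dix G) :
    Dix ψ.ker ∨ Dix ψ.range := by
  rw [dix_iff] at h
  rw [dix_iff, dix_iff]
  by_contra hcon
  push Not at hcon
  exact h (amenable_of_hom ψ hcon.1 hcon.2)

/-- commutative groups are amenable -/
theorem comm_aux {A : Type*} [CommGroup A] :
    ∀ (n : ℕ) (f : Fin n → A → ℝ) (s : Fin n → A) (B c : ℝ), (∀ i u, |f i u| ≤ B) →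
      (∀ u, c ≤ ∑ i, (f i u - f i (s i * u))) → c ≤ 0 := by
  intro n
  induction n with
  | zero =>
    intro f s B c _ h
    simpa using h 1
  | succ n ih =>
    intro f s B c hB h
    have hB0 : 0 ≤ B := (abs_nonneg _).trans (hB 0 1)
    -- average over powers of `s 0`
    have key : ∀ L : ℕ, 0 < L → c ≤ 2 * B / L := by
      intro L hL
      have hLr : (0 : ℝ) < L := by exact_mod_cast hL
      have h1 := ih (fun i u => (∑ k ∈ range L, f i.succ (s 0 ^ k * u)) / L)
        (fun i => s i.succ) B (c - 2 * B / L) (fun i u => ?_) (fun u => ?_)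
      · linarith
      · rw [abs_div, abs_of_pos hLr, div_le_iff₀ hLr]
        refine (abs_sum_le_sum_abs _ _).trans ((sum_le_card_nsmul _ _ B fun k _ => hB _ _).trans
          (le_of_eq ?_))
        rw [card_range, nsmul_eq_mul, mul_comm]
      · have h2 : (L : ℝ) * c ≤ ∑ k ∈ range L, ∑ i, (f i (s 0 ^ k * u) -
            f i (s i * (s 0 ^ k * u))) := by
          have h3 := card_nsmul_le_sum (range L) (fun k => ∑ i, (f i (s 0 ^ k * u) -
            f i (s i * (s 0 ^ k * u)))) c fun k _ => h _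
          rwa [card_range, nsmul_eq_mul] at h3
        have h4 : ∑ k ∈ range L, ∑ i, (f i (s 0 ^ k * u) - f i (s i * (s 0 ^ k * u))) =
            (f 0 u - f 0 (s 0 ^ L * u)) + ∑ i : Fin n, (∑ k ∈ range L,
              f i.succ (s 0 ^ k * u) - ∑ k ∈ range L, f i.succ (s 0 ^ k * (s i.succ * u))) := by
          simp only [Fin.sum_univ_succ]
          rw [sum_add_distrib]
          congr 1
          · have h5 : ∀ k, f 0 (s 0 ^ k * u) - f 0 (s 0 * (s 0 ^ k * u)) =
                -(f 0 (s 0 ^ (k + 1) * u) - f 0 (s 0 ^ k * u)) := by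
              intro k
              rw [pow_succ' (s 0) k, mul_assoc]
              ring
            simp only [h5]
            rw [sum_neg_distrib, sum_range_sub (fun k => f 0 (s 0 ^ k * u))]
            simp
          · rw [sum_comm]
            refine sum_congr rfl fun i _ => ?_
            rw [← sum_sub_distrib]
            refine sum_congr rfl fun k _ => ?_
            rw [mul_left_comm]
        have h6 : f 0 u - f 0 (s 0 ^ L * u) ≤ 2 * B := by
          have h7 := (abs_le.1 (hB 0 u)).2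
          have h8 := (abs_le.1 (hB 0 (s 0 ^ L * u))).1
          linarith
        have h9 : ∑ i : Fin n, ((∑ k ∈ range L, f i.succ (s 0 ^ k * u)) / L -
            (∑ k ∈ range L, f i.succ (s 0 ^ k * (s i.succ * u))) / L) =
            (∑ i : Fin n, (∑ k ∈ range L, f i.succ (s 0 ^ k * u) -
              ∑ k ∈ range L, f i.succ (s 0 ^ k * (s i.succ * u)))) / L := by
          rw [sum_div]
          exact sum_congr rfl fun i _ => by ring
        rw [h9, le_div_iff₀ hLr]
        have h10 : (c - 2 * B / L) * L = L * c - 2 * B := by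
          field_simp
        rw [h10]
        linarith
    by_contra hc
    push Not at hc
    obtain ⟨L, hL⟩ := exists_nat_gt (2 * B / c)
    have hL0 : 0 < L := by
      have : (0 : ℝ) ≤ 2 * B / c := by positivity
      exact_mod_cast lt_of_le_of_lt this hL
    have h1 := key L hL0
    have hLr : (0 : ℝ) < L := by exact_mod_cast hL0
    rw [div_lt_iff₀ hc] at hL
    rw [le_div_iff₀ hLr] at h1
    linarith

theorem not_dix_comm {A : Type*} [CommGroup A] : ¬ Dix A := by
  rintro ⟨n, f, s, B, hB, hf⟩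
  have := comm_aux n f s B 1 hB hf
  linarith

theorem Dix.commutator {G : Type*} [Group G] (h : Dix G) : Dix (commutator G) := by
  rcases h.hom (Abelianization.of (G := G)) with h1 | h1
  · have h2 : (Abelianization.of (G := G)).ker = _root_.commutator G := Abelianization.ker_of G
    rwa [h2] at h1
  · exact absurd (h1.of_injective (Subgroup.subtype _) Subtype.val_injective) not_dix_comm

theorem Dix.inf_ker {G P : Type*} [Group G] [Group P] (N : Subgroup G) (ψ : G →* P)
    (h : Dix N) : Dix (N ⊓ ψ.ker : Subgroup G) ∨ Dix ψ.range := by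
  let χ : N →* P := ψ.comp N.subtype
  rcases h.hom χ with h1 | h1
  · left
    let j : χ.ker →* (N ⊓ ψ.ker : Subgroup G) :=
      { toFun := fun x => ⟨x.1.1, x.1.2, x.2⟩
        map_one' := rfl
        map_mul' := fun _ _ => rfl }
    refine h1.of_injective j fun x y hxy => Subtype.ext (Subtype.ext ?_)
    exact congrArg (fun z : (N ⊓ ψ.ker : Subgroup G) => (z : G)) hxy
  · right
    let j : χ.range →* ψ.range :=
      { toFun := fun x => ⟨x.1, by
          obtain ⟨y, hy⟩ := x.2
          exact ⟨y.1, hy⟩⟩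
        map_one' := rfl
        map_mul' := fun _ _ => rfl }
    refine h1.of_injective j fun x y hxy => Subtype.ext ?_
    exact congrArg (fun z : ψ.range => (z : P)) hxy

/-- a finite family of homomorphisms which separates points -/
theorem Dix.separating {G ι : Type*} {P : ι → Type*} [Group G] [∀ i, Group (P i)] (h : Dix G)
    (R : Finset ι) (ρ : ∀ i, G →* P i) (hR : ∀ g, (∀ i ∈ R, ρ i g = 1) → g = 1) :
    ∃ i ∈ R, Dix (ρ i).range := by
  classical
  by_contra hcon
  push Not at hcon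
  have key : ∀ S : Finset ι, S ⊆ R → ∃ N : Subgroup G, Dix N ∧ ∀ g ∈ N, ∀ i ∈ S, ρ i g = 1 := by
    intro S
    induction S using Finset.induction_on with
    | empty =>
      intro _
      refine ⟨⊤, h.of_injective (Subgroup.topEquiv (G := G)).symm.toMonoidHom
        (Subgroup.topEquiv (G := G)).symm.injective, fun g _ i hi => ?_⟩
      exact absurd hi (notMem_empty i)
    | insert a S ha ih =>
      intro hS
      obtain ⟨N, hN, hNS⟩ := ih ((subset_insert _ _).trans hS)
      rcases Dix.inf_ker N (ρ a) hN with h2 | h2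
      · refine ⟨N ⊓ (ρ a).ker, h2, fun g hg i hi => ?_⟩
        rcases mem_insert.1 hi with rfl | hi
        · exact hg.2
        · exact hNS g hg.1 i hi
      · exact absurd h2 (hcon a (hS (mem_insert_self _ _)))
  obtain ⟨N, ⟨n, f, s, B, hB, hf⟩, hN⟩ := key R subset_rfl
  have h1 : ∀ x : N, x = 1 := fun x => Subtype.ext (hR x.1 (hN x.1 x.2))
  have h3 := hf 1
  have h4 : ∑ i, (f i 1 - f i (s i * 1)) = 0 := by
    refine sum_eq_zero fun i _ => ?_
    rw [h1 (s i * 1), sub_self]
  linarith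

end Pool.Agent.H62.LP
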