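import Pool.Agent.H1.LP.ADJ
import Pool.Agent.H1.LP.HIT
import Pool.Agent.H1.LP.HT2
import Pool.Agent.H1.LP.SEL
import Pool.Agent.H11.LP.LOW
import Pool.Agent.H11.LP.MUS
import Pool.Agent.H11.LP.TRL
import Pool.Agent.H11.LP.UP2
import Pool.Agent.H1.LP.UHT
import Pool.Agent.H12.LP.GCL
import Pool.Agent.H12.LP.POT
import Pool.Agent.H13.LP.SEP
import Pool.Agent.H20.LP.EAS
import Pool.Agent.H20.LP.HLA
import Pool.Agent.H20.LP.LCR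
import Pool.Agent.H20.LP.SHL
import Pool.Agent.H23.LP.GSU
import Pool.Agent.H23.LP.MOM
import Pool.Agent.H32.LP.RD
import Pool.Agent.H32.LP.RLM
import Pool.Agent.H57.LP.BAS
import Pool.Agent.H57.LP.BIJ
import Pool.Agent.H57.LP.CS
import Pool.Agent.H57.LP.FMS
import Pool.Agent.H57.LP.IND
import Pool.Agent.H57.LP.LME
import Pool.Agent.H57.LP.MRG
import Pool.Agent.H57.LP.PRS
import Pool.Agent.H57.LP.SPH
import Pool.Agent.H60.LP.CNT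
import Pool.Agent.H60.LP.FAT
import Pool.Agent.H60.LP.GUP
import Pool.Agent.H60.LP.HLM
import Pool.Agent.H60.LP.LAP
import Pool.Agent.H60.LP.QAV
import Pool.Agent.H60.LP.SYM
import Pool.Agent.H60.LP.UH2
import Pool.Agent.H61.LP.GLU
import Pool.Agent.H67.LP.GBL
import Pool.Agent.H67.LP.LOC
import Pool.Agent.H67.LP.MGF
import Pool.Agent.H67.LP.TWO
import Pool.Agent.H67.LP.VOI
import Pool.Agent.H67.LP.Z01
import Pool.Agent.H69.LP.ADD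
import Pool.Agent.H69.LP.CUR
import Pool.Agent.H74.LP.GLO
import Pool.Agent.H86.LP.MK1
import Pool.Agent.H86.LP.MK2
import Pool.Agent.H86.LP.ROT
import Pool.Agent.H86.LP.RTL
import Pool.Agent.H86.LP.ESC
import Pool.Agent.H86.LP.BDC
import Pool.Agent.H86.LP.BDD
import Pool.Agent.H86.LP.BLK
import Pool.Agent.H86.LP.SMW
import Pool.Agent.H89.LP.FHT
import Pool.Agent.H89.LP.FIN
import Pool.Agent.H90.LP.SME
import Pool.Agent.H96.LP.STP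
import Pool.Agent.H32.LP.TCH
import Pool.Agent.H20.LP.LKP
import Pool.Agent.H20.LP.GBM
import Pool.Agent.H20.LP.MON
import Pool.Agent.H32.LP.GBP
import Pool.Agent.H1.LP.CSL
import Pool.Agent.H1.LP.OPN
import Pool.Agent.H1.LP.CLM
import Pool.Agent.H67.LP.TOT
import Pool.Agent.H86.LP.ITR
import Pool.Agent.H62.LP.T4

/-!
# Loop percolation in dimension three: assembly of the parts
-/

set_option autoImplicit false

namespace Pool.Agent.H62.LP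

/-! ## Walks -/

theorem t_MK1 : T_MK1 := Pool.Agent.H86.LP.pf_MK1
theorem t_MK2 : T_MK2 := Pool.Agent.H86.LP.pf_MK2
theorem t_FHT : T_FHT := Pool.Agent.H89.LP.pf_FHT
theorem t_HIT : T_HIT := Pool.Agent.H1.LP.pf_HIT t_FHT
theorem t_HT2 : T_HT2 := Pool.Agent.H1.LP.pf_HT2 t_HIT
theorem t_SYM : T_SYM := Pool.Agent.H60.LP.pf_SYM
theorem t_ROT : T_ROT := Pool.Agent.H86.LP.pf_ROT
theorem t_MOM : T_MOM := Pool.Agent.H23.LP.pf_MOM t_ROT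
theorem t_MUS : T_MUS := Pool.Agent.H11.LP.pf_MUS
theorem t_CS : T_CS := Pool.Agent.H57.LP.pf_CS

/-! ## Green function -/

theorem t_LAP : T_LAP := Pool.Agent.H60.LP.pf_LAP
theorem t_MAX : T_MAX := Pool.Agent.H60.LP.pf_MAX
theorem t_QAV : T_QAV := Pool.Agent.H60.LP.pf_QAV
theorem t_GTR : T_GTR := Pool.Agent.H60.LP.pf_GTR t_SYM
theorem t_CNT : T_CNT := Pool.Agent.H60.LP.pf_CNT
theorem t_GUP : T_GUP := Pool.Agent.H60.LP.pf_GUP t_LAP t_QAV t_GTR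
theorem t_GLO : T_GLO := Pool.Agent.H74.LP.pf_GLO t_LAP t_MAX t_QAV t_GUP t_GTR t_CNT
theorem t_GBL : T_GBL := Pool.Agent.H67.LP.pf_GBL t_GUP t_GLO t_HIT t_QAV t_GTR
theorem t_GSU : T_GSU := Pool.Agent.H23.LP.pf_GSU t_CNT t_GTR
theorem t_POT : T_POT := Pool.Agent.H12.LP.pf_POT t_MAX t_QAV t_GUP t_GTR

/-! ## Poisson processes -/

theorem t_ADD : T_ADD := Pool.Agent.H69.LP.pf_ADD
theorem t_MRG : T_MRG := Pool.Agent.H57.LP.pf_MRG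
theorem t_VOI : T_VOI := Pool.Agent.H67.LP.pf_VOI
theorem t_BIJ : T_BIJ := Pool.Agent.H57.LP.pf_BIJ
theorem t_Z01 : T_Z01 := Pool.Agent.H67.LP.pf_Z01
theorem t_IND : T_IND := Pool.Agent.H57.LP.pf_IND t_MRG
theorem t_FMS : T_FMS := Pool.Agent.H57.LP.pf_FMS
theorem t_SEL : T_SEL := Pool.Agent.H1.LP.pf_SEL
theorem t_PRS : T_PRS := Pool.Agent.H57.LP.pf_PRS
theorem t_CUR : T_CUR := Pool.Agent.H69.LP.pf_CUR t_ADD

/-! ## Moments of the loop measure -/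

theorem t_LOW : T_LOW := Pool.Agent.H11.LP.pf_LOW t_MOM t_MK1
theorem t_UP2 : T_UP2 := Pool.Agent.H11.LP.pf_UP2 t_MOM t_MK2
theorem t_UHT : T_UHT := Pool.Agent.H1.LP.pf_UHT t_MOM t_HIT t_QAV
theorem t_UH2 : T_UH2 := Pool.Agent.H60.LP.pf_UH2 t_MOM t_HIT t_HT2 t_QAV
theorem t_HLA : T_HLA := Pool.Agent.H20.LP.pf_HLA t_LOW t_UP2 t_UHT t_CS t_GSU t_CNT t_GTR
theorem t_HLF : T_HLF := Pool.Agent.H60.LP.pf_HLF t_POT
theorem t_HLM : T_HLM := Pool.Agent.H60.LP.pf_HLM t_HLA t_HLF t_UP2 t_UH2 t_CS t_GSU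
theorem t_TWO : T_TWO := Pool.Agent.H67.LP.pf_TWO t_LOW t_UP2 t_UH2 t_CS

/-! ## Large loops, translations -/

theorem t_RTL : T_RTL := Pool.Agent.H86.LP.pf_RTL t_ROT
theorem t_ESC : T_ESC := Pool.Agent.H86.LP.pf_ESC t_FHT t_QAV
theorem t_TRL : T_TRL := Pool.Agent.H11.LP.pf_TRL t_BIJ
theorem t_LOC : T_LOC :=
  Pool.Agent.H67.LP.pf_LOC t_GUP t_GBL t_MUS t_RTL t_ESC t_SYM t_QAV t_TRL
theorem t_ADJ : T_ADJ := Pool.Agent.H1.LP.pf_ADJ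
theorem t_SPH : T_SPH := Pool.Agent.H57.LP.pf_SPH

/-! ## The fat lemma and gluing -/

theorem t_FME : T_FME := Pool.Agent.H60.LP.pf_FME t_FMS
theorem t_BAS : T_BAS := Pool.Agent.H57.LP.pf_BAS t_MUS t_VOI t_SPH t_TRL t_GTR
theorem t_SMW : T_SMW := Pool.Agent.H86.LP.pf_SMW
theorem t_SME : T_SME := Pool.Agent.H90.LP.pf_SME
theorem t_STP : T_STP := Pool.Agent.H96.LP.pf_STP t_SMW t_SME t_MRG t_IND t_VOI t_SEL t_FME
  t_SPH t_TRL t_MUS t_GTR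
theorem t_FAT : T_FAT := Pool.Agent.H60.LP.pf_FAT t_BAS t_STP
theorem t_LME : T_LME := Pool.Agent.H57.LP.pf_LME t_FMS
theorem t_GLU : T_GLU := Pool.Agent.H61.LP.pf_GLU t_GUP t_GBL t_HLM t_FAT t_TWO t_ADD t_VOI
  t_LME t_TRL t_MUS t_GTR
theorem t_LCR : T_LCR := Pool.Agent.H20.LP.pf_LCR t_VOI t_PRS t_ADJ t_TRL t_IND t_FMS

/-! ## Merging, percolation of blocks -/

theorem t_SHL : T_SHL := Pool.Agent.H20.LP.pf_SHL
theorem t_RD1 : T_RD1 := Pool.Agent.H32.LP.pf_RD1 t_SHL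
theorem t_SEP : T_SEP := Pool.Agent.H13.LP.pf_SEP
theorem t_RD2 : T_RD2 := Pool.Agent.H32.LP.pf_RD2 t_SEP
theorem t_RLM : T_RLM := Pool.Agent.H32.LP.pf_RLM
theorem t_BDD : T_BDD := Pool.Agent.H86.LP.pf_BDD
theorem t_BDC : T_BDC := Pool.Agent.H86.LP.pf_BDC
theorem t_BLK : T_BLK := Pool.Agent.H86.LP.pf_BLK t_BDD t_BDC
theorem t_ITR : T_ITR := Pool.Agent.H86.LP.pf_ITR t_RD1 t_RD2 t_RLM
theorem t_MGF : T_MGF := Pool.Agent.H67.LP.pf_MGF t_ITR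

/-! ## Good blocks -/

theorem t_GCL : T_GCL := Pool.Agent.H12.LP.pf_GCL
theorem t_CSL : T_CSL := Pool.Agent.H1.LP.pf_CSL t_SEL
theorem t_TCH : T_TCH := Pool.Agent.H32.LP.pf_TCH
theorem t_LKP : T_LKP := Pool.Agent.H20.LP.pf_LKP t_IND t_LME
theorem t_GBM : T_GBM := Pool.Agent.H20.LP.pf_GBM t_LME t_RLM
theorem t_GBP : T_GBP := Pool.Agent.H32.LP.GBP.pf_GBP t_MGF t_LCR t_TCH t_LKP t_GBM
theorem t_TOT : T_TOT := Pool.Agent.H67.LP.pf_TOT t_CUR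
theorem t_OPN : T_OPN := Pool.Agent.H1.LP.pf_OPN t_PRS t_ADJ
theorem t_CLM : T_CLM := Pool.Agent.H1.LP.pf_CLM t_FMS
theorem t_MON : T_MON := Pool.Agent.H20.LP.pf_MON t_ADD t_CLM
theorem t_CZR : T_CZR := Pool.Agent.H20.LP.pf_CZR t_TRL t_CLM
theorem t_EAS : T_EAS := Pool.Agent.H20.LP.pf_EAS t_Z01 t_ADJ t_PRS t_CLM

end Pool.Agent.H62.LP
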