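import Mathlib

/-!
# A random code

For a finite set `α` with `k` elements, there are many words of length `n` over `α` such that for
all subsets `P₁, ..., Pₙ` of `α` with at most `K` elements only few words `w` satisfy `w i ∈ P i`
for at least `r` indices `i`.
-/

set_option autoImplicit false

open Finset

namespace Pool.Agent.H62.LP

section

variable {α : Type*} [Fintype α] [DecidableEq α] {n : ℕ}

/-- the words `w` with `w i ∈ P i` for at least `r` indices `i` -/
def Bad (r : ℕ) (P : Fin n → Finset α) : Finset (Fin n → α) :=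
  univ.filter fun w => r ≤ (univ.filter fun i => w i ∈ P i).card

lemma card_bad (r K : ℕ) (_ : r ≤ n) (P : Fin n → Finset α) (hP : ∀ i, (P i).card ≤ K) :
    (Bad r P).card ≤ 2 ^ n * (K ^ r * Fintype.card α ^ (n - r)) := by
  have h1 : Bad r P ⊆ (powersetCard r (univ : Finset (Fin n))).biUnion fun I =>
      Fintype.piFinset fun i => if i ∈ I then P i else univ := by
    intro w hw
    have hw' : r ≤ (univ.filter fun i => w i ∈ P i).card := (mem_filter.1 hw).2
    obtain ⟨I, hI, hIr⟩ := exists_subset_card_eq hw'
    rw [mem_biUnion]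
    refine ⟨I, ?_, ?_⟩
    · rw [mem_powersetCard]
      exact ⟨subset_univ _, hIr⟩
    · rw [Fintype.mem_piFinset]
      intro i
      split_ifs with hi
      · exact (mem_filter.1 (hI hi)).2
      · exact mem_univ _
  refine (card_le_card h1).trans (card_biUnion_le.trans ?_)
  have h2 : ∀ I ∈ powersetCard r (univ : Finset (Fin n)),
      (Fintype.piFinset fun i => if i ∈ I then P i else univ).card ≤
        K ^ r * Fintype.card α ^ (n - r) := by
    intro I hI
    rw [mem_powersetCard] at hI
    rw [Fintype.card_piFinset]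
    calc ∏ i, (if i ∈ I then P i else univ).card
        ≤ ∏ i, (if i ∈ I then K else Fintype.card α) := by
          refine prod_le_prod' fun i _ => ?_
          split_ifs
          · exact hP i
          · exact le_of_eq (card_univ)
      _ = K ^ r * Fintype.card α ^ (n - r) := by
          rw [prod_ite, prod_const, prod_const]
          have e1 : (univ.filter fun i => i ∈ I) = I := by
            ext i
            simp
          have e2 : (univ.filter fun i => i ∉ I) = Iᶜ := by
            ext i
            simp
          rw [e1, e2, hI.2, card_compl, hI.2, Fintype.card_fin]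
  refine (sum_le_sum h2).trans ?_
  rw [sum_const, smul_eq_mul, card_powersetCard, card_univ, Fintype.card_fin]
  exact Nat.mul_le_mul_right _ (Nat.choose_le_two_pow n r)

/-- the subset described by a sequence -/
def ofSeq {K : ℕ} (φ : Fin K → Option α) : Finset α := univ.filter fun a => ∃ l, φ l = some a

lemma exists_seq (K : ℕ) (T : Finset α) (hT : T.card ≤ K) :
    ∃ φ : Fin K → Option α, ofSeq φ = T := by
  classical
  have e := T.equivFin
  refine ⟨fun l => if h : (l : ℕ) < T.card then some (e.symm ⟨l, h⟩).1 else none, ?_⟩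
  ext a
  simp only [ofSeq, mem_filter, mem_univ, true_and]
  constructor
  · rintro ⟨l, hl⟩
    split_ifs at hl with h
    · rw [← Option.some.inj hl]
      exact (e.symm ⟨l, h⟩).2
  · intro ha
    have h1 : ((e ⟨a, ha⟩ : Fin T.card) : ℕ) < T.card := (e ⟨a, ha⟩).2
    refine ⟨⟨(e ⟨a, ha⟩ : Fin T.card), h1.trans_le hT⟩, ?_⟩
    rw [dif_pos h1]
    simp

/-- selection of one word in each block -/
lemma select (m b : ℕ) (e : Fin m × Fin b → (Fin n → α)) (he : Function.Injective e)
    (Q : Type*) [Fintype Q] (B : Q → Finset (Fin n → α)) (M : ℝ) (L : ℕ) (hb : 1 ≤ b)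
    (hB : ∀ q, ((B q).card : ℝ) ≤ M * b)
    (hL : (Fintype.card Q : ℝ) * Real.exp M < 2 ^ (L + 1)) :
    ∃ g : Fin m → Fin b, ∀ q, (univ.filter fun j => e (j, g j) ∈ B q).card ≤ L := by
  classical
  by_contra hcon
  push Not at hcon
  have hb0 : (0 : ℝ) < b := by exact_mod_cast hb
  -- the exponential moment
  have key : ∀ q, ((univ.filter fun g : Fin m → Fin b =>
      L < (univ.filter fun j => e (j, g j) ∈ B q).card).card : ℝ) * 2 ^ (L + 1) ≤
      (b : ℝ) ^ m * Real.exp M := by
    intro q
    have h1 : ∑ g : Fin m → Fin b, ∏ j, (if e (j, g j) ∈ B q then (2 : ℝ) else 1) =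
        ∏ j : Fin m, ∑ t : Fin b, (if e (j, t) ∈ B q then (2 : ℝ) else 1) := by
      rw [prod_univ_sum, Fintype.piFinset_univ]
    have h2 : ∀ j : Fin m, ∑ t : Fin b, (if e (j, t) ∈ B q then (2 : ℝ) else 1) ≤
        b * Real.exp (((univ.filter fun t => e (j, t) ∈ B q).card : ℝ) / b) := by
      intro j
      have h3 : ∑ t : Fin b, (if e (j, t) ∈ B q then (2 : ℝ) else 1) =
          b + (univ.filter fun t => e (j, t) ∈ B q).card := by
        have h4 : ∀ t : Fin b, (if e (j, t) ∈ B q then (2 : ℝ) else 1) =
            1 + (if e (j, t) ∈ B q then (1 : ℝ) else 0) := by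
          intro t
          split_ifs <;> norm_num
        rw [sum_congr rfl fun t _ => h4 t, sum_add_distrib, sum_boole]
        simp
      rw [h3]
      have h5 := Real.add_one_le_exp (((univ.filter fun t => e (j, t) ∈ B q).card : ℝ) / b)
      calc (b : ℝ) + (univ.filter fun t => e (j, t) ∈ B q).card
          = b * (((univ.filter fun t => e (j, t) ∈ B q).card : ℝ) / b + 1) := by
            field_simp
            ring
        _ ≤ _ := mul_le_mul_of_nonneg_left h5 hb0.le
    have h6 : ∑ j : Fin m, ((univ.filter fun t => e (j, t) ∈ B q).card : ℝ) ≤ M * b := by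
      refine le_trans ?_ (hB q)
      have h7 : ∑ j : Fin m, (univ.filter fun t => e (j, t) ∈ B q).card =
          (univ.filter fun x : Fin m × Fin b => e x ∈ B q).card := by
        rw [← card_sigma]
        refine card_bij (fun x _ => (x.1, x.2)) ?_ ?_ ?_
        · rintro ⟨j, t⟩ h
          simpa using h
        · rintro ⟨j, t⟩ _ ⟨j', t'⟩ _ h
          simp only [Prod.mk.injEq] at h
          obtain ⟨rfl, rfl⟩ := h
          rfl
        · rintro ⟨j, t⟩ h
          exact ⟨⟨j, t⟩, by simpa using h, rfl⟩
      have h8 : (univ.filter fun x : Fin m × Fin b => e x ∈ B q).card ≤ (B q).card :=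
        card_le_card_of_injOn e (fun x hx => (mem_filter.1 hx).2) (he.injOn)
      exact_mod_cast h7.le.trans h8
    have h9 : ∏ j : Fin m, ∑ t : Fin b, (if e (j, t) ∈ B q then (2 : ℝ) else 1) ≤
        (b : ℝ) ^ m * Real.exp M := by
      refine (prod_le_prod (fun j _ => sum_nonneg fun t _ => by positivity)
        fun j _ => h2 j).trans ?_
      rw [prod_mul_distrib, prod_const, card_univ, Fintype.card_fin, ← Real.exp_sum,
        ← sum_div]
      refine mul_le_mul_of_nonneg_left (Real.exp_le_exp.2 ?_) (by positivity)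
      rw [div_le_iff₀ hb0]
      exact h6
    refine le_trans ?_ (h1.le.trans h9)
    rw [← nsmul_eq_mul]
    refine (card_nsmul_le_sum _ _ _ fun g hg => ?_).trans
      (sum_le_sum_of_subset_of_nonneg (subset_univ _) fun g _ _ => prod_nonneg fun j _ => by
        positivity)
    have hg' := (mem_filter.1 hg).2
    rw [prod_ite, prod_const, prod_const_one, mul_one]
    exact pow_le_pow_right₀ (by norm_num) hg'
  -- the union bound
  have h1 : (univ : Finset (Fin m → Fin b)) ⊆ univ.biUnion fun q : Q =>
      univ.filter fun g : Fin m → Fin b =>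
        L < (univ.filter fun j => e (j, g j) ∈ B q).card := by
    intro g _
    obtain ⟨q, hq⟩ := hcon g
    rw [mem_biUnion]
    exact ⟨q, mem_univ _, mem_filter.2 ⟨mem_univ _, hq⟩⟩
  have h2 : ((b : ℝ) ^ m) ≤ ∑ q : Q, ((univ.filter fun g : Fin m → Fin b =>
      L < (univ.filter fun j => e (j, g j) ∈ B q).card).card : ℝ) := by
    have h3 := (card_le_card h1).trans card_biUnion_le
    rw [card_univ, Fintype.card_fun, Fintype.card_fin, Fintype.card_fin] at h3
    exact_mod_cast h3
  have h4 : ((b : ℝ) ^ m) * 2 ^ (L + 1) ≤ (Fintype.card Q : ℝ) * ((b : ℝ) ^ m * Real.exp M) := by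
    calc ((b : ℝ) ^ m) * 2 ^ (L + 1) ≤ (∑ q : Q, ((univ.filter fun g : Fin m → Fin b =>
          L < (univ.filter fun j => e (j, g j) ∈ B q).card).card : ℝ)) * 2 ^ (L + 1) :=
          mul_le_mul_of_nonneg_right h2 (by positivity)
      _ ≤ _ := by
          rw [sum_mul]
          refine (sum_le_sum fun q _ => key q).trans ?_
          rw [sum_const, card_univ, nsmul_eq_mul]
  have h5 : (0 : ℝ) < (b : ℝ) ^ m := by positivity
  have h6 : ((b : ℝ) ^ m) * 2 ^ (L + 1) ≤ ((b : ℝ) ^ m) *
      ((Fintype.card Q : ℝ) * Real.exp M) := by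
    refine h4.trans (le_of_eq ?_)
    ring
  exact absurd (le_of_mul_le_mul_left h6 h5) (not_le.2 hL)

end

end Pool.Agent.H62.LP
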