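import Pool.Agent.H62.LP.Stmt

/-!
# Loop percolation in dimension three: auxiliary definitions
-/

set_option autoImplicit false

open MeasureTheory ProbabilityTheory Filter Topology
open scoped ENNReal NNReal

namespace Pool.Agent.H62.LP

/-- The end point of the walk `x, l`. -/
def en {V : Type} : V → List V → V
  | x, [] => x
  | _, y :: l => en y l

@[simp] lemma en_nil {V : Type} (x : V) : en x [] = x := rfl
@[simp] lemma en_cons {V : Type} (x y : V) (l : List V) : en x (y :: l) = en y l := rfl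
@[simp] lemma wt_nil {V : Type} (q : V → V → ℝ≥0∞) (x : V) : wt q x [] = 1 := rfl
@[simp] lemma wt_cons {V : Type} (q : V → V → ℝ≥0∞) (x y : V) (l : List V) :
    wt q x (y :: l) = q x y * wt q y l := rfl

lemma en_append {V : Type} (x : V) (s t : List V) : en x (s ++ t) = en (en x s) t := by
  induction s generalizing x with
  | nil => rfl
  | cons y s ih => exact ih y

lemma wt_append {V : Type} (q : V → V → ℝ≥0∞) (x : V) (s t : List V) :
    wt q x (s ++ t) = wt q x s * wt q (en x s) t := by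
  induction s generalizing x with
  | nil => simp
  | cons y s ih => simp [ih, mul_assoc]

/-- The weight of all walks of length at least one from `x` to `y`. -/
noncomputable def Hk {V : Type} (q : V → V → ℝ≥0∞) (x y : V) : ℝ≥0∞ :=
  ∑' t : List V, wt q x (t ++ [y])

open Classical in
/-- The Green function of the kernel `q`. -/
noncomputable def Gk {V : Type} (q : V → V → ℝ≥0∞) (x y : V) : ℝ≥0∞ :=
  (if x = y then 1 else 0) + Hk q x y

/-- The sum of `f` over the vertices of a walk. -/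
noncomputable def vis {V : Type} (f : V → ℝ≥0∞) (l : List V) : ℝ≥0∞ := (l.map f).sum

/-- The sum of `g` over the pairs of vertices of a walk. -/
noncomputable def vis2 {V : Type} (g : V → V → ℝ≥0∞) (l : List V) : ℝ≥0∞ :=
  (l.map (fun b => (l.map (g b)).sum)).sum

/-- The cubic lattice. -/
abbrev V3 := Vt 3

open Classical in
/-- The simple random walk killed when it leaves `B`. -/
noncomputable def QB (B : Set V3) (x y : V3) : ℝ≥0∞ := if y ∈ B then Q x y else 0

/-- Balls of the sup norm. -/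
def Bl (z : V3) (r : ℕ) : Set V3 := {x | nm (x - z) ≤ r}

/-- The Green function of the cubic lattice. -/
noncomputable abbrev Gr (x y : V3) : ℝ≥0∞ := Gk Q x y

/-- The mean of `f` over the six neighbours of `x`. -/
noncomputable def avg (f : V3 → ℝ) (x : V3) : ℝ :=
  (∑ i : Fin 3, (f (x + Pi.single i 1) + f (x - Pi.single i 1))) / 6

/-- The function `(K + |x|²)^(-1/2)`. -/
noncomputable def ff (K : ℝ) (x : V3) : ℝ := 1 / Real.sqrt (K + ∑ i, (x i : ℝ) ^ 2)

/-- The centre `(8 s n, 0, 0)`. -/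
def cen (s : ℤ) (n : ℕ) : V3 := Pi.single 0 (8 * s * n)

/-- The region of side `2n + 1` with centre `(8 s n, 0, 0)`. -/
def Rg (s : ℤ) (n : ℕ) : Set V3 := {x | nm (x - cen s n) ≤ n}

/-- The mass of a function. -/
noncomputable def mass (e : V3 → ℝ≥0∞) : ℝ≥0∞ := ∑' x, e x

/-- The mutual energy. -/
noncomputable def erg (e f : V3 → ℝ≥0∞) : ℝ≥0∞ := ∑' x, ∑' y, e x * f y * Gr x y

/-- The potential. -/
noncomputable def pot (e : V3 → ℝ≥0∞) (x : V3) : ℝ≥0∞ := ∑' y, Gr x y * e y

/-- The function `w` shows that `A` is fat at scale `n`: it lives on `A`, its mass is `κ n` and its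
potential is at most one. -/
def FatW (κ : ℝ≥0) (n : ℕ) (A : Set V3) (w : V3 → ℝ≥0∞) : Prop :=
  (∀ x, x ∉ A → w x = 0) ∧ mass w = κ * n ∧ ∀ x, pot w x ≤ 1

/-- `A` is fat at scale `n`. -/
def Fat (κ : ℝ≥0) (n : ℕ) (A : Set V3) : Prop := ∃ w, FatW κ n A w

/-- Loops. -/
abbrev Lp := Cycle V3

/-- The loops that are present. -/
def sp {Λ : Type} (N : Λ → ℕ) : Set Λ := {c | 1 ≤ N c}

/-- `x` and `y` are joined by a chain of loops of `S`. -/
def Conn (S : Set Lp) (x y : V3) : Prop :=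
  Relation.ReflTransGen (fun u v => ∃ c ∈ S, u ∈ c ∧ v ∈ c) x y

/-- The loops of `S` inside the ball with centre `z` and radius `r`. -/
def Ins (z : V3) (r : ℕ) (S : Set Lp) : Set Lp := {c | c ∈ S ∧ ∀ x ∈ c, nm (x - z) ≤ r}

/-- Connected sets of vertices. -/
def IsConn (K : Set V3) : Prop :=
  ∀ x ∈ K, ∀ y ∈ K, Relation.ReflTransGen (fun u v => u ∈ K ∧ v ∈ K ∧ Adj u v) x y

/-- `K₁` and `K₂` are joined by loops of `S` inside the ball `B(z, r)`. -/
def Lk (z : V3) (r : ℕ) (K₁ K₂ : Set V3) (S : Set Lp) : Prop :=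
  ∃ x ∈ K₁, ∃ y ∈ K₂, Conn (Ins z r S) x y

/-- The loop `c` is inside `B(z, M n)`, it is fat near `z` at scale `n` in the direction `s` and it is
joined to `K` by loops of `S` inside this ball. -/
def FatAt (M : ℕ) (κ : ℝ≥0) (s : ℤ) (z : V3) (n : ℕ) (K : Set V3) (S : Set Lp) (c : Lp) : Prop :=
  c ∈ Ins z (M * n) S ∧ Fat κ n {x | x ∈ c ∧ x - z ∈ Rg s n} ∧
    ∃ x ∈ K, ∃ y ∈ c, Conn (Ins z (M * n) S) x y

/-- Some loop is fat and joined to `K`. -/
def FatEv (M : ℕ) (κ : ℝ≥0) (s : ℤ) (z : V3) (n : ℕ) (K : Set V3) (S : Set Lp) : Prop :=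
  ∃ c, FatAt M κ s z n K S c

/-- The fattening property at scale `n` with probability `a`. -/
def FB (ε : ℝ≥0) (M : ℕ) (κ : ℝ≥0) (a : ℝ) (n : ℕ) : Prop :=
  ∀ s : ℤ, (s = 1 ∨ s = -1) → ∀ (K : Set V3) (z : V3), IsConn K → z ∈ K →
    (∃ y ∈ K, n ≤ nm (y - z)) →
    ENNReal.ofReal a ≤ soup 3 ε {N | FatEv M κ s z n K (sp N)}

end Pool.Agent.H62.LP
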