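import Pool.Agent.H62.LP.Hall
import Pool.Agent.H62.LP.Main

/-!
# The Littlewood exponent of a direct product: upper bound
-/

set_option autoImplicit false

open scoped ENNReal

open Finset Filter

namespace Pool.Agent.H62.LP

/-- weighted form of the density of finite subgraphs -/
def LB (Γ : Type*) [Group Γ] (p : ℝ) : Prop :=
  ∃ c : ℝ, 0 < c ∧ ∀ (A : Finset Γ) (w : Γ → ℝ), (∀ a ∈ A, 0 ≤ w a) → A.Nonempty →
    ∃ X Y : Finset Γ, 0 < X.card + Y.card ∧
      c * (∑ a ∈ A, w a) * (A.card : ℝ) ^ (1 / p - 1) * ((X.card : ℝ) + Y.card) ≤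
        ∑ a ∈ A, w a * nE X Y a

/-- a level set which carries a large part of the mass -/
lemma level {α : Type*} (A : Finset α) (w : α → ℝ) (hw : ∀ a ∈ A, 0 ≤ w a)
    (hW : 0 < ∑ a ∈ A, w a) : ∃ (A' : Finset α) (h : ℝ), A' ⊆ A ∧ A'.Nonempty ∧ 0 < h ∧
      (∀ a ∈ A', h ≤ w a) ∧ ∑ a ∈ A, w a ≤ 4 * (Nat.clog 2 (2 * A.card)) * (h * A'.card) := by
  classical
  set W := ∑ a ∈ A, w a with hWdef
  set n := A.card with hn
  set J := Nat.clog 2 (2 * n) with hJ
  have hn0 : 0 < n := by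
    rw [hn, card_pos]
    by_contra h0
    rw [not_nonempty_iff_eq_empty] at h0
    rw [hWdef, h0, sum_empty] at hW
    exact lt_irrefl _ hW
  have hJ1 : 1 ≤ J := Nat.clog_pos one_lt_two (by omega)
  have h2J : 2 * n ≤ 2 ^ J := Nat.le_pow_clog one_lt_two _
  have h2J' : 2 * (n : ℝ) ≤ 2 ^ J := by exact_mod_cast h2J
  have hJr : (0 : ℝ) < J := by exact_mod_cast hJ1
  -- the small values
  set B := A.filter fun a => W * (1 / 2) ^ J < w a with hB
  have h1 : W / 2 ≤ ∑ a ∈ B, w a := by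
    have h2 : ∑ a ∈ A.filter (fun a => ¬ W * (1 / 2) ^ J < w a), w a ≤ W / 2 := by
      refine (sum_le_card_nsmul _ _ (W * (1 / 2) ^ J) fun a ha =>
        not_lt.1 (mem_filter.1 ha).2).trans ?_
      rw [nsmul_eq_mul]
      have h3 : ((A.filter (fun a => ¬ W * (1 / 2) ^ J < w a)).card : ℝ) ≤ n := by
        exact_mod_cast card_filter_le _ _
      have h4 : (n : ℝ) * (1 / 2) ^ J ≤ 1 / 2 := by
        rw [one_div_pow, mul_one_div, div_le_iff₀ (by positivity)]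
        linarith
      calc ((A.filter (fun a => ¬ W * (1 / 2) ^ J < w a)).card : ℝ) * (W * (1 / 2) ^ J)
          ≤ n * (W * (1 / 2) ^ J) := by gcongr
        _ = W * (n * (1 / 2) ^ J) := by ring
        _ ≤ W * (1 / 2) := by gcongr
        _ = W / 2 := by ring
    have h5 := sum_filter_add_sum_filter_not A (fun a => W * (1 / 2) ^ J < w a) w
    rw [← hB] at h5
    linarith
  -- the levels
  have h6 : ∀ a ∈ B, ∃ j : ℕ, j < J ∧ W * (1 / 2) ^ (j + 1) < w a ∧ w a ≤ W * (1 / 2) ^ j := by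
    intro a ha
    obtain ⟨haA, hlt⟩ := mem_filter.1 ha
    have h7 : w a ≤ W := single_le_sum hw haA
    have h8 : 0 < w a := lt_trans (by positivity) hlt
    obtain ⟨j, hj1, hj2⟩ := exists_nat_pow_near_of_lt_one (div_pos h8 hW)
      ((div_le_one hW).2 h7) (show (0 : ℝ) < 1 / 2 by norm_num) (by norm_num)
    rw [lt_div_iff₀ hW] at hj1
    rw [div_le_iff₀ hW] at hj2
    refine ⟨j, ?_, by linarith, by linarith⟩
    by_contra hge
    have h9 : ((1 : ℝ) / 2) ^ j ≤ (1 / 2) ^ J :=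
      pow_le_pow_of_le_one (by norm_num) (by norm_num) (by omega)
    have h10 : W * ((1 : ℝ) / 2) ^ j ≤ W * (1 / 2) ^ J := by gcongr
    linarith
  choose! τ hτ1 hτ2 hτ3 using h6
  have h7 : ∃ j ∈ range J, (W / 2) / J ≤ ∑ a ∈ B.filter (fun a => τ a = j), w a := by
    by_contra hcon
    push Not at hcon
    have h8 : ∑ j ∈ range J, ∑ a ∈ B.filter (fun a => τ a = j), w a <
        ∑ _j ∈ range J, (W / 2) / J :=
      sum_lt_sum_of_nonempty (by rw [nonempty_range_iff]; omega) hcon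
    rw [sum_fiberwise_of_maps_to (fun a ha => mem_range.2 (hτ1 a ha)), sum_const, card_range,
      nsmul_eq_mul, mul_div_cancel₀ _ hJr.ne'] at h8
    linarith
  obtain ⟨j, _, hj⟩ := h7
  set A' := B.filter (fun a => τ a = j) with hA'
  have h9 : ∑ a ∈ A', w a ≤ A'.card * (W * (1 / 2) ^ j) := by
    rw [← nsmul_eq_mul]
    refine sum_le_card_nsmul _ _ _ fun a ha => ?_
    obtain ⟨h10, h11⟩ := mem_filter.1 ha
    rw [← h11]
    exact hτ3 a h10
  have h10 : 0 < ∑ a ∈ A', w a := lt_of_lt_of_le (by positivity) hj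
  refine ⟨A', W * (1 / 2) ^ (j + 1), ?_, ?_, by positivity, ?_, ?_⟩
  · exact (filter_subset _ _).trans (filter_subset _ _)
  · by_contra h0
    rw [not_nonempty_iff_eq_empty] at h0
    rw [h0, sum_empty] at h10
    exact lt_irrefl _ h10
  · intro a ha
    obtain ⟨h12, h11⟩ := mem_filter.1 ha
    rw [← h11]
    exact (hτ2 a h12).le
  · have h12 := hj.trans h9
    rw [div_le_iff₀ hJr] at h12
    rw [pow_succ]
    nlinarith

lemma clog_bound (ε : ℝ) (hε : 0 < ε) :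
    ∃ C : ℝ, 0 < C ∧ ∀ n : ℕ, 1 ≤ n → ((Nat.clog 2 (2 * n) : ℕ) : ℝ) ≤ C * (n : ℝ) ^ ε := by
  refine ⟨2 / ε + 3, by positivity, fun n hn => ?_⟩
  have hn' : (1 : ℝ) ≤ n := by exact_mod_cast hn
  have h1 : (1 : ℝ) ≤ (n : ℝ) ^ ε := Real.one_le_rpow hn' hε.le
  have h2 : Real.log n ≤ (n : ℝ) ^ ε / ε := Real.log_le_rpow_div (by linarith) hε
  have h3 : (Nat.clog 2 (2 * n)) ≤ Nat.log 2 (2 * n) + 1 := by
    have := Nat.clog_le_of_le_pow (b := 2) (x := 2 * n) (y := Nat.log 2 (2 * n) + 1)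
      (Nat.lt_pow_succ_log_self one_lt_two _).le
    exact this
  have h4 : ((Nat.log 2 (2 * n) : ℕ) : ℝ) ≤ Real.log (2 * n) / Real.log 2 := by
    rw [le_div_iff₀ (Real.log_pos one_lt_two), ← Real.log_pow]
    refine Real.log_le_log (by positivity) ?_
    exact_mod_cast Nat.pow_log_le_self 2 (by omega)
  have h5 : Real.log (2 * n) = Real.log 2 + Real.log n :=
    Real.log_mul (by norm_num) (by linarith)
  have h6 : (1 : ℝ) / 2 < Real.log 2 := by
    have := Real.log_two_gt_d9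
    linarith
  have h7 : Real.log n / Real.log 2 ≤ 2 * Real.log n := by
    have h8 : 0 ≤ Real.log n := Real.log_nonneg hn'
    rw [div_le_iff₀ (by linarith)]
    nlinarith
  rw [h5, add_div, div_self (by linarith)] at h4
  have h9 : ((Nat.clog 2 (2 * n) : ℕ) : ℝ) ≤ (Nat.log 2 (2 * n) : ℕ) + 1 := by exact_mod_cast h3
  calc ((Nat.clog 2 (2 * n) : ℕ) : ℝ) ≤ 2 + 2 * ((n : ℝ) ^ ε / ε) := by linarith
    _ ≤ 3 * (n : ℝ) ^ ε + 2 / ε * (n : ℝ) ^ ε := by
        have : 2 * ((n : ℝ) ^ ε / ε) = 2 / ε * (n : ℝ) ^ ε := by ring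
        linarith
    _ = _ := by ring

theorem lb_of_lit_lt {Γ : Type*} [Group Γ] (p : ℝ) (hp : 1 < p)
    (h : Lit Γ < ENNReal.ofReal p) : LB Γ p := by
  classical
  -- an exponent between
  obtain ⟨x, hx1, hx2⟩ := exists_between (max_lt h (show (1 : ℝ≥0∞) < ENNReal.ofReal p by
    rw [← ENNReal.ofReal_one]; exact ENNReal.ofReal_lt_ofReal_iff_of_nonneg zero_le_one |>.2 hp))
  have hxt : x ≠ ∞ := (hx2.trans ENNReal.ofReal_lt_top).ne
  set p' := x.toReal with hp'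
  have hxp : ENNReal.ofReal p' = x := ENNReal.ofReal_toReal hxt
  have hp'1 : 1 < p' := by
    have h1 := (le_max_right _ _).trans_lt hx1
    rw [← hxp, ← ENNReal.ofReal_one, ENNReal.ofReal_lt_ofReal_iff_of_nonneg zero_le_one] at h1
    exact h1
  have hp'p : p' < p := by
    rw [← hxp, ENNReal.ofReal_lt_ofReal_iff (by linarith)] at hx2
    exact hx2
  have hlit : Lit Γ < ENNReal.ofReal p' := by
    rw [hxp]
    exact (le_max_left _ _).trans_lt hx1
  obtain ⟨c, hc, hD⟩ := dense_of_lit_lt p' (by linarith) hlit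
  have hε : 0 < 1 / p' - 1 / p := by
    rw [sub_pos]
    exact one_div_lt_one_div_of_lt (by linarith) hp'p
  obtain ⟨C, hC, hCb⟩ := clog_bound _ hε
  refine ⟨c / (4 * C), by positivity, fun A w hw hA => ?_⟩
  have hW0 : 0 ≤ ∑ a ∈ A, w a := sum_nonneg hw
  rcases hW0.eq_or_lt with hW | hW
  · refine ⟨{1}, ∅, by simp, ?_⟩
    rw [← hW]
    simp only [mul_zero, zero_mul]
    exact sum_nonneg fun a ha => mul_nonneg (hw a ha) (Nat.cast_nonneg _)
  obtain ⟨A', t, hA'A, hA'n, ht, htw, hWt⟩ := level A w hw hW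
  obtain ⟨X, Y, hXY, hXYb⟩ := hD A' hA'n
  refine ⟨X, Y, hXY, ?_⟩
  have hnA : 1 ≤ A.card := card_pos.2 hA
  have hnA' : 1 ≤ A'.card := card_pos.2 hA'n
  have hnr : (1 : ℝ) ≤ A.card := by exact_mod_cast hnA
  have hnr' : (1 : ℝ) ≤ A'.card := by exact_mod_cast hnA'
  have hXYr : (0 : ℝ) < (X.card : ℝ) + Y.card := by exact_mod_cast hXY
  have h1 : t * ∑ s ∈ A', (nE X Y s : ℝ) ≤ ∑ a ∈ A, w a * nE X Y a := by
    rw [mul_sum]
    refine (sum_le_sum fun a ha => ?_).trans (sum_le_sum_of_subset_of_nonneg hA'A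
      fun a ha _ => mul_nonneg (hw a ha) (Nat.cast_nonneg _))
    exact mul_le_mul_of_nonneg_right (htw a ha) (Nat.cast_nonneg _)
  refine le_trans ?_ h1
  refine le_trans ?_ (mul_le_mul_of_nonneg_left hXYb ht.le)
  -- the powers
  have h2 : (A.card : ℝ) ^ (1 / p' - 1) ≤ (A'.card : ℝ) ^ (1 / p' - 1) := by
    refine Real.rpow_le_rpow_of_nonpos (by linarith) (by exact_mod_cast card_le_card hA'A) ?_
    have : 1 / p' < 1 := by
      rw [div_lt_one (by linarith)]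
      exact hp'1
    linarith
  have h3 : (A.card : ℝ) ^ (1 / p - 1) * (A.card : ℝ) ^ (1 / p' - 1 / p) =
      (A.card : ℝ) ^ (1 / p' - 1) := by
    rw [← Real.rpow_add (by linarith)]
    congr 1
    ring
  have h4 : (A'.card : ℝ) * (A'.card : ℝ) ^ (1 / p' - 1) = (A'.card : ℝ) ^ (1 / p') := by
    conv_lhs => rw [← Real.rpow_one_add' (by linarith) (by
      have : 0 < 1 / p' := by positivity
      linarith)]
    congr 1
    ring
  have h5 : ∑ a ∈ A, w a ≤ 4 * (C * (A.card : ℝ) ^ (1 / p' - 1 / p)) * (t * A'.card) := by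
    refine hWt.trans ?_
    gcongr
    exact hCb _ hnA
  have h6 : (∑ a ∈ A, w a) * (A.card : ℝ) ^ (1 / p - 1) ≤
      4 * C * (t * (A'.card : ℝ) ^ (1 / p')) := by
    calc (∑ a ∈ A, w a) * (A.card : ℝ) ^ (1 / p - 1)
        ≤ (4 * (C * (A.card : ℝ) ^ (1 / p' - 1 / p)) * (t * A'.card)) *
          (A.card : ℝ) ^ (1 / p - 1) := by gcongr
      _ = 4 * C * (t * A'.card) * ((A.card : ℝ) ^ (1 / p - 1) *
          (A.card : ℝ) ^ (1 / p' - 1 / p)) := by ring
      _ = 4 * C * (t * A'.card) * (A.card : ℝ) ^ (1 / p' - 1) := by rw [h3]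
      _ ≤ 4 * C * (t * A'.card) * (A'.card : ℝ) ^ (1 / p' - 1) := by gcongr
      _ = 4 * C * (t * ((A'.card : ℝ) * (A'.card : ℝ) ^ (1 / p' - 1))) := by ring
      _ = _ := by rw [h4]
  calc c / (4 * C) * (∑ a ∈ A, w a) * (A.card : ℝ) ^ (1 / p - 1) * ((X.card : ℝ) + Y.card)
      = c / (4 * C) * ((∑ a ∈ A, w a) * (A.card : ℝ) ^ (1 / p - 1)) *
        ((X.card : ℝ) + Y.card) := by ring
    _ ≤ c / (4 * C) * (4 * C * (t * (A'.card : ℝ) ^ (1 / p'))) * ((X.card : ℝ) + Y.card) := by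
        gcongr
    _ = t * (c * (A'.card : ℝ) ^ (1 / p') * ((X.card : ℝ) + Y.card)) := by
        field_simp

end Pool.Agent.H62.LP
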