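import Pool.Agent.H62.LP.Prod

/-!
# The Littlewood exponents of the direct powers of a nonamenable group leave no large gaps
-/

set_option autoImplicit false

open scoped ENNReal

open Finset Filter

namespace Pool.Agent.H62.LP

/-- one more factor -/
theorem lit_succ_lt {Γ Λ G : Type*} [Group Γ] [Group Λ] [Group G] (e : G ≃* Γ × Λ)
    {a b : ℝ≥0∞} (ha : 1 ≤ a) (h1 : 1 < Lit Γ) (hab : 1 - (Lit Γ)⁻¹ < a⁻¹ - b⁻¹)
    (hΛ : Lit Λ ≤ a) : Lit G < b := by
  -- real numbers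
  have hat : a⁻¹ ≠ ∞ := by
    rw [ENNReal.inv_ne_top]
    exact (zero_lt_one.trans_le ha).ne'
  have hLt : (Lit Γ)⁻¹ ≠ ∞ := by
    rw [ENNReal.inv_ne_top]
    exact (zero_lt_one.trans h1).ne'
  have hb : b⁻¹ < a⁻¹ := by
    by_contra h
    rw [tsub_eq_zero_of_le (not_lt.1 h)] at hab
    exact not_lt_zero hab
  have hbt : b⁻¹ ≠ ∞ := (hb.trans_le le_top).ne
  have ha1 : a⁻¹ ≤ 1 := ENNReal.inv_le_one.2 ha
  have hL1 : (Lit Γ)⁻¹ ≤ 1 := ENNReal.inv_le_one.2 h1.le
  set x := (Lit Γ)⁻¹.toReal with hx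
  set y := a⁻¹.toReal with hy
  set z := b⁻¹.toReal with hz
  have hx1 : x ≤ 1 := by
    have := ENNReal.toReal_mono ENNReal.one_ne_top hL1
    rwa [ENNReal.toReal_one] at this
  have hy1 : y ≤ 1 := by
    have := ENNReal.toReal_mono ENNReal.one_ne_top ha1
    rwa [ENNReal.toReal_one] at this
  have hz0 : 0 ≤ z := ENNReal.toReal_nonneg
  have hgap : z < x + y - 1 := by
    have h2 := (ENNReal.toReal_lt_toReal (ENNReal.sub_ne_top ENNReal.one_ne_top)
      (ENNReal.sub_ne_top hat)).2 hab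
    rw [ENNReal.toReal_sub_of_le hL1 ENNReal.one_ne_top, ENNReal.toReal_sub_of_le hb.le hat,
      ENNReal.toReal_one] at h2
    linarith
  have hx0 : 0 < x := by linarith
  have hy0 : 0 < y := by linarith
  -- slightly larger exponents
  set δ := (x + y - 1 - z) / 4 with hδ
  have hδ0 : 0 < δ := by linarith
  have haux : ∀ u : ℝ, 0 < u → u ≤ 1 → u - δ ≤ 1 / (1 / u + δ) := by
    intro u hu0 hu1
    rw [le_div_iff₀ (by positivity)]
    have h3 : (u - δ) * (1 / u + δ) = 1 - δ * (1 / u - u) - δ ^ 2 := by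
      field_simp
      ring
    rw [h3]
    have h4 : u ≤ 1 / u := by
      rw [le_div_iff₀ hu0]
      nlinarith
    nlinarith [sq_nonneg δ]
  have hinv : ∀ (u : ℝ≥0∞) , u⁻¹ ≠ ∞ → 0 < u⁻¹.toReal → u < ENNReal.ofReal (1 / u⁻¹.toReal + δ) := by
    intro u hu1 hu0
    have hut : u ≠ ∞ := by
      rintro rfl
      simp at hu0
    have h5 : 1 / u⁻¹.toReal = u.toReal := by
      rw [ENNReal.toReal_inv, one_div, inv_inv]
    rw [h5, ENNReal.lt_ofReal_iff_toReal_lt hut]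
    linarith
  have hp : 1 < 1 / x + δ := by
    have : 1 ≤ 1 / x := by
      rw [le_div_iff₀ hx0]
      linarith
    linarith
  have hq : 1 < 1 / y + δ := by
    have : 1 ≤ 1 / y := by
      rw [le_div_iff₀ hy0]
      linarith
    linarith
  have hs : z + δ < 1 / (1 / x + δ) + 1 / (1 / y + δ) - 1 := by
    have h6 := haux x hx0 hx1
    have h7 := haux y hy0 hy1
    linarith
  have hfin := lit_prod_le e (1 / x + δ) (1 / y + δ) hp hq (hinv _ hLt hx0)
    (hΛ.trans_lt (hinv _ hat hy0)) (by linarith)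
  refine hfin.trans_lt ?_
  set s := 1 / (1 / x + δ) + 1 / (1 / y + δ) - 1 with hsdef
  rw [← inv_inv b, ENNReal.lt_inv_iff_lt_inv]
  have hs0 : 0 < s := by linarith
  rw [one_div, ENNReal.ofReal_inv_of_pos hs0, inv_inv, ENNReal.lt_ofReal_iff_toReal_lt hbt]
  linarith

/-- the exponents of the powers are unbounded -/
theorem exists_power_gt {Γ : Type*} [Group Γ] (h1 : 1 < Lit Γ) (a : ℝ≥0∞) (ha : a ≠ ∞) :
    ∃ n : ℕ, a < Lit (Fin (n + 1) → Γ) := by
  have h2 : 0 < Lit Γ - 1 := tsub_pos_of_lt h1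
  obtain ⟨m, hm⟩ := ENNReal.exists_nat_mul_gt h2.ne' ha
  refine ⟨2 * m, ?_⟩
  have h3 := main (Γ := Γ) (G := Fin (2 * m + 1) → Γ) (2 * m + 1) ⊤
    (Subgroup.topEquiv (G := Fin (2 * m + 1) → Γ)).toMonoidHom (fun y => ⟨⟨y, trivial⟩, rfl⟩)
  have h4 : (2 * m + 1 + 1) / 2 = m + 1 := by omega
  rw [h4] at h3
  refine lt_of_lt_of_le hm (le_trans ?_ (h3.trans tsub_le_self))
  gcongr
  exact Nat.le_succ m

/-- The powers of a group with exponent larger than `1` leave no large gaps. -/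
theorem fill {Γ : Type*} [Group Γ] {a b : ℝ≥0∞} (ha : 1 ≤ a) (h1 : 1 < Lit Γ)
    (hab : 1 - (Lit Γ)⁻¹ < a⁻¹ - b⁻¹) :
    ∃ n : ℕ, a < Lit (Fin n → Γ) ∧ Lit (Fin n → Γ) < b := by
  classical
  have hat : a ≠ ∞ := by
    rintro rfl
    simp at hab
  have hex := exists_power_gt h1 a hat
  set n := Nat.find hex with hn
  have hn1 : a < Lit (Fin (n + 1) → Γ) := Nat.find_spec hex
  refine ⟨n + 1, hn1, ?_⟩
  rcases Nat.eq_zero_or_pos n with h0 | h0
  · -- the group itself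
    rw [h0] at hn1 ⊢
    have h2 := main (Γ := Fin (0 + 1) → Γ) (G := Γ) 1 ⊤
      { toFun := fun x _ _ => (x : Γ)
        map_one' := rfl
        map_mul' := fun _ _ => rfl } (by
          intro y
          refine ⟨⟨y 0 0, trivial⟩, ?_⟩
          funext i j
          have hi : i = 0 := Fin.ext (by omega)
          have hj : j = 0 := Fin.ext (by omega)
          rw [hi, hj]
          rfl)
    have h3 : (((1 + 1) / 2 : ℕ) : ℝ≥0∞) = 1 := by norm_num
    rw [h3, one_mul] at h2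
    have h4 : Lit (Fin (0 + 1) → Γ) ≤ Lit Γ := by
      have h5 : 1 ≤ Lit (Fin (0 + 1) → Γ) := ha.trans hn1.le
      calc Lit (Fin (0 + 1) → Γ) = (Lit (Fin (0 + 1) → Γ) - 1) + 1 :=
            (tsub_add_cancel_of_le h5).symm
        _ ≤ (Lit Γ - 1) + 1 := by gcongr
        _ = Lit Γ := tsub_add_cancel_of_le h1.le
    refine h4.trans_lt ?_
    have hLt : (Lit Γ)⁻¹ ≤ 1 := ENNReal.inv_le_one.2 h1.le
    have ha1 : a⁻¹ ≤ 1 := ENNReal.inv_le_one.2 ha
    have h6 : 1 - (Lit Γ)⁻¹ < 1 - b⁻¹ := hab.trans_le (tsub_le_tsub_right ha1 _)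
    have h7 : b⁻¹ < (Lit Γ)⁻¹ := by
      by_contra hcon
      exact absurd (tsub_le_tsub_left (not_lt.1 hcon) 1) (not_le.2 h6)
    exact ENNReal.inv_lt_inv.1 h7
  · have h2 : ¬ a < Lit (Fin (n - 1 + 1) → Γ) := Nat.find_min hex (by omega)
    rw [Nat.sub_add_cancel h0] at h2
    let e : (Fin (n + 1) → Γ) ≃* Γ × (Fin n → Γ) :=
      { toFun := fun x => (x 0, fun i => x i.succ)
        invFun := fun x => Fin.cons x.1 x.2
        left_inv := fun x => by
          funext i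
          refine Fin.cases rfl (fun i => rfl) i
        right_inv := fun x => rfl
        map_mul' := fun x y => rfl }
    exact lit_succ_lt e ha h1 hab (not_lt.1 h2)

end Pool.Agent.H62.LP
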