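import Pool.Agent.H62.LP.Asm
import Pool.Agent.H32.LP.GBI
import Pool.Agent.H96.LP.FSC

/-!
# Loop percolation in dimension three: end of the proof
-/

set_option autoImplicit false

namespace Pool.Agent.H62.LP

theorem t_GBI : T_GBI := Pool.Agent.H32.LP.GBI.pf_GBI t_CUR t_IND t_GBM
theorem t_FSC : T_FSC := Pool.Agent.H96.LP.pf_FSC t_LOC t_GLU t_BLK t_CSL t_GBM t_GBP t_GBI t_GCL
  t_TOT t_OPN t_CLM t_CZR
theorem t_FIN : T_FIN := Pool.Agent.H89.LP.pf_FIN t_EAS t_FSC t_MON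

end Pool.Agent.H62.LP
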