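import Pool.Agent.H62.LP.Word
import Pool.Agent.H62.LP.Dens
import Pool.Agent.H62.LP.Amen

/-!
# Nonamenable groups have Littlewood exponent larger than 1
-/

set_option autoImplicit false

open scoped ENNReal

open Finset

namespace Pool.Agent.H62.LP

/-- from a Dixmier system to a system as in `Word` -/
lemma system {Γ X : Type*} [Group Γ] [MulAction Γ X] [Nonempty X] {n : ℕ} (f : Fin n → X → ℝ)
    (s : Fin n → Γ) (B : ℝ) (hB : ∀ i u, |f i u| ≤ B)
    (hf : ∀ u, 1 ≤ ∑ i, (f i u - f i (s i • u))) :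
    ∃ (σ : Option (Fin n) → Γ) (F : Option (Fin n) → X → ℝ) (B' : ℝ), 1 ≤ B' ∧ 1 ≤ n ∧
      (∀ i z, |F i z| ≤ B') ∧ (∀ z, 1 / 2 ≤ ∑ i, F i ((σ i)⁻¹ • z)) ∧
      ∀ z, ∑ i, F i z ≤ -(1 / 2) := by
  have hn : 1 ≤ n := by
    by_contra h0
    have h1 : n = 0 := by omega
    subst h1
    have h2 := hf (Classical.arbitrary X)
    rw [univ_eq_empty, sum_empty] at h2
    linarith
  have hnr : (1 : ℝ) ≤ n := by exact_mod_cast hn
  have hB0 : 0 ≤ B := (abs_nonneg _).trans (hB ⟨0, hn⟩ (Classical.arbitrary X))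
  set a₀ : ℝ := 1 / (2 * (n + 1)) with ha₀
  have ha₀' : ((n : ℝ) + 1) * a₀ = 1 / 2 := by
    rw [ha₀]
    field_simp
  have ha₀0 : 0 < a₀ := by positivity
  have ha₀1 : a₀ ≤ 1 := by nlinarith
  refine ⟨fun i => i.elim 1 fun i => (s i)⁻¹, fun i => i.elim (fun x => ∑ j, f j x - a₀)
    fun i x => -(f i x) - a₀, n * B + 1, by nlinarith, hn, fun i z => ?_, fun z => ?_,
    fun z => ?_⟩
  · cases i with
    | none =>
      simp only [Option.elim]
      have h1 : |∑ j, f j z| ≤ n * B := by
        refine (abs_sum_le_sum_abs _ _).trans ((sum_le_card_nsmul _ _ B fun j _ => hB j z).trans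
          (le_of_eq (by rw [card_univ, Fintype.card_fin, nsmul_eq_mul])))
      rw [abs_le] at h1 ⊢
      constructor <;> linarith
    | some i =>
      simp only [Option.elim]
      have h1 := hB i z
      have h2 : B ≤ n * B := by nlinarith
      rw [abs_le] at h1 ⊢
      constructor <;> linarith
  · rw [Fintype.sum_option]
    simp only [Option.elim, inv_one, one_smul, inv_inv]
    have h1 := hf z
    rw [sum_sub_distrib] at h1
    rw [sum_sub_distrib, sum_neg_distrib, sum_const, card_univ, Fintype.card_fin, nsmul_eq_mul]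
    linarith
  · rw [Fintype.sum_option]
    simp only [Option.elim]
    rw [sum_sub_distrib, sum_neg_distrib, sum_const, card_univ, Fintype.card_fin, nsmul_eq_mul]
    linarith

open Classical in
theorem gap_of_system {Γ X ι : Type*} [Group Γ] [MulAction Γ X] [Fintype ι] (σ : ι → Γ)
    (F : ι → X → ℝ) (B : ℝ) (hB : 1 ≤ B) (hk : 2 ≤ Fintype.card ι) (hF : ∀ i z, |F i z| ≤ B)
    (hf : ∀ z, 1 / 2 ≤ ∑ i, F i ((σ i)⁻¹ • z)) (hb : ∀ z, ∑ i, F i z ≤ -(1 / 2)) (z₀ : X) :
    1 < Lit Γ := by
  set k := Fintype.card ι with hkdef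
  have hkr : (2 : ℝ) ≤ k := by exact_mod_cast hk
  have hB0 : 0 < B := by linarith
  set c : ℝ := 1 / (32 * (k : ℝ) ^ 2 * B ^ 2) with hc
  have hc0 : 0 < c := by positivity
  have hc1 : c ≤ 1 := by
    rw [hc, div_le_one (by positivity)]
    have h5 : (1 : ℝ) ≤ (k : ℝ) ^ 2 := by nlinarith
    have h6 : (1 : ℝ) ≤ B ^ 2 := by nlinarith
    nlinarith
  set q : ℝ := 1 + c / (2 * k) with hq
  have hq1 : 1 < q := by
    have : 0 < c / (2 * k) := by positivity
    linarith
  have hq2 : q - 1 ≤ 1 := by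
    rw [hq, add_sub_cancel_left, div_le_one (by positivity)]
    linarith
  suffices h : ENNReal.ofReal q ≤ Lit Γ by
    refine lt_of_lt_of_le ?_ h
    rw [← ENNReal.ofReal_one]
    exact (ENNReal.ofReal_lt_ofReal_iff (by linarith)).2 hq1
  refine le_lit q (by linarith) fun M => ?_
  obtain ⟨N₀, hN₀⟩ := exists_nat_ge (128 * |M| * (k + 1) / c ^ 2)
  set N := N₀ + 1 with hN
  have hN1 : (1 : ℝ) ≤ N := by
    rw [hN]
    push_cast
    have : (0 : ℝ) ≤ N₀ := Nat.cast_nonneg _
    linarith
  have hNE : 16 * |M| * (k * N + 1) ≤ Real.exp (c / 2 * N) := by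
    have h1 : 128 * |M| * (k + 1) / c ^ 2 ≤ N := by
      refine hN₀.trans ?_
      rw [hN]
      push_cast
      linarith
    rw [div_le_iff₀ (by positivity)] at h1
    have h2 := Real.quadratic_le_exp_of_nonneg (show 0 ≤ c / 2 * N by positivity)
    have h3 : (c / 2 * N) ^ 2 / 2 ≤ Real.exp (c / 2 * N) := by
      have : 0 ≤ c / 2 * N := by positivity
      linarith
    refine le_trans ?_ h3
    have h4 : 16 * |M| * (k * N + 1) ≤ 16 * |M| * ((k + 1) * N) := by
      gcongr
      nlinarith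
    refine h4.trans ?_
    have h5 : 128 * |M| * (k + 1) * N ≤ N * c ^ 2 * N :=
      mul_le_mul_of_nonneg_right h1 (by positivity)
    have h6 : (c / 2 * N) ^ 2 / 2 = N * c ^ 2 * N / 8 := by ring
    rw [h6, le_div_iff₀ (by norm_num)]
    refine le_trans (le_of_eq ?_) h5
    ring
  set K : ℝ := (k : ℝ) ^ N * Real.exp (-(c * N)) with hK
  have hK0 : 0 < K := by positivity
  -- the two counts
  have hfw : ∀ z : X, ((univ.filter fun l : Fin N → ι => Wo σ F N z l ≤ 0).card : ℝ) ≤ K := by
    intro z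
    refine le_trans ?_ (count_fwd σ F B hB (by omega) hF hf N z)
    have h1 : (0 : ℝ) ≤ N / (8 * (k : ℝ)) := by positivity
    refine Nat.cast_le.2 (card_le_card fun l hl => mem_filter.2 ⟨mem_univ _, ?_⟩)
    have h2 := (mem_filter.1 hl).2
    first
      | exact h2.trans h1
      | linarith
  have hbw : ∀ y : X, ((univ.filter fun l : Fin N → ι =>
      0 < Wo σ F N (gw σ N l • y) l).card : ℝ) ≤ K := by
    intro y
    refine le_trans ?_ (count_bwd σ F B hB (by omega) hF hb N y)
    have h1 : (0 : ℝ) ≤ N / (8 * (k : ℝ)) := by positivity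
    refine Nat.cast_le.2 (card_le_card fun l hl => mem_filter.2 ⟨mem_univ _, ?_⟩)
    have h2 := (mem_filter.1 hl).2
    linarith
  -- the multiplicity
  set T : Finset Γ := univ.image (gw σ N) with hT
  set m : Γ → ℕ := fun g => (univ.filter fun l : Fin N → ι => gw σ N l = g).card with hm
  have hsum : ∑ g ∈ T, m g = k ^ N := by
    have h1 := card_eq_sum_card_fiberwise (f := gw σ N) (s := (univ : Finset (Fin N → ι)))
      (t := T) fun l _ => mem_coe.2 (mem_image_of_mem _ (mem_univ l))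
    rw [card_univ, Fintype.card_fun, Fintype.card_fin, ← hkdef] at h1
    exact h1.symm
  have hm1 : ∀ g ∈ T, 1 ≤ m g := by
    intro g hg
    obtain ⟨l, _, hl⟩ := mem_image.1 hg
    exact card_pos.2 ⟨l, mem_filter.2 ⟨mem_univ _, hl⟩⟩
  have hTk : T.card ≤ k ^ N := by
    refine card_image_le.trans (le_of_eq ?_)
    rw [card_univ, Fintype.card_fun, Fintype.card_fin]
  have hsumr : ∑ g ∈ T, (m g : ℝ) = (k : ℝ) ^ N := by exact_mod_cast hsum
  obtain ⟨A, h₀, hAT, hAn, hh₀, hAh, hWA⟩ := level T (fun g => (m g : ℝ))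
    (fun g _ => Nat.cast_nonneg _) (by rw [hsumr]; positivity)
  rw [hsumr] at hWA
  set h : ℝ := max h₀ 1 with hh
  have hh1 : 1 ≤ h := le_max_right _ _
  have hAh' : ∀ g ∈ A, h ≤ m g := fun g hg => max_le (hAh g hg) (by exact_mod_cast hm1 g (hAT hg))
  have hWA' : (k : ℝ) ^ N ≤ 4 * (Nat.clog 2 (2 * T.card) : ℕ) * (h * A.card) := by
    refine hWA.trans ?_
    gcongr
    exact le_max_left _ _
  -- the split of the multiplicity
  have hsplit : ∀ (x g : Γ), (m g : ℝ) ≤
      (univ.filter fun l : Fin N → ι => gw σ N l = g ∧ Wo σ F N (x⁻¹ • z₀) l ≤ 0).card +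
      (univ.filter fun l : Fin N → ι => gw σ N l = g ∧
        0 < Wo σ F N (gw σ N l • ((x * g)⁻¹ • z₀)) l).card := by
    intro x g
    have h1 : (univ.filter fun l : Fin N → ι => gw σ N l = g) ⊆
        (univ.filter fun l : Fin N → ι => gw σ N l = g ∧ Wo σ F N (x⁻¹ • z₀) l ≤ 0) ∪
        (univ.filter fun l : Fin N → ι => gw σ N l = g ∧
          0 < Wo σ F N (gw σ N l • ((x * g)⁻¹ • z₀)) l) := by
      intro l hl
      have h2 := (mem_filter.1 hl).2
      rcases le_or_gt (Wo σ F N (x⁻¹ • z₀) l) 0 with h3 | h3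
      · exact mem_union_left _ (mem_filter.2 ⟨mem_univ _, h2, h3⟩)
      · refine mem_union_right _ (mem_filter.2 ⟨mem_univ _, h2, ?_⟩)
        rw [h2, mul_inv_rev, mul_smul, smul_inv_smul]
        exact h3
    exact_mod_cast (card_le_card h1).trans (card_union_le _ _)
  have hcount : ∀ (S : Finset Γ) (p : (Fin N → ι) → Prop), (∀ g ∈ S, (h : ℝ) ≤ m g) →
      (∀ g ∈ S, (m g : ℝ) ≤ 2 * (univ.filter fun l : Fin N → ι => gw σ N l = g ∧ p l).card) →
      ((univ.filter p).card : ℝ) ≤ K → (S.card : ℝ) ≤ 2 * K / h := by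
    intro S p hS1 hS2 hp
    rw [le_div_iff₀ (by linarith)]
    calc (S.card : ℝ) * h ≤ ∑ g ∈ S, (m g : ℝ) := by
          rw [← nsmul_eq_mul]
          exact card_nsmul_le_sum _ _ _ hS1
      _ ≤ ∑ g ∈ S, 2 * ((univ.filter fun l : Fin N → ι => gw σ N l = g ∧ p l).card : ℝ) :=
          sum_le_sum hS2
      _ = 2 * ∑ g ∈ S, ((univ.filter fun l : Fin N → ι => gw σ N l = g ∧ p l).card : ℝ) := by
          rw [mul_sum]
      _ ≤ 2 * ((univ.filter p).card : ℝ) := by
          refine mul_le_mul_of_nonneg_left ?_ (by norm_num)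
          have h1 : ∑ g ∈ S, (univ.filter fun l : Fin N → ι => gw σ N l = g ∧ p l).card ≤
              (univ.filter p).card := by
            rw [← card_biUnion]
            · refine card_le_card fun l hl => ?_
              obtain ⟨g, _, hg⟩ := mem_biUnion.1 hl
              exact mem_filter.2 ⟨mem_univ _, (mem_filter.1 hg).2.2⟩
            · intro g _ g' _ hgg
              rw [Function.onFun, disjoint_left]
              intro l hl hl'
              exact hgg ((mem_filter.1 hl).2.1.symm.trans (mem_filter.1 hl').2.1)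
          exact_mod_cast h1
      _ ≤ 2 * K := by linarith
  set L : ℕ := ⌊2 * K / h⌋₊ with hL
  have hh0 : 0 < h := by linarith
  have hratio : 1 ≤ 2 * K / h := by
    obtain ⟨g, hg⟩ := hAn
    rw [le_div_iff₀ hh0, one_mul]
    refine (hAh' g hg).trans ((hsplit 1 g).trans ?_)
    have h1 : ((univ.filter fun l : Fin N → ι => gw σ N l = g ∧
        Wo σ F N ((1 : Γ)⁻¹ • z₀) l ≤ 0).card : ℝ) ≤ K := by
      refine le_trans ?_ (hfw ((1 : Γ)⁻¹ • z₀))
      exact Nat.cast_le.2 (card_le_card fun l hl =>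
        mem_filter.2 ⟨mem_univ _, (mem_filter.1 hl).2.2⟩)
    have h2 : ((univ.filter fun l : Fin N → ι => gw σ N l = g ∧
        0 < Wo σ F N (gw σ N l • ((1 * g)⁻¹ • z₀)) l).card : ℝ) ≤ K := by
      refine le_trans ?_ (hbw ((1 * g)⁻¹ • z₀))
      exact Nat.cast_le.2 (card_le_card fun l hl =>
        mem_filter.2 ⟨mem_univ _, (mem_filter.1 hl).2.2⟩)
    linarith
  have hL1 : 1 ≤ L := (Nat.one_le_floor_iff _).2 hratio
  have hLle : (L : ℝ) ≤ 2 * K / h := Nat.floor_le (by positivity)
  have hori : Ori L A := by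
    refine ⟨fun x => A.filter fun g => (m g : ℝ) ≤ 2 * (univ.filter fun l : Fin N → ι =>
        gw σ N l = g ∧ Wo σ F N (x⁻¹ • z₀) l ≤ 0).card,
      fun y => A.filter fun g => (m g : ℝ) ≤ 2 * (univ.filter fun l : Fin N → ι =>
        gw σ N l = g ∧ 0 < Wo σ F N (gw σ N l • (y⁻¹ • z₀)) l).card,
      fun x => ?_, fun y => ?_, fun x g hg => ?_⟩
    · exact Nat.le_floor (hcount _ _ (fun g hg => hAh' g (mem_filter.1 hg).1)
        (fun g hg => (mem_filter.1 hg).2) (hfw _))
    · exact Nat.le_floor (hcount _ _ (fun g hg => hAh' g (mem_filter.1 hg).1)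
        (fun g hg => (mem_filter.1 hg).2) (hbw _))
    · have h1 := hsplit x g
      by_contra hcon
      rw [not_or, mem_filter, mem_filter, not_and, not_and] at hcon
      have h2 := hcon.1 hg
      have h3 := hcon.2 hg
      push Not at h2 h3
      linarith
  refine ⟨L, A, hL1, hori, ?_⟩
  have hLr : (0 : ℝ) < L := by exact_mod_cast hL1
  -- the number of levels
  have hJ : ((Nat.clog 2 (2 * T.card) : ℕ) : ℝ) ≤ k * N + 1 := by
    have h1 : 2 * T.card ≤ 2 ^ (k * N + 1) := by
      rw [pow_succ, mul_comm, pow_mul]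
      refine Nat.mul_le_mul_right 2 (hTk.trans (Nat.pow_le_pow_left ?_ N))
      exact Nat.lt_two_pow_self.le
    have h2 := Nat.clog_le_of_le_pow h1
    exact_mod_cast h2
  have hexp1 : Real.exp (c * N) * K = (k : ℝ) ^ N := by
    rw [hK, mul_left_comm, ← Real.exp_add, add_neg_cancel, Real.exp_zero, mul_one]
  -- the size of `A`
  have hA1 : L * Real.exp (c * N) ≤ 8 * (k * N + 1) * A.card := by
    have h1 : (k : ℝ) ^ N ≤ 4 * (k * N + 1) * (h * A.card) := hWA'.trans (by gcongr)
    calc L * Real.exp (c * N) ≤ 2 * K / h * Real.exp (c * N) := by gcongr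
      _ = 2 * (k : ℝ) ^ N / h := by
          rw [← hexp1]
          ring
      _ ≤ 2 * (4 * (k * N + 1) * (h * A.card)) / h := by gcongr
      _ = 8 * (k * N + 1) * A.card := by
          field_simp
          ring
  -- the size of `L`
  have hLq : (L : ℝ) ^ (q - 1) ≤ 2 * Real.exp (c / 2 * N) := by
    have h1 : (L : ℝ) ≤ 2 * (k : ℝ) ^ N := by
      refine hLle.trans ?_
      rw [div_le_iff₀ hh0]
      have h2 : K ≤ (k : ℝ) ^ N := by
        rw [hK]
        refine mul_le_of_le_one_right (by positivity) (Real.exp_le_one_iff.2 ?_)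
        have : 0 ≤ c * N := by positivity
        linarith
      have h3 : (0 : ℝ) < (k : ℝ) ^ N := by positivity
      nlinarith
    calc (L : ℝ) ^ (q - 1) ≤ (2 * (k : ℝ) ^ N) ^ (q - 1) :=
          Real.rpow_le_rpow hLr.le h1 (by linarith)
      _ = 2 ^ (q - 1) * ((k : ℝ) ^ N) ^ (q - 1) := Real.mul_rpow (by norm_num) (by positivity)
      _ ≤ 2 * Real.exp (c / 2 * N) := by
          gcongr
          · calc (2 : ℝ) ^ (q - 1) ≤ 2 ^ (1 : ℝ) :=
                Real.rpow_le_rpow_of_exponent_le (by norm_num) hq2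
              _ = 2 := Real.rpow_one 2
          · rw [← Real.rpow_natCast, ← Real.rpow_mul (by positivity),
              Real.rpow_def_of_pos (by linarith)]
            refine Real.exp_le_exp.2 ?_
            have h2 : Real.log k ≤ k := (Real.log_le_sub_one_of_pos (by linarith)).trans
              (by linarith)
            calc Real.log k * (N * (q - 1)) ≤ k * (N * (q - 1)) := by
                  gcongr
              _ = c / 2 * N := by
                  rw [hq]
                  field_simp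
                  ring
  have hfin : M * (L : ℝ) ^ q * (8 * (k * N + 1)) ≤ A.card * (8 * (k * N + 1)) := by
    calc M * (L : ℝ) ^ q * (8 * (k * N + 1)) ≤ |M| * (L : ℝ) ^ q * (8 * (k * N + 1)) := by
          gcongr
          exact le_abs_self M
      _ = |M| * (8 * (k * N + 1)) * L * (L : ℝ) ^ (q - 1) := by
          have : (L : ℝ) ^ q = L * (L : ℝ) ^ (q - 1) := by
            conv_lhs => rw [show q = 1 + (q - 1) by ring]
            rw [Real.rpow_add hLr, Real.rpow_one]
          rw [this]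
          ring
      _ ≤ |M| * (8 * (k * N + 1)) * L * (2 * Real.exp (c / 2 * N)) := by gcongr
      _ = (16 * |M| * (k * N + 1)) * L * Real.exp (c / 2 * N) := by ring
      _ ≤ Real.exp (c / 2 * N) * L * Real.exp (c / 2 * N) := by gcongr
      _ = L * Real.exp (c * N) := by
          rw [mul_comm (Real.exp _) (L : ℝ), mul_assoc, ← Real.exp_add]
          congr 2
          ring
      _ ≤ 8 * (k * N + 1) * A.card := hA1
      _ = _ := by ring
  exact le_of_mul_le_mul_right hfin (by positivity)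

/-- Nonamenable groups have Littlewood exponent larger than `1`. -/
theorem one_lt_lit {Γ : Type*} [Group Γ] (h : Dix Γ) : 1 < Lit Γ := by
  obtain ⟨n, f, s, B, hB, hf⟩ := h
  obtain ⟨σ, F, B', hB', hn, hF, hfw, hbw⟩ := system (X := Γ) f s B hB hf
  exact gap_of_system σ F B' hB' (by rw [Fintype.card_option, Fintype.card_fin]; omega) hF hfw hbw
    (1 : Γ)

end Pool.Agent.H62.LP
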