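import Pool.Agent.H62.LP.NetLit

/-!
# Invariant measures for Lipschitz actions
-/

set_option autoImplicit false

open scoped ENNReal NNReal BoundedContinuousFunction CompactlySupported

open Finset MeasureTheory

namespace Pool.Agent.H62.LP

/-- Either there is an invariant probability measure, or there is an obstruction. -/
theorem exists_invariant {Γ X : Type*} [Group Γ] [MetricSpace X] [CompactSpace X] [Nonempty X]
    [MeasurableSpace X] [BorelSpace X] [MulAction Γ X]
    (hc : ∀ g : Γ, Continuous fun x : X => g • x)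
    (h : ∀ (n : ℕ) (f : Fin n → C(X, ℝ)) (s : Fin n → Γ) (δ : ℝ), 0 < δ →
      ∃ x, ∑ i, (f i x - f i (s i • x)) < δ) :
    ∃ μ : Measure X, IsProbabilityMeasure μ ∧ ∀ g : Γ, μ.map (fun x => g • x) = μ := by
  let T : Γ → C(X, ℝ) → C(X, ℝ) := fun g f => f.comp ⟨fun x => g • x, hc g⟩
  let D : Submodule ℝ C(X, ℝ) := Submodule.span ℝ {d | ∃ (g : Γ) (f : C(X, ℝ)), d = f - T g f}
  let p : C(X, ℝ) → ℝ := fun f => ⨆ x, f x
  have hbdd : ∀ f : C(X, ℝ), BddAbove (Set.range fun x => f x) := fun f =>
    (isCompact_range f.continuous).bddAbove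
  have hle : ∀ (f : C(X, ℝ)) (x : X), f x ≤ p f := fun f x => le_ciSup (hbdd f) x
  have hp1 : ∀ c : ℝ, 0 < c → ∀ f, p (c • f) = c * p f := by
    intro c hc0 f
    simp only [p]
    rw [Real.mul_iSup_of_nonneg hc0.le]
    rfl
  have hp2 : ∀ f g, p (f + g) ≤ p f + p g := by
    intro f g
    refine ciSup_le fun x => ?_
    exact add_le_add (hle f x) (hle g x)
  have hD : ∀ d ∈ D, 0 ≤ p d := by
    intro d hd
    obtain ⟨n, c, v, hv⟩ := Submodule.mem_span_set'.1 hd
    by_contra hneg
    push Not at hneg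
    choose g f hgf using fun i => (v i).2
    obtain ⟨x, hx⟩ := h n (fun i => -(c i • f i)) g (-(p d)) (by linarith)
    have h1 : ∑ i, ((-(c i • f i)) x - (-(c i • f i)) (g i • x)) = -(d x) := by
      rw [← hv, ContinuousMap.sum_apply, ← sum_neg_distrib]
      refine sum_congr rfl fun i _ => ?_
      rw [hgf i]
      simp only [T, ContinuousMap.neg_apply, ContinuousMap.smul_apply, ContinuousMap.sub_apply,
        ContinuousMap.comp_apply, ContinuousMap.coe_mk, smul_eq_mul]
      ring
    rw [h1] at hx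
    have := hle d x
    linarith
  obtain ⟨φ, hφ0, hφp⟩ := exists_extension_of_le_sublinear (⟨D, 0⟩ : C(X, ℝ) →ₗ.[ℝ] ℝ) p hp1 hp2
    (fun d => hD d.1 d.2)
  have hφ0' : ∀ d ∈ D, φ d = 0 := fun d hd => hφ0 ⟨d, hd⟩
  have hpos : ∀ f : C(X, ℝ), (∀ x, 0 ≤ f x) → 0 ≤ φ f := by
    intro f hf
    have h1 := hφp (-f)
    have h2 : p (-f) ≤ 0 := ciSup_le fun x => by
      rw [ContinuousMap.neg_apply]
      linarith [hf x]
    rw [map_neg] at h1
    linarith
  have hone : φ 1 = 1 := by
    have h1 := hφp 1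
    have h2 : p 1 = 1 := by
      simp only [p, ContinuousMap.one_apply]
      exact ciSup_const
    have h3 := hφp (-1)
    have h4 : p (-1) = -1 := by
      simp only [p, ContinuousMap.neg_apply, ContinuousMap.one_apply]
      exact ciSup_const
    rw [map_neg] at h3
    linarith
  have hinv : ∀ (g : Γ) (f : C(X, ℝ)), φ (T g f) = φ f := by
    intro g f
    have h1 := hφ0' (f - T g f) (Submodule.subset_span ⟨g, f, rfl⟩)
    rw [map_sub] at h1
    linarith
  let Λ : C_c(X, ℝ) →ₚ[ℝ] ℝ :=
    { toFun := fun f => φ f.toContinuousMap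
      map_add' := fun f g => map_add φ _ _
      map_smul' := fun c f => map_smul φ c _
      monotone' := fun f g hfg => by
        have h1 := hpos (g.toContinuousMap - f.toContinuousMap) fun x => by
          rw [ContinuousMap.sub_apply]
          have := hfg x
          exact sub_nonneg.2 this
        rw [map_sub] at h1
        exact sub_nonneg.1 h1 }
  let μ := RealRMK.rieszMeasure Λ
  have hμ : ∀ f : C(X, ℝ), ∫ x, f x ∂μ = φ f := fun f =>
    RealRMK.integral_rieszMeasure Λ ⟨f, HasCompactSupport.of_compactSpace _⟩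
  haveI : IsFiniteMeasure μ := by
    simp only [μ]
    infer_instance
  refine ⟨μ, ⟨?_⟩, fun g => ?_⟩
  · have h1 := hμ 1
    rw [hone] at h1
    simp only [ContinuousMap.one_apply, integral_const, smul_eq_mul, mul_one] at h1
    rw [Measure.real, ENNReal.toReal_eq_one_iff] at h1
    exact h1
  · haveI : IsFiniteMeasure (μ.map fun x => g • x) := Measure.isFiniteMeasure_map μ _
    refine ext_of_forall_integral_eq_of_IsFiniteMeasure fun f => ?_
    rw [integral_map (hc g).measurable.aemeasurable
      f.continuous.stronglyMeasurable.aestronglyMeasurable]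
    have h1 := hμ (T g f.toContinuousMap)
    rw [hinv, ← hμ f.toContinuousMap] at h1
    exact h1

/-- approximation by Lipschitz functions -/
lemma exists_lipschitz {X : Type*} [MetricSpace X] [CompactSpace X] [Nonempty X] (f : C(X, ℝ))
    (η : ℝ) (hη : 0 < η) : ∃ (K : ℝ) (g : X → ℝ), 0 ≤ K ∧
      (∀ x y, |g x - g y| ≤ K * dist x y) ∧ ∀ x, |g x - f x| ≤ η := by
  obtain ⟨C, hC⟩ : ∃ C, ∀ x, |f x| ≤ C := by
    refine ⟨‖f‖, fun x => ?_⟩
    exact f.norm_coe_le_norm x
  have hC0 : 0 ≤ C := (abs_nonneg _).trans (hC (Classical.arbitrary X))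
  have huc : UniformContinuous f := CompactSpace.uniformContinuous_of_continuous f.continuous
  obtain ⟨ρ, hρ, hfρ⟩ := Metric.uniformContinuous_iff.1 huc η hη
  set K : ℝ := 2 * C / ρ with hK
  have hK0 : 0 ≤ K := by positivity
  have hbdd : ∀ x, BddBelow (Set.range fun y => f y + K * dist x y) := by
    intro x
    refine ⟨-C, ?_⟩
    rintro _ ⟨y, rfl⟩
    have h1 := (abs_le.1 (hC y)).1
    have h2 : 0 ≤ K * dist x y := by positivity
    change -C ≤ f y + K * dist x y
    linarith
  have hlip : ∀ x y, (⨅ z, (f z + K * dist x z)) - (⨅ z, (f z + K * dist y z)) ≤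
      K * dist x y := by
    intro x y
    rw [sub_le_iff_le_add, add_comm, ← sub_le_iff_le_add]
    refine le_ciInf fun z => ?_
    have h1 := ciInf_le (hbdd x) z
    have h2 : K * dist x z ≤ K * (dist x y + dist y z) :=
      mul_le_mul_of_nonneg_left (dist_triangle _ _ _) hK0
    linarith
  refine ⟨K, fun x => ⨅ z, (f z + K * dist x z), hK0, fun x y => ?_, fun x => ?_⟩
  · rw [abs_le]
    constructor
    · have h1 := hlip y x
      rw [dist_comm] at h1
      linarith
    · exact hlip x y
  · rw [abs_le]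
    constructor
    · have h1 : f x - η ≤ ⨅ z, (f z + K * dist x z) := by
        refine le_ciInf fun z => ?_
        rcases lt_or_ge (dist x z) ρ with h2 | h2
        · have h3 := hfρ h2
          rw [Real.dist_eq] at h3
          have h4 := (abs_lt.1 h3).2
          have h5 : 0 ≤ K * dist x z := by positivity
          linarith
        · have h3 : 2 * C ≤ K * dist x z := by
            rw [hK, div_mul_eq_mul_div, le_div_iff₀ hρ]
            exact mul_le_mul_of_nonneg_left h2 (by linarith)
          have h4 := (abs_le.1 (hC x)).2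
          have h5 := (abs_le.1 (hC z)).1
          linarith
      linarith
    · have h1 := ciInf_le (hbdd x) x
      simp only [dist_self, mul_zero, add_zero] at h1
      linarith

/-- A group with finite Littlewood exponent has an invariant probability measure in every action by
Lipschitz maps on a compact metric space of lower metric order zero. -/
theorem inv_main {Γ X : Type*} [Group Γ] [MetricSpace X] [CompactSpace X] [Nonempty X]
    [MeasurableSpace X] [BorelSpace X] [MulAction Γ X] (hΓ : Lit Γ < ∞)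
    (hLip : ∀ g : Γ, ∃ K : ℝ, ∀ x y : X, dist (g • x) (g • y) ≤ K * dist x y)
    (hdim : ∀ a : ℝ, 0 < a → ∀ δ : ℝ, 0 < δ → ∃ ε : ℝ, 0 < ε ∧ ε < δ ∧ ∃ t : Finset X,
      (∀ x, ∃ y ∈ t, dist x y ≤ ε) ∧ Real.log t.card ≤ ε ^ (-a)) :
    ∃ μ : Measure X, IsProbabilityMeasure μ ∧ ∀ g : Γ, μ.map (fun x => g • x) = μ := by
  classical
  choose K hK using hLip
  have hc : ∀ g : Γ, Continuous fun x : X => g • x := by
    intro g
    refine (LipschitzWith.of_dist_le_mul (K := (K g).toNNReal) fun x y => ?_).continuous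
    refine (hK g x y).trans ?_
    exact mul_le_mul_of_nonneg_right (Real.le_coe_toNNReal _) dist_nonneg
  by_contra hcon
  have hex : ¬ ∀ (n : ℕ) (f : Fin n → C(X, ℝ)) (s : Fin n → Γ) (δ : ℝ), 0 < δ →
      ∃ x, ∑ i, (f i x - f i (s i • x)) < δ := fun h => hcon (exists_invariant hc h)
  push Not at hex
  obtain ⟨n, f, s, δ, hδ, hfs⟩ := hex
  have hn : 1 ≤ n := by
    by_contra h0
    have h1 : n = 0 := by omega
    subst h1
    have h2 := hfs (Classical.arbitrary X)
    rw [univ_eq_empty, sum_empty] at h2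
    linarith
  have hnr : (1 : ℝ) ≤ n := by exact_mod_cast hn
  -- Lipschitz approximations
  set η : ℝ := δ / (4 * n) with hη
  have hη0 : 0 < η := by positivity
  choose Kf g hKf hgL hgf using fun i => exists_lipschitz (f i) η hη0
  have hsum : ∀ x, 1 ≤ ∑ i, (2 / δ * g i x - 2 / δ * g i (s i • x)) := by
    intro x
    have h1 : ∑ i, (f i x - f i (s i • x)) - ∑ i : Fin n, 2 * η ≤
        ∑ i, (g i x - g i (s i • x)) := by
      rw [← sum_sub_distrib]
      refine sum_le_sum fun i _ => ?_
      have h2 := (abs_le.1 (hgf i x)).1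
      have h3 := (abs_le.1 (hgf i (s i • x))).2
      linarith
    have h2 := hfs x
    have h3 : ∑ i : Fin n, 2 * η = δ / 2 := by
      rw [sum_const, card_univ, Fintype.card_fin, nsmul_eq_mul, hη]
      field_simp
      ring
    have h4 : δ / 2 ≤ ∑ i, (g i x - g i (s i • x)) := by linarith
    have h5 : ∑ i, (2 / δ * g i x - 2 / δ * g i (s i • x)) =
        2 / δ * ∑ i, (g i x - g i (s i • x)) := by
      rw [mul_sum]
      exact sum_congr rfl fun i _ => by ring
    rw [h5]
    calc (1 : ℝ) = 2 / δ * (δ / 2) := by field_simp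
      _ ≤ _ := by gcongr
  -- the Dixmier system
  set a₀ : ℝ := 1 / (2 * (n + 1)) with ha₀
  have ha₀' : ((n : ℝ) + 1) * a₀ = 1 / 2 := by
    rw [ha₀]
    field_simp
  let σ : Option (Fin n) → Γ := fun i => i.elim 1 fun i => (s i)⁻¹
  let F : Option (Fin n) → X → ℝ := fun i => i.elim (fun x => ∑ j, 2 / δ * g j x - a₀)
    fun i x => -(2 / δ * g i x) - a₀
  have hcard : Fintype.card (Option (Fin n)) = n + 1 := by
    rw [Fintype.card_option, Fintype.card_fin]
  have hf' : ∀ z : X, 1 / 2 ≤ ∑ i, F i ((σ i)⁻¹ • z) := by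
    intro z
    rw [Fintype.sum_option]
    simp only [F, σ, Option.elim, inv_one, one_smul, inv_inv]
    have h1 := hsum z
    rw [sum_sub_distrib] at h1
    rw [sum_sub_distrib, sum_neg_distrib, sum_const, card_univ, Fintype.card_fin, nsmul_eq_mul]
    linarith
  have hb' : ∀ z : X, ∑ i, F i z ≤ -(1 / 2) := by
    intro z
    rw [Fintype.sum_option]
    simp only [F, Option.elim]
    rw [sum_sub_distrib, sum_neg_distrib, sum_const, card_univ, Fintype.card_fin, nsmul_eq_mul]
    linarith
  -- Lipschitz constants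
  have hFL' : ∀ i, ∃ A : ℝ, 0 ≤ A ∧ ∀ x y, |F i x - F i y| ≤ A * dist x y := by
    intro i
    cases i with
    | none =>
      refine ⟨∑ j, 2 / δ * Kf j, sum_nonneg fun j _ => mul_nonneg (by positivity) (hKf j),
        fun x y => ?_⟩
      have h1 : F none x - F none y = ∑ j, 2 / δ * (g j x - g j y) := by
        simp only [F, Option.elim]
        rw [sub_sub_sub_cancel_right, ← sum_sub_distrib]
        exact sum_congr rfl fun j _ => by ring
      rw [h1, sum_mul]
      refine (abs_sum_le_sum_abs _ _).trans (sum_le_sum fun j _ => ?_)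
      rw [abs_mul, abs_of_pos (show 0 < 2 / δ by positivity), mul_assoc]
      exact mul_le_mul_of_nonneg_left (hgL j x y) (by positivity)
    | some i =>
      refine ⟨2 / δ * Kf i, mul_nonneg (by positivity) (hKf i), fun x y => ?_⟩
      have h1 : F (some i) x - F (some i) y = 2 / δ * (g i y - g i x) := by
        simp only [F, Option.elim]
        ring
      rw [h1, abs_mul, abs_of_pos (show 0 < 2 / δ by positivity), mul_assoc, abs_sub_comm]
      exact mul_le_mul_of_nonneg_left (hgL i x y) (by positivity)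
  choose A hA0 hA using hFL'
  have hAle : ∀ i, A i ≤ 1 + ∑ j, A j := fun i => by
    have := single_le_sum (f := A) (fun j _ => hA0 j) (mem_univ i)
    linarith
  -- bounds
  obtain ⟨z₀⟩ := (inferInstance : Nonempty X)
  have hFB : ∀ i, ∃ B : ℝ, 0 ≤ B ∧ ∀ x, |F i x| ≤ B := by
    intro i
    obtain ⟨R, hR⟩ := Metric.isBounded_iff.1 (isCompact_univ (X := X)).isBounded
    refine ⟨|F i z₀| + A i * |R|, by
      have := hA0 i
      positivity, fun x => ?_⟩
    have h1 := hA i x z₀
    have h2 : dist x z₀ ≤ |R| := (hR (Set.mem_univ _) (Set.mem_univ _)).trans (le_abs_self R)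
    have h3 : A i * dist x z₀ ≤ A i * |R| := mul_le_mul_of_nonneg_left h2 (hA0 i)
    have h4 : |F i x| ≤ |F i x - F i z₀| + |F i z₀| := by
      have := abs_add_le (F i x - F i z₀) (F i z₀)
      rwa [sub_add_cancel] at this
    linarith
  choose B hB0 hB using hFB
  have hBle : ∀ i, B i ≤ 1 + ∑ j, B j := fun i => by
    have := single_le_sum (f := B) (fun j _ => hB0 j) (mem_univ i)
    linarith
  set Λ : ℝ := 2 + ∑ i, (|K (σ i)| + |K (σ i)⁻¹|) with hΛ
  have hΛ0 : ∀ i, |K (σ i)| + |K (σ i)⁻¹| ≤ Λ := fun i => by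
    have := single_le_sum (f := fun i => |K (σ i)| + |K (σ i)⁻¹|)
      (fun j _ => by positivity) (mem_univ i)
    rw [hΛ]
    linarith
  have hΛ2 : 2 ≤ Λ := by
    rw [hΛ]
    have : 0 ≤ ∑ i, (|K (σ i)| + |K (σ i)⁻¹|) := sum_nonneg fun i _ => by positivity
    linarith
  have hsA : 0 ≤ ∑ j, A j := sum_nonneg fun j _ => hA0 j
  have hsB : 0 ≤ ∑ j, B j := sum_nonneg fun j _ => hB0 j
  have key := lit_top_of_dix σ F (1 + ∑ j, B j) (by linarith) (by rw [hcard]; omega)
    (fun i z => (hB i z).trans (hBle i)) hf' hb' Λ (1 + ∑ j, A j) hΛ2 (by linarith)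
    (fun i x y => (hK (σ i) x y).trans (mul_le_mul_of_nonneg_right
      ((le_abs_self _).trans (le_trans (le_add_of_nonneg_right (abs_nonneg _)) (hΛ0 i)))
      dist_nonneg))
    (fun i x y => (hK (σ i)⁻¹ x y).trans (mul_le_mul_of_nonneg_right
      ((le_abs_self _).trans (le_trans (le_add_of_nonneg_left (abs_nonneg _)) (hΛ0 i)))
      dist_nonneg))
    (fun i x y => (hA i x y).trans (mul_le_mul_of_nonneg_right (hAle i) dist_nonneg))
    hdim z₀ ((Lit Γ).toReal + 1) (by
      have : 0 ≤ (Lit Γ).toReal := ENNReal.toReal_nonneg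
      linarith)
  rw [ENNReal.ofReal_le_iff_le_toReal hΓ.ne] at key
  linarith

end Pool.Agent.H62.LP
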