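import Pool.Agent.H62.LP.Inv

/-!
# Invariant measures for groups with finite Littlewood exponent

The statement with the upper metric order; the hand-in `InvariantMeasures` has the stronger form
with the lower metric order.
-/

open scoped ENNReal

open MeasureTheory Pool.Agent.H62.LP

namespace Pool.Agent.H62.LP.InvStmt

/-- Let `Γ` be a group with `Lit Γ < ∞` which acts by Lipschitz maps on a nonempty compact metric
space `X` such that for every `a > 0` the logarithm of the covering number at scale `ε ≤ 1` is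
at most `C ε^(-a)` for some constant `C`. Then there is a `Γ`-invariant Borel probability measure
on `X`. -/
theorem inv_upper.{u, v} (Γ : Type u) (X : Type v) [Group Γ] [MetricSpace X] [CompactSpace X]
    [Nonempty X] [MeasurableSpace X] [BorelSpace X] [MulAction Γ X] (hΓ : Lit Γ < ∞)
    (hLip : ∀ g : Γ, ∃ K : ℝ, ∀ x y : X, dist (g • x) (g • y) ≤ K * dist x y)
    (hdim : ∀ a : ℝ, 0 < a → ∃ C : ℝ, ∀ ε : ℝ, 0 < ε → ε ≤ 1 → ∃ t : Finset X,
      (∀ x, ∃ y ∈ t, dist x y ≤ ε) ∧ Real.log t.card ≤ C * ε ^ (-a)) :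
    ∃ μ : Measure X, IsProbabilityMeasure μ ∧ ∀ g : Γ, μ.map (fun x => g • x) = μ := by
  refine inv_main hΓ hLip fun a ha δ hδ => ?_
  obtain ⟨C, hC⟩ := hdim (a / 2) (by positivity)
  -- a scale with `C ≤ ε^(-a/2)`
  set ε : ℝ := min (min (δ / 2) 1) ((|C| + 1) ^ (-(2 / a))) with hε
  have hC1 : (0 : ℝ) < |C| + 1 := by positivity
  have hε0 : 0 < ε := by positivity
  have hε1 : ε ≤ 1 := (min_le_left _ _).trans (min_le_right _ _)
  have hεδ : ε < δ := by
    have h1 : ε ≤ δ / 2 := (min_le_left _ _).trans (min_le_left _ _)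
    linarith
  obtain ⟨t, ht, htc⟩ := hC ε hε0 hε1
  refine ⟨ε, hε0, hεδ, t, ht, htc.trans ?_⟩
  have h2 : |C| + 1 ≤ ε ^ (-(a / 2)) := by
    have h3 : ε ≤ (|C| + 1) ^ (-(2 / a)) := min_le_right _ _
    have h4 := Real.rpow_le_rpow_of_nonpos hε0 h3 (show -(a / 2) ≤ 0 by linarith)
    rw [← Real.rpow_mul hC1.le] at h4
    have h5 : -(2 / a) * -(a / 2) = 1 := by
      field_simp
    rwa [h5, Real.rpow_one] at h4
  have h3 : ε ^ (-a) = ε ^ (-(a / 2)) * ε ^ (-(a / 2)) := by
    rw [← Real.rpow_add hε0]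
    congr 1
    ring
  rw [h3]
  have h4 : 0 < ε ^ (-(a / 2)) := Real.rpow_pos_of_pos hε0 _
  have h5 : C ≤ ε ^ (-(a / 2)) := by
    have := le_abs_self C
    linarith
  gcongr

end Pool.Agent.H62.LP.InvStmt
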