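import Mathlib

/-!
# The Littlewood exponent of a group: definitions
-/

set_option autoImplicit false

open scoped ENNReal

namespace Pool.Agent.H62.LP

/-- The space `T₁(Γ)` of functions `f : Γ → ℂ` such that `f (x⁻¹ y) = f₁ (x, y) + f₂ (x, y)` with
`sup_x ∑_y |f₁ (x, y)| < ∞` and `sup_y ∑_x |f₂ (x, y)| < ∞`. -/
def T1 (Γ : Type*) [Group Γ] : Set (Γ → ℂ) :=
  {f | ∃ f₁ f₂ : Γ → Γ → ℂ, (∀ x y, f (x⁻¹ * y) = f₁ x y + f₂ x y) ∧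
    (⨆ x, ∑' y, ‖f₁ x y‖ₑ) < ∞ ∧ (⨆ y, ∑' x, ‖f₂ x y‖ₑ) < ∞}

/-- The Littlewood exponent `inf {p > 0 : T₁(Γ) ⊆ ℓᵖ(Γ)}`, an element of `[0, ∞]`, with
`inf ∅ = ∞`. -/
noncomputable def Lit (Γ : Type*) [Group Γ] : ℝ≥0∞ :=
  sInf {p : ℝ≥0∞ | 0 < p ∧ p < ∞ ∧ ∀ f ∈ T1 Γ, Memℓp f p}

end Pool.Agent.H62.LP
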