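import Pool.Agent.H62.LP.LitDefs

/-!
# Oriented sets and the space `T₁`
-/

set_option autoImplicit false

open scoped ENNReal

namespace Pool.Agent.H62.LP

/-- `S` is `K`-oriented: every edge `x → x s` with `s ∈ S` of the Cayley graph is assigned to one of
its ends, at most `K` edges being assigned to a vertex in each role. -/
def Ori {Γ : Type*} [Group Γ] (K : ℕ) (S : Finset Γ) : Prop :=
  ∃ P Q : Γ → Finset Γ, (∀ x, (P x).card ≤ K) ∧ (∀ y, (Q y).card ≤ K) ∧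
    ∀ x, ∀ s ∈ S, s ∈ P x ∨ s ∈ Q (x * s)

lemma Ori.mono {Γ : Type*} [Group Γ] {K K' : ℕ} {S S' : Finset Γ} (h : Ori K S) (hK : K ≤ K')
    (hS : S' ⊆ S) : Ori K' S' := by
  obtain ⟨P, Q, h1, h2, h3⟩ := h
  exact ⟨P, Q, fun x => (h1 x).trans hK, fun y => (h2 y).trans hK, fun x s hs => h3 x s (hS hs)⟩

/-- the level sets of a function in `T₁` are oriented -/
theorem ori_of_T1 {Γ : Type*} [Group Γ] {f : Γ → ℂ} (hf : f ∈ T1 Γ) :
    ∃ C : ℕ, 1 ≤ C ∧ ∀ (t : ℕ) (S : Finset Γ), (∀ s ∈ S, (1 / 2 : ℝ) ^ t < ‖f s‖) →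
      Ori (C * 2 ^ t) S := by
  classical
  obtain ⟨f₁, f₂, hfs, h1, h2⟩ := hf
  set C₁ := (⨆ x, ∑' y, ‖f₁ x y‖ₑ) with hC₁
  set C₂ := (⨆ y, ∑' x, ‖f₂ x y‖ₑ) with hC₂
  obtain ⟨c₁, hc₁⟩ := ENNReal.exists_nat_gt h1.ne
  obtain ⟨c₂, hc₂⟩ := ENNReal.exists_nat_gt h2.ne
  have aux : ∀ (C : ℝ≥0∞) (c : ℕ), C < c → ∀ (t : ℕ) (T : Finset Γ) (F : Γ → ℂ),
      ∑ s ∈ T, ‖F s‖ₑ ≤ C → (∀ s ∈ T, (1 / 2 : ℝ) ^ (t + 1) < ‖F s‖) → T.card ≤ 2 * c * 2 ^ t := by
    intro C c hc t T F hT hF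
    have e1 : (T.card : ℝ≥0∞) * (2⁻¹ : ℝ≥0∞) ^ (t + 1) ≤ c := by
      refine le_trans ?_ (hT.trans hc.le)
      rw [← nsmul_eq_mul]
      refine Finset.card_nsmul_le_sum _ _ _ fun s hs => ?_
      have e2 := (hF s hs).le
      rw [← ofReal_norm]
      calc (2⁻¹ : ℝ≥0∞) ^ (t + 1) = ENNReal.ofReal ((1 / 2 : ℝ) ^ (t + 1)) := by
            rw [ENNReal.ofReal_pow (by norm_num), one_div, ENNReal.ofReal_inv_of_pos two_pos,
              ENNReal.ofReal_ofNat]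
        _ ≤ _ := ENNReal.ofReal_le_ofReal e2
    have e3 : (T.card : ℝ≥0∞) ≤ c * 2 ^ (t + 1) := by
      calc (T.card : ℝ≥0∞) = (T.card : ℝ≥0∞) * ((2⁻¹ : ℝ≥0∞) ^ (t + 1) * 2 ^ (t + 1)) := by
            rw [← mul_pow, ENNReal.inv_mul_cancel (by simp) (by simp), one_pow, mul_one]
        _ = (T.card : ℝ≥0∞) * (2⁻¹ : ℝ≥0∞) ^ (t + 1) * 2 ^ (t + 1) := by ring
        _ ≤ _ := by gcongr
    have e4 : T.card ≤ c * 2 ^ (t + 1) := by exact_mod_cast e3
    calc T.card ≤ c * 2 ^ (t + 1) := e4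
      _ = _ := by ring
  refine ⟨2 * c₁ + 2 * c₂ + 1, by omega, fun t S hS => ?_⟩
  refine ⟨fun x => S.filter fun s => (1 / 2 : ℝ) ^ (t + 1) < ‖f₁ x (x * s)‖,
    fun y => S.filter fun s => (1 / 2 : ℝ) ^ (t + 1) < ‖f₂ (y * s⁻¹) y‖, fun x => ?_,
    fun y => ?_, fun x s hs => ?_⟩
  · refine (aux C₁ c₁ hc₁ t _ (fun s => f₁ x (x * s)) ?_ fun s hs =>
      (Finset.mem_filter.1 hs).2).trans (by gcongr; omega)
    have e1 : ∑' y, ‖f₁ x y‖ₑ ≤ C₁ := le_iSup (fun x => ∑' y, ‖f₁ x y‖ₑ) x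
    refine le_trans ?_ e1
    rw [← (Equiv.mulLeft x).tsum_eq]
    exact ENNReal.sum_le_tsum _
  · refine (aux C₂ c₂ hc₂ t _ (fun s => f₂ (y * s⁻¹) y) ?_ fun s hs =>
      (Finset.mem_filter.1 hs).2).trans (by gcongr; omega)
    have e1 : ∑' x, ‖f₂ x y‖ₑ ≤ C₂ := le_iSup (fun y => ∑' x, ‖f₂ x y‖ₑ) y
    refine le_trans ?_ e1
    rw [← ((Equiv.inv Γ).trans (Equiv.mulLeft y)).tsum_eq]
    exact ENNReal.sum_le_tsum _
  · have h3 := hS s hs
    have h4 : f s = f₁ x (x * s) + f₂ x (x * s) := by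
      rw [← hfs, inv_mul_cancel_left]
    rw [h4] at h3
    have h5 := norm_add_le (f₁ x (x * s)) (f₂ x (x * s))
    have h6 : (1 / 2 : ℝ) ^ t = (1 / 2 : ℝ) ^ (t + 1) + (1 / 2 : ℝ) ^ (t + 1) := by
      rw [pow_succ]
      ring
    by_contra hcon
    rw [not_or, Finset.mem_filter, Finset.mem_filter] at hcon
    have h7 : ‖f₁ x (x * s)‖ ≤ (1 / 2 : ℝ) ^ (t + 1) := by
      by_contra h
      exact hcon.1 ⟨hs, not_le.1 h⟩
    have h8 : ‖f₂ x (x * s)‖ ≤ (1 / 2 : ℝ) ^ (t + 1) := by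
      by_contra h
      refine hcon.2 ⟨hs, ?_⟩
      rw [mul_inv_cancel_right]
      exact not_le.1 h
    linarith

/-- a function whose level sets are small is in `ℓᵖ` -/
theorem memlp_of_levels {Γ : Type*} {f : Γ → ℂ} (q q' : ℝ) (hq : 0 < q) (hqq : q' < q) (T : ℕ)
    (h : ∀ t : ℕ, T ≤ t → ∀ S : Finset Γ, (∀ s ∈ S, (1 / 2 : ℝ) ^ t < ‖f s‖) →
      (S.card : ℝ) < (2 : ℝ) ^ (q' * t)) : Memℓp f (ENNReal.ofReal q) := by
  classical
  have hqr : (ENNReal.ofReal q).toReal = q := ENNReal.toReal_ofReal hq.le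
  apply memℓp_gen
  rw [hqr]
  -- the set of large values is finite
  have hfin : {g | (1 / 2 : ℝ) ^ T < ‖f g‖}.Finite := by
    by_contra hinf
    obtain ⟨N, hN⟩ := exists_nat_gt ((2 : ℝ) ^ (q' * T))
    obtain ⟨S, hS, hSN⟩ := (show {g | (1 / 2 : ℝ) ^ T < ‖f g‖}.Infinite from
      hinf).exists_subset_card_eq N
    have h1 := h T le_rfl S fun s hs => hS hs
    rw [hSN] at h1
    linarith
  set A := ∑ g ∈ hfin.toFinset, ‖f g‖ ^ q with hA
  set ρ : ℝ := (2 : ℝ) ^ (q' - q) with hρ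
  have hρ0 : 0 < ρ := by positivity
  have hρ1 : ρ < 1 := by
    rw [hρ]
    exact Real.rpow_lt_one_of_one_lt_of_neg one_lt_two (by linarith)
  refine summable_of_sum_le (c := A + 2 ^ q' * (1 - ρ)⁻¹) (fun g => by positivity) fun u => ?_
  -- split the sum
  rw [← Finset.sum_filter_add_sum_filter_not u (fun g => (1 / 2 : ℝ) ^ T < ‖f g‖)]
  refine add_le_add ?_ ?_
  · refine Finset.sum_le_sum_of_subset_of_nonneg ?_ fun g _ _ => by positivity
    intro g hg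
    rw [Set.Finite.mem_toFinset]
    exact (Finset.mem_filter.1 hg).2
  · set v := u.filter fun g => ¬ (1 / 2 : ℝ) ^ T < ‖f g‖ with hv
    set v' := v.filter fun g => f g ≠ 0 with hv'
    have e1 : ∑ g ∈ v, ‖f g‖ ^ q = ∑ g ∈ v', ‖f g‖ ^ q := by
      refine (Finset.sum_subset (Finset.filter_subset _ _) fun g hg hg' => ?_).symm
      have : f g = 0 := by
        by_contra hne
        exact hg' (Finset.mem_filter.2 ⟨hg, hne⟩)
      rw [this, norm_zero, Real.zero_rpow hq.ne']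
    rw [e1]
    have e2 : ∀ g ∈ v', ∃ t : ℕ, T ≤ t ∧ (1 / 2 : ℝ) ^ (t + 1) < ‖f g‖ ∧
        ‖f g‖ ≤ (1 / 2 : ℝ) ^ t := by
      intro g hg
      have h1 := (Finset.mem_filter.1 hg).2
      have h2 := (Finset.mem_filter.1 (Finset.mem_filter.1 hg).1).2
      have h3 : ‖f g‖ ≤ 1 := (not_lt.1 h2).trans (pow_le_one₀ (by norm_num) (by norm_num))
      obtain ⟨t, ht1, ht2⟩ := exists_nat_pow_near_of_lt_one (norm_pos_iff.2 h1) h3
        (show (0 : ℝ) < 1 / 2 by norm_num) (by norm_num)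
      refine ⟨t, ?_, ht1, ht2⟩
      by_contra hlt
      have h4 : (1 / 2 : ℝ) ^ T ≤ (1 / 2 : ℝ) ^ (t + 1) :=
        pow_le_pow_of_le_one (by norm_num) (by norm_num) (by omega)
      exact h2 (h4.trans_lt ht1)
    choose! τ hτ1 hτ2 hτ3 using e2
    have e3 : ∀ g ∈ v', ‖f g‖ ^ q ≤ ((1 / 2 : ℝ) ^ τ g) ^ q := fun g hg =>
      Real.rpow_le_rpow (norm_nonneg _) (hτ3 g hg) hq.le
    refine (Finset.sum_le_sum e3).trans ?_
    rw [← Finset.sum_fiberwise_of_maps_to (s := v') (t := v'.image τ) (g := τ)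
      (fun g hg => Finset.mem_image_of_mem _ hg)]
    have e4 : ∀ t ∈ v'.image τ, ∑ g ∈ v'.filter (fun g => τ g = t), ((1 / 2 : ℝ) ^ τ g) ^ q ≤
        2 ^ q' * ρ ^ t := by
      intro t ht
      obtain ⟨g0, hg0, hg0t⟩ := Finset.mem_image.1 ht
      have f1 : T ≤ t := by
        rw [← hg0t]
        exact hτ1 g0 hg0
      have f2 : ∑ g ∈ v'.filter (fun g => τ g = t), ((1 / 2 : ℝ) ^ τ g) ^ q =
          ((v'.filter (fun g => τ g = t)).card : ℝ) * ((1 / 2 : ℝ) ^ t) ^ q := by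
        rw [← nsmul_eq_mul, ← Finset.sum_const]
        refine Finset.sum_congr rfl fun g hg => ?_
        rw [(Finset.mem_filter.1 hg).2]
      rw [f2]
      have f3 := (h (t + 1) (by omega) (v'.filter (fun g => τ g = t)) fun g hg => by
        have := hτ2 g (Finset.mem_filter.1 hg).1
        rwa [(Finset.mem_filter.1 hg).2] at this).le
      have f4 : ((1 / 2 : ℝ) ^ t) ^ q = (2 : ℝ) ^ (-(q * t)) := by
        rw [← Real.rpow_natCast, ← Real.rpow_mul (by norm_num), one_div,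
          Real.inv_rpow (by norm_num), ← Real.rpow_neg (by norm_num)]
        congr 1
        ring
      rw [f4]
      calc ((v'.filter (fun g => τ g = t)).card : ℝ) * (2 : ℝ) ^ (-(q * t))
          ≤ (2 : ℝ) ^ (q' * ((t + 1 : ℕ) : ℝ)) * (2 : ℝ) ^ (-(q * t)) := by gcongr
        _ = 2 ^ q' * ρ ^ t := by
            rw [hρ, ← Real.rpow_natCast, ← Real.rpow_mul (by norm_num),
              ← Real.rpow_add (by norm_num), ← Real.rpow_add (by norm_num)]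
            congr 1
            push_cast
            ring
    refine (Finset.sum_le_sum e4).trans ?_
    rw [← Finset.mul_sum]
    refine mul_le_mul_of_nonneg_left ?_ (by positivity)
    rw [← tsum_geometric_of_lt_one hρ0.le hρ1]
    exact (summable_geometric_of_lt_one hρ0.le hρ1).sum_le_tsum _ fun t _ => by positivity

/-- large oriented sets force the Littlewood exponent to be large -/
theorem le_lit {Γ : Type*} [Group Γ] (q : ℝ) (hq : 0 < q)
    (h : ∀ M : ℝ, ∃ (L : ℕ) (R : Finset Γ), 1 ≤ L ∧ Ori L R ∧ M * (L : ℝ) ^ q ≤ R.card) :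
    ENNReal.ofReal q ≤ Lit Γ := by
  classical
  refine le_sInf ?_
  rintro p ⟨hp0, hp1, hp⟩
  by_contra hlt
  rw [not_le] at hlt
  choose L R hL hO hR using fun j : ℕ => h (((2 : ℝ) ^ j) ^ q * (j + 1))
  choose P Q hP hQ hPQ using hO
  have hLt : ∀ j, (L j : ℝ≥0∞) ≠ ∞ := fun j => ENNReal.natCast_ne_top _
  have hL0 : ∀ j, (L j : ℝ≥0∞) ≠ 0 := fun j => by
    have := hL j
    exact_mod_cast (by omega : L j ≠ 0)
  let w : ℕ → ℝ≥0∞ := fun j => (2⁻¹ : ℝ≥0∞) ^ j * (L j : ℝ≥0∞)⁻¹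
  have hwL : ∀ j, w j * L j = (2⁻¹ : ℝ≥0∞) ^ j := fun j => by
    simp only [w]
    rw [mul_assoc, ENNReal.inv_mul_cancel (hL0 j) (hLt j), mul_one]
  have hw1 : ∀ j, w j ≤ (2⁻¹ : ℝ≥0∞) ^ j := fun j => by
    rw [← hwL j]
    refine le_mul_of_one_le_right' ?_
    exact_mod_cast hL j
  have hsum2 : ∑' j : ℕ, (2⁻¹ : ℝ≥0∞) ^ j = 2 := by
    rw [ENNReal.tsum_geometric, ENNReal.one_sub_inv_two, inv_inv]
  let a₁ : ℕ → Γ → Γ → ℝ≥0∞ := fun j x y =>
    if x⁻¹ * y ∈ R j ∧ x⁻¹ * y ∈ P j x then 1 else 0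
  let a₂ : ℕ → Γ → Γ → ℝ≥0∞ := fun j x y =>
    if x⁻¹ * y ∈ R j ∧ x⁻¹ * y ∉ P j x then 1 else 0
  have ha : ∀ j x y, a₁ j x y + a₂ j x y = if x⁻¹ * y ∈ R j then 1 else 0 := by
    intro j x y
    simp only [a₁, a₂]
    by_cases h1 : x⁻¹ * y ∈ R j <;> by_cases h2 : x⁻¹ * y ∈ P j x <;> simp [h1, h2]
  have hr : ∀ j x, ∑' y, a₁ j x y ≤ L j := by
    intro j x
    have e1 : ∑' y, a₁ j x y ≤ ∑' s, (if s ∈ P j x then (1 : ℝ≥0∞) else 0) := by
      rw [← (Equiv.mulLeft x).tsum_eq]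
      refine ENNReal.tsum_le_tsum fun s => ?_
      simp only [a₁, Equiv.coe_mulLeft, inv_mul_cancel_left]
      by_cases h2 : s ∈ P j x <;> simp [h2]
      split_ifs <;> simp
    refine e1.trans ?_
    rw [tsum_eq_sum (s := P j x) (fun s hs => if_neg hs), Finset.sum_ite_mem,
      Finset.inter_self, Finset.sum_const, nsmul_eq_mul, mul_one]
    exact_mod_cast hP j x
  have hcl : ∀ j y, ∑' x, a₂ j x y ≤ L j := by
    intro j y
    have e1 : ∑' x, a₂ j x y ≤ ∑' s, (if s ∈ Q j y then (1 : ℝ≥0∞) else 0) := by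
      rw [← ((Equiv.inv Γ).trans (Equiv.mulLeft y)).tsum_eq]
      refine ENNReal.tsum_le_tsum fun s => ?_
      have e2 : ((Equiv.inv Γ).trans (Equiv.mulLeft y)) s = y * s⁻¹ := rfl
      rw [e2]
      simp only [a₂]
      have e3 : (y * s⁻¹)⁻¹ * y = s := by group
      rw [e3]
      by_cases h2 : s ∈ Q j y
      · rw [if_pos h2]
        split_ifs <;> simp
      · rw [if_neg h2, if_neg]
        rintro ⟨h3, h4⟩
        rcases hPQ j (y * s⁻¹) s h3 with h5 | h5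
        · exact h4 h5
        · rw [inv_mul_cancel_right] at h5
          exact h2 h5
    refine e1.trans ?_
    rw [tsum_eq_sum (s := Q j y) (fun s hs => if_neg hs), Finset.sum_ite_mem,
      Finset.inter_self, Finset.sum_const, nsmul_eq_mul, mul_one]
    exact_mod_cast hQ j y
  let F₁ : Γ → Γ → ℝ≥0∞ := fun x y => ∑' j, w j * a₁ j x y
  let F₂ : Γ → Γ → ℝ≥0∞ := fun x y => ∑' j, w j * a₂ j x y
  let F : Γ → ℝ≥0∞ := fun g => ∑' j, w j * (if g ∈ R j then 1 else 0)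
  have hF : ∀ x y, F (x⁻¹ * y) = F₁ x y + F₂ x y := by
    intro x y
    simp only [F, F₁, F₂]
    rw [← ENNReal.tsum_add]
    refine tsum_congr fun j => ?_
    rw [← mul_add, ha]
  have hFle : ∀ g, F g ≤ 2 := by
    intro g
    rw [← hsum2]
    refine ENNReal.tsum_le_tsum fun j => ?_
    refine le_trans ?_ (hw1 j)
    split_ifs <;> simp
  have hFt : ∀ g, F g ≠ ∞ := fun g => ne_top_of_le_ne_top (by simp) (hFle g)
  have hF1t : ∀ x y, F₁ x y ≠ ∞ := fun x y =>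
    ne_top_of_le_ne_top (hFt (x⁻¹ * y)) (by rw [hF]; exact le_self_add)
  have hF2t : ∀ x y, F₂ x y ≠ ∞ := fun x y =>
    ne_top_of_le_ne_top (hFt (x⁻¹ * y)) (by rw [hF]; exact le_add_self)
  have hrow : ∀ x, ∑' y, F₁ x y ≤ 2 := by
    intro x
    simp only [F₁]
    rw [ENNReal.tsum_comm, ← hsum2]
    refine ENNReal.tsum_le_tsum fun j => ?_
    rw [ENNReal.tsum_mul_left, ← hwL j]
    gcongr
    exact hr j x
  have hcol : ∀ y, ∑' x, F₂ x y ≤ 2 := by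
    intro y
    simp only [F₂]
    rw [ENNReal.tsum_comm, ← hsum2]
    refine ENNReal.tsum_le_tsum fun j => ?_
    rw [ENNReal.tsum_mul_left, ← hwL j]
    gcongr
    exact hcl j y
  have hen : ∀ a : ℝ≥0∞, a ≠ ∞ → ‖((a.toReal : ℝ) : ℂ)‖ₑ = a := by
    intro a ha
    rw [← ofReal_norm, Complex.norm_real, Real.norm_of_nonneg ENNReal.toReal_nonneg,
      ENNReal.ofReal_toReal ha]
  have hmem : (fun g => (((F g).toReal : ℝ) : ℂ)) ∈ T1 Γ := by
    refine ⟨fun x y => (((F₁ x y).toReal : ℝ) : ℂ), fun x y => (((F₂ x y).toReal : ℝ) : ℂ),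
      ?_, ?_, ?_⟩
    · intro x y
      simp only
      rw [hF, ENNReal.toReal_add (hF1t x y) (hF2t x y), Complex.ofReal_add]
    · refine lt_of_le_of_lt (iSup_le fun x => ?_) (show (2 : ℝ≥0∞) < ∞ by simp)
      refine le_trans (le_of_eq ?_) (hrow x)
      exact tsum_congr fun y => hen _ (hF1t x y)
    · refine lt_of_le_of_lt (iSup_le fun y => ?_) (show (2 : ℝ≥0∞) < ∞ by simp)
      refine le_trans (le_of_eq ?_) (hcol y)
      exact tsum_congr fun x => hen _ (hF2t x y)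
  have hM := (hp _ hmem).of_exponent_ge hlt.le
  have hqr : (ENNReal.ofReal q).toReal = q := ENNReal.toReal_ofReal hq.le
  rw [memℓp_gen_iff (by rw [hqr]; exact hq), hqr] at hM
  set C := ∑' g, ‖(((F g).toReal : ℝ) : ℂ)‖ ^ q with hC
  obtain ⟨j, hj⟩ := exists_nat_gt C
  have h1 : ∑ g ∈ R j, ‖(((F g).toReal : ℝ) : ℂ)‖ ^ q ≤ C :=
    hM.sum_le_tsum _ (fun g _ => by positivity)
  have hLr : (0 : ℝ) < L j := by
    have := hL j
    exact_mod_cast (by omega : 0 < L j)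
  have h2 : ∀ g ∈ R j, ((2⁻¹ : ℝ) ^ j * (L j : ℝ)⁻¹) ^ q ≤
      ‖(((F g).toReal : ℝ) : ℂ)‖ ^ q := by
    intro g hgS
    rw [Complex.norm_real, Real.norm_of_nonneg ENNReal.toReal_nonneg]
    refine Real.rpow_le_rpow (by positivity) ?_ hq.le
    have h3 : w j ≤ F g := by
      have h4 : w j * (if g ∈ R j then 1 else 0) ≤ F g :=
        ENNReal.le_tsum (f := fun j => w j * (if g ∈ R j then 1 else 0)) j
      rwa [if_pos hgS, mul_one] at h4
    have h5 : (w j).toReal ≤ (F g).toReal := ENNReal.toReal_mono (hFt g) h3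
    refine le_trans (le_of_eq ?_) h5
    simp only [w]
    rw [ENNReal.toReal_mul, ENNReal.toReal_pow, ENNReal.toReal_inv, ENNReal.toReal_inv,
      ENNReal.toReal_natCast, ENNReal.toReal_ofNat]
  have h3 : ((R j).card : ℝ) * ((2⁻¹ : ℝ) ^ j * (L j : ℝ)⁻¹) ^ q ≤ C := by
    refine le_trans ?_ h1
    rw [← nsmul_eq_mul]
    exact Finset.card_nsmul_le_sum _ _ _ h2
  have h4 : ((2 : ℝ) ^ j) ^ q * (j + 1) * (L j : ℝ) ^ q *
      ((2⁻¹ : ℝ) ^ j * (L j : ℝ)⁻¹) ^ q = j + 1 := by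
    rw [Real.mul_rpow (by positivity) (by positivity), inv_pow, Real.inv_rpow (by positivity),
      Real.inv_rpow (by positivity)]
    have e1 : (0 : ℝ) < ((2 : ℝ) ^ j) ^ q := by positivity
    have e2 : (0 : ℝ) < (L j : ℝ) ^ q := by positivity
    field_simp
  have h5 : (j : ℝ) + 1 ≤ C := by
    rw [← h4]
    refine le_trans ?_ h3
    gcongr
    exact hR j
  linarith

end Pool.Agent.H62.LP
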