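import Pool.Agent.H62.LP.Word
import Pool.Agent.H62.LP.Code
import Pool.Agent.H62.LP.Ori

/-!
# Sparse sets of words in a Lipschitz action
-/

set_option autoImplicit false

open Finset

namespace Pool.Agent.H62.LP

section

variable {Γ X ι : Type*} [Group Γ] [MulAction Γ X] [PseudoMetricSpace X]

lemma gw_lip (σ : ι → Γ) (Λ : ℝ) (hΛ : 1 ≤ Λ)
    (h : ∀ i (x y : X), dist (σ i • x) (σ i • y) ≤ Λ * dist x y) :
    ∀ (N : ℕ) (l : Fin N → ι) (x y : X),
      dist (gw σ N l • x) (gw σ N l • y) ≤ Λ ^ N * dist x y := by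
  intro N
  induction N with
  | zero =>
    intro l x y
    simp [gw]
  | succ N ih =>
    intro l x y
    have h1 : gw σ (N + 1) l = σ (l 0) * gw σ N (Fin.tail l) := rfl
    rw [h1, mul_smul, mul_smul]
    calc dist (σ (l 0) • gw σ N (Fin.tail l) • x) (σ (l 0) • gw σ N (Fin.tail l) • y)
        ≤ Λ * dist (gw σ N (Fin.tail l) • x) (gw σ N (Fin.tail l) • y) := h _ _ _
      _ ≤ Λ * (Λ ^ N * dist x y) := mul_le_mul_of_nonneg_left (ih _ _ _) (by linarith)
      _ = Λ ^ (N + 1) * dist x y := by ring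

lemma Wo_lip (σ : ι → Γ) (F : ι → X → ℝ) (Λ A : ℝ) (hΛ : 1 ≤ Λ) (hA : 0 ≤ A)
    (h : ∀ i (x y : X), dist ((σ i)⁻¹ • x) ((σ i)⁻¹ • y) ≤ Λ * dist x y)
    (hF : ∀ i x y, |F i x - F i y| ≤ A * dist x y) :
    ∀ (N : ℕ) (l : Fin N → ι) (x y : X),
      |Wo σ F N x l - Wo σ F N y l| ≤ A * N * Λ ^ N * dist x y := by
  intro N
  induction N with
  | zero =>
    intro l x y
    simp [Wo]
  | succ N ih =>
    intro l x y
    have h1 : ∀ z, Wo σ F (N + 1) z l = F (l 0) ((σ (l 0))⁻¹ • z) +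
        Wo σ F N ((σ (l 0))⁻¹ • z) (Fin.tail l) := fun z => rfl
    rw [h1, h1]
    set x' := (σ (l 0))⁻¹ • x
    set y' := (σ (l 0))⁻¹ • y
    have h2 : dist x' y' ≤ Λ * dist x y := h _ _ _
    have h3 := hF (l 0) x' y'
    have h4 := ih (Fin.tail l) x' y'
    have h5 : (1 : ℝ) ≤ Λ ^ N := one_le_pow₀ hΛ
    have hd : 0 ≤ dist x y := dist_nonneg
    calc |F (l 0) x' + Wo σ F N x' (Fin.tail l) - (F (l 0) y' + Wo σ F N y' (Fin.tail l))|
        = |(F (l 0) x' - F (l 0) y') +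
            (Wo σ F N x' (Fin.tail l) - Wo σ F N y' (Fin.tail l))| := by
          congr 1
          ring
      _ ≤ |F (l 0) x' - F (l 0) y'| +
            |Wo σ F N x' (Fin.tail l) - Wo σ F N y' (Fin.tail l)| := abs_add_le _ _
      _ ≤ A * dist x' y' + A * N * Λ ^ N * dist x' y' := add_le_add h3 h4
      _ ≤ A * (Λ * dist x y) + A * N * Λ ^ N * (Λ * dist x y) := by gcongr
      _ ≤ A * (Λ * dist x y) * Λ ^ N + A * N * Λ ^ N * (Λ * dist x y) := by
          have : A * (Λ * dist x y) * 1 ≤ A * (Λ * dist x y) * Λ ^ N := by gcongr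
          linarith
      _ = A * ((N + 1 : ℕ) : ℝ) * Λ ^ (N + 1) * dist x y := by
          push_cast
          ring

lemma Wo_gw_lip (σ : ι → Γ) (F : ι → X → ℝ) (Λ A : ℝ) (hΛ : 1 ≤ Λ) (hA : 0 ≤ A)
    (h : ∀ i (x y : X), dist (σ i • x) (σ i • y) ≤ Λ * dist x y)
    (hF : ∀ i x y, |F i x - F i y| ≤ A * dist x y) :
    ∀ (N : ℕ) (l : Fin N → ι) (x y : X),
      |Wo σ F N (gw σ N l • x) l - Wo σ F N (gw σ N l • y) l| ≤ A * N * Λ ^ N * dist x y := by
  intro N
  induction N with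
  | zero =>
    intro l x y
    simp [Wo]
  | succ N ih =>
    intro l x y
    obtain ⟨i, l', rfl⟩ : ∃ i l', l = Fin.cons i l' := ⟨l 0, Fin.tail l, (Fin.cons_self_tail l).symm⟩
    rw [Wo_gw_cons, Wo_gw_cons]
    have h3 := hF i (gw σ N l' • x) (gw σ N l' • y)
    have h4 := ih l' x y
    have h5 : (1 : ℝ) ≤ Λ ^ N := one_le_pow₀ hΛ
    have hd : 0 ≤ dist x y := dist_nonneg
    have h6 := gw_lip σ Λ hΛ h N l' x y
    calc |F i (gw σ N l' • x) + Wo σ F N (gw σ N l' • x) l' -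
            (F i (gw σ N l' • y) + Wo σ F N (gw σ N l' • y) l')|
        = |(F i (gw σ N l' • x) - F i (gw σ N l' • y)) +
            (Wo σ F N (gw σ N l' • x) l' - Wo σ F N (gw σ N l' • y) l')| := by
          congr 1
          ring
      _ ≤ |F i (gw σ N l' • x) - F i (gw σ N l' • y)| +
            |Wo σ F N (gw σ N l' • x) l' - Wo σ F N (gw σ N l' • y) l'| := abs_add_le _ _
      _ ≤ A * dist (gw σ N l' • x) (gw σ N l' • y) + A * N * Λ ^ N * dist x y :=
          add_le_add h3 h4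
      _ ≤ A * (Λ ^ N * dist x y) + A * N * Λ ^ N * dist x y := by gcongr
      _ = A * (N + 1) * Λ ^ N * dist x y := by ring
      _ ≤ A * (N + 1) * Λ ^ (N + 1) * dist x y := by
          gcongr
          omega
      _ = A * ((N + 1 : ℕ) : ℝ) * Λ ^ (N + 1) * dist x y := by push_cast; ring

open Classical in
/-- a sparse set of words -/
theorem code_ori [Fintype ι] (σ : ι → Γ) (F : ι → X → ℝ) (B : ℝ) (hB : 1 ≤ B)
    (hk : 2 ≤ Fintype.card ι) (hF : ∀ i z, |F i z| ≤ B)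
    (hf : ∀ z, 1 / 2 ≤ ∑ i, F i ((σ i)⁻¹ • z)) (hb : ∀ z, ∑ i, F i z ≤ -(1 / 2))
    (Λ A : ℝ) (hΛ : 1 ≤ Λ) (hA : 0 ≤ A)
    (h1 : ∀ i (x y : X), dist (σ i • x) (σ i • y) ≤ Λ * dist x y)
    (h2 : ∀ i (x y : X), dist ((σ i)⁻¹ • x) ((σ i)⁻¹ • y) ≤ Λ * dist x y)
    (hFL : ∀ i x y, |F i x - F i y| ≤ A * dist x y) (N : ℕ) (t : Finset X) (ε : ℝ)
    (ht : ∀ x, ∃ y ∈ t, dist x y ≤ ε)
    (hε : A * N * Λ ^ N * ε < N / (8 * Fintype.card ι)) (z₀ : X) :
    ∃ R : Finset Γ, Ori (Nat.clog 2 t.card + 3) R ∧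
      ⌊Real.exp (1 / (32 * (Fintype.card ι : ℝ) ^ 2 * B ^ 2) * N)⌋₊ ≤
        2 * (Nat.clog 2 t.card + 3) * R.card := by
  set k := Fintype.card ι with hkdef
  have hkr : (2 : ℝ) ≤ k := by exact_mod_cast hk
  have hB0 : 0 < B := by linarith
  set c : ℝ := 1 / (32 * (k : ℝ) ^ 2 * B ^ 2) with hc
  have hc0 : 0 < c := by positivity
  set L := Nat.clog 2 t.card + 3 with hL
  set m := ⌊Real.exp (c * N)⌋₊ with hm
  have hexp1 : 1 ≤ Real.exp (c * N) := Real.one_le_exp (by positivity)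
  have hm1 : 1 ≤ m := (Nat.one_le_floor_iff _).2 hexp1
  have hmr : (0 : ℝ) < m := by exact_mod_cast hm1
  have hme : (m : ℝ) ≤ Real.exp (c * N) := Nat.floor_le (Real.exp_pos _).le
  have hc2 : Real.exp c ≤ 2 := by
    rw [← Real.le_log_iff_exp_le two_pos]
    have h3 := Real.log_two_gt_d9
    have h4 : c ≤ 1 / 32 := by
      rw [hc]
      refine one_div_le_one_div_of_le (by norm_num) ?_
      have h5 : (1 : ℝ) ≤ (k : ℝ) ^ 2 := by nlinarith
      have h6 : (1 : ℝ) ≤ B ^ 2 := by nlinarith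
      nlinarith
    linarith
  have hmk : m ≤ k ^ N := by
    have h3 : (m : ℝ) ≤ (k : ℝ) ^ N := by
      refine hme.trans ?_
      rw [mul_comm, Real.exp_nat_mul]
      exact pow_le_pow_left₀ (Real.exp_pos _).le (hc2.trans hkr) N
    exact_mod_cast h3
  set b := k ^ N / m with hbdef
  have hb1 : 1 ≤ b := by
    rw [hbdef, Nat.one_le_div_iff hm1]
    exact hmk
  have h2b : (k : ℝ) ^ N * Real.exp (-(c * N)) ≤ 2 * b := by
    have h3 : k ^ N < m * (b + 1) := Nat.lt_mul_div_succ _ hm1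
    have h4 : k ^ N ≤ 2 * b * m := by nlinarith
    have h5 : (k : ℝ) ^ N ≤ 2 * b * m := by exact_mod_cast h4
    calc (k : ℝ) ^ N * Real.exp (-(c * N)) ≤ 2 * b * m * Real.exp (-(c * N)) := by gcongr
      _ ≤ 2 * b * Real.exp (c * N) * Real.exp (-(c * N)) := by gcongr
      _ = 2 * b := by rw [mul_assoc, ← Real.exp_add, add_neg_cancel, Real.exp_zero, mul_one]
  -- the blocks
  obtain ⟨e⟩ : Nonempty (Fin m × Fin b ↪ (Fin N → ι)) := by
    refine Function.Embedding.nonempty_of_card_le ?_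
    rw [Fintype.card_prod, Fintype.card_fin, Fintype.card_fin, Fintype.card_fun,
      Fintype.card_fin]
    exact Nat.mul_div_le _ _
  let bad : t ⊕ t → Finset (Fin N → ι) := fun q => match q with
    | Sum.inl z => univ.filter fun l : Fin N → ι => Wo σ F N z.1 l ≤ N / (8 * (k : ℝ))
    | Sum.inr y => univ.filter fun l : Fin N → ι =>
        -(N / (8 * (k : ℝ))) ≤ Wo σ F N (gw σ N l • y.1) l
  have hbad : ∀ q, ((bad q).card : ℝ) ≤ 2 * b := by
    rintro (z | y)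
    · exact (count_fwd σ F B hB (by omega) hF hf N z.1).trans h2b
    · exact (count_bwd σ F B hB (by omega) hF hb N y.1).trans h2b
  obtain ⟨g, hg⟩ := select m b e e.injective (t ⊕ t) bad 2 L hb1 hbad (by
    rw [Fintype.card_sum, Fintype.card_coe]
    have h3 : t.card ≤ 2 ^ Nat.clog 2 t.card := Nat.le_pow_clog one_lt_two _
    have h3' : (t.card : ℝ) ≤ 2 ^ Nat.clog 2 t.card := by exact_mod_cast h3
    have h4 : Real.exp 2 < 8 := by
      have h5 := Real.exp_one_lt_d9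
      have h6 : Real.exp 2 = Real.exp 1 ^ 2 := by
        rw [← Real.exp_nat_mul]
        norm_num
      rw [h6]
      have h7 := Real.exp_pos 1
      nlinarith
    have h5 : (0 : ℝ) < 2 ^ Nat.clog 2 t.card := by positivity
    push_cast
    calc ((t.card : ℝ) + t.card) * Real.exp 2 ≤ (2 ^ Nat.clog 2 t.card * 2) * Real.exp 2 := by
          gcongr
          linarith
      _ < (2 ^ Nat.clog 2 t.card * 2) * 8 := by gcongr
      _ = 2 ^ (L + 1) := by
          rw [hL]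
          ring)
  set w : Fin m → (Fin N → ι) := fun j => e (j, g j) with hw
  -- the two counts
  have hfw : ∀ z : X, (univ.filter fun j => Wo σ F N z (w j) ≤ 0).card ≤ L := by
    intro z
    obtain ⟨y, hy, hzy⟩ := ht z
    refine le_trans (card_le_card fun j hj => ?_) (hg (Sum.inl ⟨y, hy⟩))
    rw [mem_filter] at hj ⊢
    refine ⟨mem_univ _, mem_filter.2 ⟨mem_univ _, ?_⟩⟩
    have h3 := Wo_lip σ F Λ A hΛ hA h2 hFL N (w j) y z
    have h4 : A * N * Λ ^ N * dist y z ≤ A * N * Λ ^ N * ε := by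
      rw [dist_comm]
      gcongr
    have h5 := (abs_le.1 h3).2
    have h6 : Wo σ F N z (w j) ≤ 0 := hj.2
    change Wo σ F N y (w j) ≤ N / (8 * (k : ℝ))
    linarith
  have hbw : ∀ z : X, (univ.filter fun j => 0 < Wo σ F N (gw σ N (w j) • z) (w j)).card ≤ L := by
    intro z
    obtain ⟨y, hy, hzy⟩ := ht z
    refine le_trans (card_le_card fun j hj => ?_) (hg (Sum.inr ⟨y, hy⟩))
    rw [mem_filter] at hj ⊢
    refine ⟨mem_univ _, mem_filter.2 ⟨mem_univ _, ?_⟩⟩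
    have h3 := Wo_gw_lip σ F Λ A hΛ hA h1 hFL N (w j) y z
    have h4 : A * N * Λ ^ N * dist y z ≤ A * N * Λ ^ N * ε := by
      rw [dist_comm]
      gcongr
    have h5 := (abs_le.1 h3).1
    have h6 : 0 < Wo σ F N (gw σ N (w j) • z) (w j) := hj.2
    change -(N / (8 * (k : ℝ))) ≤ Wo σ F N (gw σ N (w j) • y) (w j)
    linarith
  -- the set
  set R : Finset Γ := univ.image fun j => gw σ N (w j) with hR
  have hrep : ∀ r ∈ R, ∃ j, gw σ N (w j) = r := by
    intro r hr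
    obtain ⟨j, _, hj⟩ := mem_image.1 hr
    exact ⟨j, hj⟩
  haveI : Nonempty (Fin m) := ⟨⟨0, hm1⟩⟩
  choose! ρ hρ using hrep
  have hρinj : Set.InjOn ρ R := by
    intro r hr r' hr' h
    rw [← hρ r hr, ← hρ r' hr', h]
  refine ⟨R, ⟨fun x => R.filter fun r => Wo σ F N (x⁻¹ • z₀) (w (ρ r)) ≤ 0,
    fun y => R.filter fun r => 0 < Wo σ F N (gw σ N (w (ρ r)) • (y⁻¹ • z₀)) (w (ρ r)),
    fun x => ?_, fun y => ?_, fun x r hr => ?_⟩, ?_⟩
  · refine le_trans (card_le_card_of_injOn ρ (fun r hr => ?_)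
      (hρinj.mono (coe_subset.2 (filter_subset _ _)))) (hfw (x⁻¹ • z₀))
    rw [mem_coe, mem_filter] at hr ⊢
    exact ⟨mem_univ _, hr.2⟩
  · refine le_trans (card_le_card_of_injOn ρ (fun r hr => ?_)
      (hρinj.mono (coe_subset.2 (filter_subset _ _)))) (hbw (y⁻¹ • z₀))
    rw [mem_coe, mem_filter] at hr ⊢
    exact ⟨mem_univ _, hr.2⟩
  · rcases le_or_gt (Wo σ F N (x⁻¹ • z₀) (w (ρ r))) 0 with h3 | h3
    · exact Or.inl (mem_filter.2 ⟨hr, h3⟩)
    · refine Or.inr (mem_filter.2 ⟨hr, ?_⟩)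
      rw [hρ r hr, mul_inv_rev, mul_smul, smul_inv_smul]
      exact h3
  · -- the multiplicity
    have h3 : (univ : Finset (Fin m)).card ≤ ∑ r ∈ R, (univ.filter fun j =>
        gw σ N (w j) = r).card :=
      (card_eq_sum_card_fiberwise (f := fun j => gw σ N (w j)) (t := R)
        fun j _ => mem_coe.2 (mem_image_of_mem _ (mem_univ j))).le
    rw [card_univ, Fintype.card_fin] at h3
    refine h3.trans ?_
    rw [mul_comm]
    refine sum_le_card_nsmul _ _ _ fun r hr => ?_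
    have h4 : (univ.filter fun j => gw σ N (w j) = r) ⊆
        (univ.filter fun j => Wo σ F N z₀ (w j) ≤ 0) ∪
        (univ.filter fun j => 0 < Wo σ F N (gw σ N (w j) • (r⁻¹ • z₀)) (w j)) := by
      intro j hj
      have h5 := (mem_filter.1 hj).2
      rcases le_or_gt (Wo σ F N z₀ (w j)) 0 with h6 | h6
      · exact mem_union_left _ (mem_filter.2 ⟨mem_univ _, h6⟩)
      · refine mem_union_right _ (mem_filter.2 ⟨mem_univ _, ?_⟩)
        rw [h5, smul_inv_smul]
        exact h6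
    refine (card_le_card h4).trans ((card_union_le _ _).trans ?_)
    have h5 := hfw z₀
    have h6 := hbw (r⁻¹ • z₀)
    omega

end

end Pool.Agent.H62.LP
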