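import Pool.Agent.H62.LP.Net

/-!
# Infinite Littlewood exponent from a Dixmier system of Lipschitz functions
-/

set_option autoImplicit false

open scoped ENNReal

open Finset

namespace Pool.Agent.H62.LP

lemma clog_le_log (n : ℕ) (hn : 1 ≤ n) : ((Nat.clog 2 n : ℕ) : ℝ) ≤ 2 * Real.log n + 1 := by
  have hn' : (1 : ℝ) ≤ n := by exact_mod_cast hn
  have h3 : (Nat.clog 2 n) ≤ Nat.log 2 n + 1 :=
    Nat.clog_le_of_le_pow (Nat.lt_pow_succ_log_self one_lt_two _).le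
  have h4 : ((Nat.log 2 n : ℕ) : ℝ) ≤ Real.log n / Real.log 2 := by
    rw [le_div_iff₀ (Real.log_pos one_lt_two), ← Real.log_pow]
    refine Real.log_le_log (by positivity) ?_
    exact_mod_cast Nat.pow_log_le_self 2 (by omega)
  have h6 : (1 : ℝ) / 2 < Real.log 2 := by
    have := Real.log_two_gt_d9
    linarith
  have h7 : Real.log n / Real.log 2 ≤ 2 * Real.log n := by
    have h8 : 0 ≤ Real.log n := Real.log_nonneg hn'
    rw [div_le_iff₀ (by linarith)]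
    nlinarith
  have h9 : ((Nat.clog 2 n : ℕ) : ℝ) ≤ (Nat.log 2 n : ℕ) + 1 := by exact_mod_cast h3
  linarith

theorem lit_top_of_dix {Γ X ι : Type*} [Group Γ] [MulAction Γ X] [PseudoMetricSpace X]
    [Fintype ι] (σ : ι → Γ) (F : ι → X → ℝ) (B : ℝ) (hB : 1 ≤ B)
    (hk : 2 ≤ Fintype.card ι) (hF : ∀ i z, |F i z| ≤ B)
    (hf : ∀ z, 1 / 2 ≤ ∑ i, F i ((σ i)⁻¹ • z)) (hb : ∀ z, ∑ i, F i z ≤ -(1 / 2))
    (Λ A : ℝ) (hΛ : 2 ≤ Λ) (hA : 1 ≤ A)
    (h1 : ∀ i (x y : X), dist (σ i • x) (σ i • y) ≤ Λ * dist x y)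
    (h2 : ∀ i (x y : X), dist ((σ i)⁻¹ • x) ((σ i)⁻¹ • y) ≤ Λ * dist x y)
    (hFL : ∀ i x y, |F i x - F i y| ≤ A * dist x y)
    (hdim : ∀ a : ℝ, 0 < a → ∀ δ : ℝ, 0 < δ → ∃ ε : ℝ, 0 < ε ∧ ε < δ ∧ ∃ t : Finset X,
      (∀ x, ∃ y ∈ t, dist x y ≤ ε) ∧ Real.log t.card ≤ ε ^ (-a)) (z₀ : X)
    (q : ℝ) (hq : 0 < q) : ENNReal.ofReal q ≤ Lit Γ := by
  refine le_lit q hq fun M => ?_
  set k : ℝ := (Fintype.card ι : ℝ) with hkdef
  have hkr : (2 : ℝ) ≤ k := by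
    rw [hkdef]
    exact_mod_cast hk
  have hB0 : 0 < B := by linarith
  have hΛ0 : 0 < Λ := by linarith
  have hA0 : 0 < A := by linarith
  set c : ℝ := 1 / (32 * k ^ 2 * B ^ 2) with hc
  have hc0 : 0 < c := by positivity
  have hlog : 0 < Real.log Λ := Real.log_pos (by linarith)
  set a : ℝ := c / (4 * (q + 1) * Real.log Λ) with ha
  have ha0 : 0 < a := by positivity
  set C₁ : ℝ := (16 * k * A) ^ a * Real.exp (c / (4 * (q + 1))) with hC₁
  have hC₁0 : 0 ≤ C₁ := by positivity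
  set D : ℝ := 2 * C₁ + 4 with hD
  have hD0 : 0 < D := by positivity
  set E : ℝ := 4 * |M| * D ^ (q + 1) with hE
  have hE0 : 0 ≤ E := by positivity
  obtain ⟨N₀, hN₀⟩ := exists_nat_ge (E / (3 * c / 4))
  -- the net
  obtain ⟨ε, hε0, hεδ, t, ht, htc⟩ := hdim a ha0 (1 / (16 * k * A * Λ ^ (N₀ + 1))) (by positivity)
  have hΛN₀ : (1 : ℝ) ≤ Λ ^ (N₀ + 1) := one_le_pow₀ (by linarith)
  have hkA : (1 : ℝ) ≤ 16 * k * A := by nlinarith
  have hx : Λ ^ (N₀ + 1) ≤ 1 / (16 * k * A * ε) := by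
    rw [lt_div_iff₀ (by positivity)] at hεδ
    rw [le_div_iff₀ (by positivity)]
    nlinarith
  obtain ⟨N, hN1', hN2'⟩ := exists_nat_pow_near (hΛN₀.trans hx) (show (1 : ℝ) < Λ by linarith)
  have hNN₀ : N₀ + 1 ≤ N := by
    by_contra hcon
    have h3 : N + 1 ≤ N₀ + 1 := by omega
    have h4 : Λ ^ (N + 1) ≤ Λ ^ (N₀ + 1) := pow_le_pow_right₀ (by linarith) h3
    linarith
  have hN1 : (1 : ℝ) ≤ N := by
    have : ((N₀ + 1 : ℕ) : ℝ) ≤ N := Nat.cast_le.2 hNN₀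
    push_cast at this
    have h0 : (0 : ℝ) ≤ N₀ := Nat.cast_nonneg _
    linarith
  have hNE : E ≤ Real.exp (3 * c / 4 * N) := by
    have h3 : E ≤ N₀ * (3 * c / 4) := by
      rwa [div_le_iff₀ (by positivity)] at hN₀
    have h4 := Real.add_one_le_exp (3 * c / 4 * N)
    have h5 : N₀ * (3 * c / 4) ≤ 3 * c / 4 * N := by
      rw [mul_comm]
      gcongr
      omega
    linarith
  have hΛN : 1 ≤ Λ ^ N := one_le_pow₀ (by linarith)
  have htn : 1 ≤ t.card := by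
    obtain ⟨y, hy, _⟩ := ht z₀
    exact card_pos.2 ⟨y, hy⟩
  have hεN : A * N * Λ ^ N * ε < N / (8 * Fintype.card ι) := by
    rw [← hkdef]
    have h3 : A * N * Λ ^ N * ε ≤ N / (16 * k) := by
      rw [le_div_iff₀ (by positivity)] at hN1' ⊢
      calc A * N * Λ ^ N * ε * (16 * k) = N * (Λ ^ N * (16 * k * A * ε)) := by ring
        _ ≤ N * 1 := by gcongr
        _ = N := mul_one _
    refine h3.trans_lt ?_
    refine div_lt_div_of_pos_left (by linarith) (by positivity) (by linarith)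
  obtain ⟨R, hRO, hRm⟩ := code_ori σ F B hB hk hF hf hb Λ A (by linarith) hA0.le h1 h2 hFL N t ε
    ht hεN z₀
  set L := Nat.clog 2 t.card + 3 with hL
  have hL1 : 1 ≤ L := by omega
  refine ⟨L, R, hL1, hRO, ?_⟩
  have hLr : (0 : ℝ) < L := by exact_mod_cast hL1
  -- the bound for `L`
  have hεa : ε ^ (-a) ≤ C₁ * Real.exp (c / (4 * (q + 1)) * N) := by
    have h3 : ε⁻¹ ≤ 16 * k * A * Λ ^ (N + 1) := by
      have h4 : 1 / (16 * k * A * ε) ≤ Λ ^ (N + 1) := hN2'.le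
      rw [div_le_iff₀ (by positivity)] at h4
      rw [inv_eq_one_div, div_le_iff₀ hε0]
      linarith
    rw [Real.rpow_neg hε0.le, ← Real.inv_rpow hε0.le]
    refine (Real.rpow_le_rpow (by positivity) h3 ha0.le).trans (le_of_eq ?_)
    rw [Real.mul_rpow (by positivity) (by positivity), hC₁,
      mul_assoc ((16 * k * A) ^ a), ← Real.exp_add]
    congr 1
    rw [← Real.rpow_natCast, ← Real.rpow_mul hΛ0.le, Real.rpow_def_of_pos hΛ0]
    congr 1
    rw [ha]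
    push_cast
    field_simp
    ring
  have hexp1 : 1 ≤ Real.exp (c / (4 * (q + 1)) * N) := Real.one_le_exp (by positivity)
  have hLD : (L : ℝ) ≤ D * Real.exp (c / (4 * (q + 1)) * N) := by
    have h3 := clog_le_log t.card htn
    have h4 : Real.log t.card ≤ C₁ * Real.exp (c / (4 * (q + 1)) * N) := htc.trans hεa
    have h5 : (L : ℝ) = (Nat.clog 2 t.card : ℕ) + 3 := by
      rw [hL]
      push_cast
      rfl
    rw [h5, hD]
    nlinarith
  have hLq : (L : ℝ) ^ (q + 1) ≤ D ^ (q + 1) * Real.exp (c / 4 * N) := by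
    refine (Real.rpow_le_rpow hLr.le hLD (by linarith)).trans (le_of_eq ?_)
    rw [Real.mul_rpow hD0.le (Real.exp_pos _).le, ← Real.exp_mul]
    congr 2
    field_simp
  have hm : Real.exp (c * N) ≤ 2 * (⌊Real.exp (c * N)⌋₊ : ℝ) := by
    have h3 : 1 ≤ Real.exp (c * N) := Real.one_le_exp (by positivity)
    have h4 : 1 ≤ ⌊Real.exp (c * N)⌋₊ := (Nat.one_le_floor_iff _).2 h3
    have h5 := Nat.lt_floor_add_one (Real.exp (c * N))
    have h6 : (1 : ℝ) ≤ (⌊Real.exp (c * N)⌋₊ : ℝ) := by exact_mod_cast h4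
    linarith
  have hRm' : ((⌊Real.exp (c * N)⌋₊ : ℕ) : ℝ) ≤ 2 * L * R.card := by
    have h3 : ⌊Real.exp (c * N)⌋₊ ≤ 2 * L * R.card := hRm
    have h4 := (Nat.cast_le (α := ℝ)).2 h3
    rwa [Nat.cast_mul, Nat.cast_mul, Nat.cast_ofNat] at h4
  have hfin : M * (L : ℝ) ^ q * (4 * L) ≤ R.card * (4 * L) := by
    calc M * (L : ℝ) ^ q * (4 * L) ≤ |M| * (L : ℝ) ^ q * (4 * L) := by
          gcongr
          exact le_abs_self M
      _ = 4 * |M| * (L : ℝ) ^ (q + 1) := by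
          rw [Real.rpow_add hLr, Real.rpow_one]
          ring
      _ ≤ 4 * |M| * (D ^ (q + 1) * Real.exp (c / 4 * N)) := by gcongr
      _ = E * Real.exp (c / 4 * N) := by
          rw [hE]
          ring
      _ ≤ Real.exp (3 * c / 4 * N) * Real.exp (c / 4 * N) := by gcongr
      _ = Real.exp (c * N) := by
          rw [← Real.exp_add]
          congr 1
          ring
      _ ≤ 2 * (⌊Real.exp (c * N)⌋₊ : ℝ) := hm
      _ ≤ 2 * (2 * L * R.card) := by gcongr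
      _ = R.card * (4 * L) := by ring
  exact le_of_mul_le_mul_right hfin (by positivity)

end Pool.Agent.H62.LP
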