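import Pool.Agent.H62.LP.Code
import Pool.Agent.H62.LP.Ori

/-!
# Oriented sets in direct powers
-/

set_option autoImplicit false

open Finset

namespace Pool.Agent.H62.LP

lemma card_ofSeq {α : Type*} [Fintype α] [DecidableEq α] {K : ℕ} (φ : Fin K → Option α) :
    (ofSeq φ).card ≤ K := by
  have h1 : (ofSeq φ).map ⟨some, Option.some_injective α⟩ ⊆ univ.image φ := by
    intro a ha
    rw [mem_map] at ha
    obtain ⟨b, hb, rfl⟩ := ha
    obtain ⟨l, hl⟩ := (mem_filter.1 hb).2
    exact mem_image.2 ⟨l, mem_univ _, hl⟩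
  have h2 := (card_le_card h1).trans card_image_le
  rwa [card_map, card_univ, Fintype.card_fin] at h2

/-- a map from a group to a quotient of a subgroup, equivariant under the subgroup -/
lemma exists_coord {G Δ : Type*} [Group G] [Group Δ] (H : Subgroup G) (φ : H →* Δ) :
    ∃ π : G → Δ, ∀ (x : G) (h : H), π (x * h) = π x * φ h := by
  choose t ht using fun x : G => QuotientGroup.mk_out_eq_mul H x
  refine ⟨fun x => φ (t x)⁻¹, fun x h => ?_⟩
  have h1 : ((x * (h : G) : G) : G ⧸ H) = (x : G ⧸ H) := by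
    rw [QuotientGroup.eq]
    have : (x * (h : G))⁻¹ * x = ((h⁻¹ : H) : G) := by
      rw [Subgroup.coe_inv]
      group
    rw [this]
    exact (h⁻¹).2
  have h2 := ht (x * (h : G))
  rw [h1, ht x, mul_assoc, mul_right_inj] at h2
  have h3 : t x = h * t (x * (h : G)) := Subtype.ext h2
  rw [← map_mul]
  congr 1
  rw [h3, mul_inv_rev, inv_mul_cancel_right]

theorem ori_power {Γ G : Type*} [Group Γ] [Group G] {n r K m b L : ℕ} (S : Finset Γ)
    (hS : Ori K S) (hn : n + 1 = 2 * r) (H : Subgroup G) (φ : H →* (Fin n → Γ))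
    (hφ : Function.Surjective φ) (hb : 1 ≤ b) (hmb : m * b ≤ S.card ^ n) (M : ℝ)
    (hM : ((2 ^ n * (K ^ r * S.card ^ (n - r)) : ℕ) : ℝ) ≤ M * b)
    (hL : (((S.card + 1) ^ (K * n) : ℕ) : ℝ) * Real.exp M < 2 ^ (L + 1)) :
    ∃ R : Finset G, R.card = m ∧ Ori L R := by
  classical
  obtain ⟨P, Q, hP, hQ, hPQ⟩ := hS
  have hcS : Fintype.card S = S.card := Fintype.card_coe S
  have hr : r ≤ n := by omega
  -- the blocks
  obtain ⟨e⟩ : Nonempty ((Fin m × Fin b) ↪ (Fin n → S)) := by
    refine Function.Embedding.nonempty_of_card_le ?_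
    rw [Fintype.card_prod, Fintype.card_fin, Fintype.card_fin, Fintype.card_fun,
      Fintype.card_fin, hcS]
    exact hmb
  -- the selection
  obtain ⟨g, hg⟩ := select m b e e.injective (Fin n → Fin K → Option S)
    (fun q => Bad r fun i => ofSeq (q i)) M L hb
    (fun q => by
      refine le_trans ?_ hM
      have := card_bad r K hr (fun i => ofSeq (q i)) fun i => card_ofSeq (q i)
      rw [hcS] at this
      exact_mod_cast this)
    (by
      have h1 : Fintype.card (Fin n → Fin K → Option S) = (S.card + 1) ^ (K * n) := by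
        rw [Fintype.card_fun, Fintype.card_fun, Fintype.card_option, hcS, Fintype.card_fin,
          Fintype.card_fin, pow_mul]
      rw [h1]
      exact hL)
  have hsel : ∀ p : Fin n → Finset S, (∀ i, (p i).card ≤ K) →
      (univ.filter fun j => e (j, g j) ∈ Bad r p).card ≤ L := by
    intro p hp
    choose q hq using fun i => exists_seq K (p i) (hp i)
    have h1 := hg q
    have h2 : (fun i => ofSeq (q i)) = p := funext hq
    rwa [h2] at h1
  -- the lifts
  choose h hh using fun j : Fin m => hφ fun i => ((e (j, g j) i : S) : Γ)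
  have hinj : Function.Injective fun j : Fin m => (h j : G) := by
    intro j j' hjj
    have h1 : h j = h j' := Subtype.ext hjj
    have h2 : e (j, g j) = e (j', g j') := by
      funext i
      apply Subtype.ext
      have h3 := hh j
      rw [h1, hh j'] at h3
      exact (congrFun h3 i).symm
    exact congrArg Prod.fst (e.injective h2)
  obtain ⟨π, hπ⟩ := exists_coord H φ
  -- the subsets of `S`
  let P₀ : (Γ → Finset Γ) → Γ → Finset S := fun p γ => univ.filter fun s => (s : Γ) ∈ p γ
  have hP₀ : ∀ p : Γ → Finset Γ, (∀ γ, (p γ).card ≤ K) → ∀ γ, (P₀ p γ).card ≤ K := by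
    intro p hp γ
    refine le_trans ?_ (hp γ)
    refine card_le_card_of_injOn (fun s : S => (s : Γ)) (fun s hs => ?_)
      (Subtype.val_injective.injOn)
    exact (mem_filter.1 hs).2
  let R : (Γ → Finset Γ) → G → Finset G := fun p x =>
    (univ.filter fun j => e (j, g j) ∈ Bad r fun i => P₀ p (π x i)).image fun j => (h j : G)
  have hR : ∀ p : Γ → Finset Γ, (∀ γ, (p γ).card ≤ K) → ∀ x, (R p x).card ≤ L := by
    intro p hp x
    exact card_image_le.trans (hsel _ fun i => hP₀ p hp _)
  refine ⟨univ.image fun j : Fin m => (h j : G), ?_, R P, R Q, hR P hP, hR Q hQ, ?_⟩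
  · rw [card_image_of_injective _ hinj, card_univ, Fintype.card_fin]
  · intro x s hs
    obtain ⟨j, _, rfl⟩ := mem_image.1 hs
    set ρ := e (j, g j) with hρ
    have h1 : ∀ i, ρ i ∈ P₀ P (π x i) ∨ ρ i ∈ P₀ Q (π (x * (h j : G)) i) := by
      intro i
      have h2 : π (x * (h j : G)) i = π x i * (ρ i : Γ) := by
        rw [hπ, hh j]
        rfl
      rw [h2]
      rcases hPQ (π x i) (ρ i : Γ) (ρ i).2 with h3 | h3
      · exact Or.inl (mem_filter.2 ⟨mem_univ _, h3⟩)
      · exact Or.inr (mem_filter.2 ⟨mem_univ _, h3⟩)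
    have h4 : n ≤ (univ.filter fun i => ρ i ∈ P₀ P (π x i)).card +
        (univ.filter fun i => ρ i ∈ P₀ Q (π (x * (h j : G)) i)).card := by
      refine le_trans ?_ (card_union_le _ _)
      calc n = (univ : Finset (Fin n)).card := by rw [card_univ, Fintype.card_fin]
        _ ≤ _ := by
          refine card_le_card fun i _ => ?_
          rcases h1 i with h5 | h5
          · exact mem_union_left _ (mem_filter.2 ⟨mem_univ _, h5⟩)
          · exact mem_union_right _ (mem_filter.2 ⟨mem_univ _, h5⟩)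
    rcases Nat.lt_or_ge (univ.filter fun i => ρ i ∈ P₀ P (π x i)).card r with h5 | h5
    · refine Or.inr (mem_image.2 ⟨j, mem_filter.2 ⟨mem_univ _, mem_filter.2 ⟨mem_univ _, ?_⟩⟩, rfl⟩)
      change r ≤ (univ.filter fun i => ρ i ∈ P₀ Q (π (x * (h j : G)) i)).card
      omega
    · exact Or.inl (mem_image.2 ⟨j, mem_filter.2 ⟨mem_univ _, mem_filter.2 ⟨mem_univ _, h5⟩⟩, rfl⟩)

end Pool.Agent.H62.LP
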