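import Pool.Agent.H62.LP.Dens

/-!
# The Littlewood exponents of direct powers leave no large gaps
-/

set_option autoImplicit false

open scoped ENNReal

open Finset Filter

namespace Pool.Agent.H62.LP

lemma nE_prod {Γ Λ : Type*} [Group Γ] [Group Λ] (X Y : Finset Γ) (X' Y' : Finset Λ)
    (r : Γ × Λ) : nE (X ×ˢ X') (Y ×ˢ Y') r = nE X Y r.1 * nE X' Y' r.2 := by
  classical
  unfold nE
  rw [← card_product]
  refine congrArg card ?_
  ext ⟨x, x'⟩
  simp only [mem_filter, mem_product, Prod.fst_mul, Prod.snd_mul]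
  tauto

/-- oriented sets in a direct product are small -/
theorem ori_prod {Γ Λ : Type*} [Group Γ] [Group Λ] {p q : ℝ} (hp : 1 ≤ p) (hq : 1 ≤ q)
    (h1 : LB Γ p) (h2 : LB Λ q) : ∃ c : ℝ, 0 < c ∧ ∀ (K : ℕ) (R : Finset (Γ × Λ)),
      R.Nonempty → Ori K R → c * (R.card : ℝ) ^ (1 / p + 1 / q - 1) ≤ K := by
  classical
  obtain ⟨c, hc, hΓ⟩ := h1
  obtain ⟨c', hc', hΛ⟩ := h2
  refine ⟨c * c', by positivity, fun K R hR hO => ?_⟩
  have hN : (1 : ℝ) ≤ R.card := by
    have := card_pos.2 hR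
    exact_mod_cast this
  have hp' : 1 / p - 1 ≤ 0 := by
    have : 1 / p ≤ 1 := by
      rw [div_le_one (by linarith)]
      exact hp
    linarith
  have hq' : 1 / q - 1 ≤ 0 := by
    have : 1 / q ≤ 1 := by
      rw [div_le_one (by linarith)]
      exact hq
    linarith
  -- the second coordinate
  set B := R.image Prod.snd with hB
  have hBn : B.Nonempty := hR.image _
  set w : Λ → ℝ := fun b => ((R.filter fun r => r.2 = b).card : ℝ) with hw
  obtain ⟨X', Y', hXY', hb'⟩ := hΛ B w (fun b _ => Nat.cast_nonneg _) hBn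
  have e1 : ∀ g : Λ → ℝ, ∑ b ∈ B, w b * g b = ∑ r ∈ R, g r.2 := by
    intro g
    rw [← sum_fiberwise_of_maps_to (g := Prod.snd) (t := B)
      (fun r hr => mem_image_of_mem _ hr)]
    refine sum_congr rfl fun b _ => ?_
    rw [hw]
    simp only
    rw [← nsmul_eq_mul, ← sum_const]
    refine sum_congr rfl fun r hr => ?_
    rw [(mem_filter.1 hr).2]
  have e2 : ∑ b ∈ B, w b = R.card := by
    have := e1 fun _ => 1
    simpa using this
  rw [e1, e2] at hb'
  -- the first coordinate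
  set A := R.image Prod.fst with hA
  have hAn : A.Nonempty := hR.image _
  set u : Γ → ℝ := fun a => ∑ r ∈ R.filter (fun r => r.1 = a), (nE X' Y' r.2 : ℝ) with hu
  obtain ⟨X, Y, hXY, hb⟩ := hΓ A u (fun a _ => sum_nonneg fun r _ => Nat.cast_nonneg _) hAn
  have e3 : ∀ g : Γ → ℝ, ∑ a ∈ A, u a * g a = ∑ r ∈ R, g r.1 * (nE X' Y' r.2 : ℝ) := by
    intro g
    rw [← sum_fiberwise_of_maps_to (g := Prod.fst) (t := A)
      (fun r hr => mem_image_of_mem _ hr)]
    refine sum_congr rfl fun a _ => ?_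
    rw [hu]
    simp only
    rw [sum_mul]
    refine sum_congr rfl fun r hr => ?_
    rw [(mem_filter.1 hr).2, mul_comm]
  have e4 : ∑ a ∈ A, u a = ∑ r ∈ R, (nE X' Y' r.2 : ℝ) := by
    have := e3 fun _ => 1
    simpa using this
  rw [e3, e4] at hb
  have hX1 : (0 : ℝ) < (X.card : ℝ) + Y.card := by exact_mod_cast hXY
  have hX2 : (0 : ℝ) < (X'.card : ℝ) + Y'.card := by exact_mod_cast hXY'
  have hBR : (R.card : ℝ) ^ (1 / q - 1) ≤ (B.card : ℝ) ^ (1 / q - 1) := by
    refine Real.rpow_le_rpow_of_nonpos ?_ (by exact_mod_cast card_image_le) hq'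
    exact_mod_cast card_pos.2 hBn
  have hAR : (R.card : ℝ) ^ (1 / p - 1) ≤ (A.card : ℝ) ^ (1 / p - 1) := by
    refine Real.rpow_le_rpow_of_nonpos ?_ (by exact_mod_cast card_image_le) hp'
    exact_mod_cast card_pos.2 hAn
  -- the edges of the product sets
  have h3 := ori_le hO (X ×ˢ X') (Y ×ˢ Y')
  have h4 : (∑ r ∈ R, (nE X Y r.1 : ℝ) * (nE X' Y' r.2 : ℝ)) ≤
      K * (((X.card : ℝ) + Y.card) * ((X'.card : ℝ) + Y'.card)) := by
    have h5 : (∑ r ∈ R, (nE X Y r.1 : ℝ) * (nE X' Y' r.2 : ℝ)) ≤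
        K * ((X.card : ℝ) * X'.card + Y.card * Y'.card) := by
      simp only [nE_prod, card_product] at h3
      exact_mod_cast h3
    refine h5.trans ?_
    have h6 : (0 : ℝ) ≤ (X.card : ℝ) * Y'.card + Y.card * X'.card := by positivity
    have h7 : (0 : ℝ) ≤ K := Nat.cast_nonneg _
    refine mul_le_mul_of_nonneg_left ?_ h7
    nlinarith
  have h8 : (R.card : ℝ) ^ (1 / p + 1 / q - 1) =
      R.card * (R.card : ℝ) ^ (1 / q - 1) * (R.card : ℝ) ^ (1 / p - 1) := by
    have h9 : (0 : ℝ) < R.card := by linarith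
    have h10 : 1 / p + 1 / q - 1 = 1 + (1 / q - 1) + (1 / p - 1) := by ring
    rw [h10, Real.rpow_add h9, Real.rpow_add h9, Real.rpow_one]
  have h10 : c * c' * (R.card : ℝ) ^ (1 / p + 1 / q - 1) *
      (((X.card : ℝ) + Y.card) * ((X'.card : ℝ) + Y'.card)) ≤
      K * (((X.card : ℝ) + Y.card) * ((X'.card : ℝ) + Y'.card)) := by
    refine le_trans ?_ h4
    refine le_trans ?_ hb
    rw [h8]
    calc c * c' * (R.card * (R.card : ℝ) ^ (1 / q - 1) * (R.card : ℝ) ^ (1 / p - 1)) *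
          (((X.card : ℝ) + Y.card) * ((X'.card : ℝ) + Y'.card))
        = c * (c' * R.card * (R.card : ℝ) ^ (1 / q - 1) * ((X'.card : ℝ) + Y'.card)) *
          (R.card : ℝ) ^ (1 / p - 1) * ((X.card : ℝ) + Y.card) := by ring
      _ ≤ c * (c' * R.card * (B.card : ℝ) ^ (1 / q - 1) * ((X'.card : ℝ) + Y'.card)) *
          (A.card : ℝ) ^ (1 / p - 1) * ((X.card : ℝ) + Y.card) := by gcongr
      _ ≤ c * (∑ r ∈ R, (nE X' Y' r.2 : ℝ)) *
          (A.card : ℝ) ^ (1 / p - 1) * ((X.card : ℝ) + Y.card) := by gcongr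
  exact le_of_mul_le_mul_right h10 (by positivity)

/-- orientations are transported by isomorphisms -/
lemma Ori.map {G G' : Type*} [Group G] [Group G'] (e : G ≃* G') {K : ℕ} {S : Finset G}
    (h : Ori K S) : Ori K (S.map e.toEquiv.toEmbedding) := by
  obtain ⟨P, Q, hP, hQ, hPQ⟩ := h
  refine ⟨fun x => (P (e.symm x)).map e.toEquiv.toEmbedding,
    fun y => (Q (e.symm y)).map e.toEquiv.toEmbedding, fun x => by rw [card_map]; exact hP _,
    fun y => by rw [card_map]; exact hQ _, fun x s hs => ?_⟩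
  obtain ⟨s', hs', rfl⟩ := mem_map.1 hs
  have h1 := hPQ (e.symm x) s' hs'
  rcases h1 with h1 | h1
  · exact Or.inl (mem_map_of_mem _ h1)
  · refine Or.inr ?_
    have h2 : e.symm (x * (e.toEquiv.toEmbedding s')) = e.symm x * s' := by
      rw [map_mul]
      congr 1
      exact e.symm_apply_apply s'
    change _ ∈ (Q (e.symm (x * (e.toEquiv.toEmbedding s')))).map e.toEquiv.toEmbedding
    rw [h2]
    exact mem_map_of_mem _ h1

/-- an upper bound for the Littlewood exponent -/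
theorem lit_le_of_ori {G : Type*} [Group G] (s c : ℝ) (hs : 0 < s) (hc : 0 < c)
    (h : ∀ (K : ℕ) (R : Finset G), R.Nonempty → Ori K R → c * (R.card : ℝ) ^ s ≤ K) :
    Lit G ≤ ENNReal.ofReal (1 / s) := by
  have key : ∀ q : ℝ, 1 / s < q → Lit G ≤ ENNReal.ofReal q := by
    intro q hq
    have hq0 : 0 < q := lt_trans (by positivity) hq
    refine sInf_le ⟨ENNReal.ofReal_pos.2 hq0, ENNReal.ofReal_lt_top, fun f hf => ?_⟩
    obtain ⟨q', hq'1, hq'2⟩ := exists_between hq
    obtain ⟨C, hC1, hC⟩ := ori_of_T1 hf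
    have hC0 : (0 : ℝ) < C := by exact_mod_cast (by omega : 0 < C)
    have hev := growth (2 * (C / c) ^ (1 / s)) 0 (q' - 1 / s) (by linarith) (by positivity) le_rfl
    obtain ⟨T, hT⟩ := eventually_atTop.1 hev
    refine memlp_of_levels q q' hq0 hq'2 T fun t ht S hS => ?_
    have hT1 := hT t ht
    rw [Real.rpow_zero, mul_one] at hT1
    have hpos : (0 : ℝ) < 2 ^ (q' * t) := by positivity
    rcases S.eq_empty_or_nonempty with h0 | hne
    · rw [h0, card_empty, Nat.cast_zero]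
      exact hpos
    have h1 := h _ S hne (hC t S hS)
    push_cast at h1
    have h2 : (S.card : ℝ) ^ s ≤ C / c * 2 ^ t := by
      rw [div_mul_eq_mul_div, le_div_iff₀ hc]
      linarith
    have h3 : (S.card : ℝ) ≤ (C / c) ^ (1 / s) * 2 ^ (1 / s * t) := by
      have h4 : ((S.card : ℝ) ^ s) ^ (1 / s) ≤ (C / c * 2 ^ t) ^ (1 / s) :=
        Real.rpow_le_rpow (by positivity) h2 (by positivity)
      rw [← Real.rpow_mul (Nat.cast_nonneg _), mul_one_div_cancel hs.ne', Real.rpow_one,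
        Real.mul_rpow (by positivity) (by positivity), ← Real.rpow_natCast,
        ← Real.rpow_mul (by norm_num), mul_comm (t : ℝ)] at h4
      exact h4
    have h5 : (2 * (C / c) ^ (1 / s)) * 2 ^ (1 / s * t) ≤ 2 ^ (q' * t) := by
      calc (2 * (C / c) ^ (1 / s)) * 2 ^ (1 / s * t)
          ≤ 2 ^ ((q' - 1 / s) * t) * 2 ^ (1 / s * t) := by gcongr
        _ = 2 ^ (q' * t) := by
            rw [← Real.rpow_add (by norm_num)]
            congr 1
            ring
    have h6 : (0 : ℝ) < (C / c) ^ (1 / s) * 2 ^ (1 / s * t) := by positivity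
    linarith
  refine le_of_forall_gt_imp_ge_of_dense fun x hx => ?_
  rcases eq_or_ne x ∞ with rfl | hxt
  · exact le_top
  have h1 : 1 / s < x.toReal := by
    rw [← ENNReal.ofReal_toReal hxt, ENNReal.ofReal_lt_ofReal_iff_of_nonneg (by positivity)] at hx
    exact hx
  have h2 := key _ h1
  rwa [ENNReal.ofReal_toReal hxt] at h2

/-- upper bound for the exponent of a direct product -/
theorem lit_prod_le {Γ Λ G : Type*} [Group Γ] [Group Λ] [Group G] (e : G ≃* Γ × Λ) (p q : ℝ)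
    (hp : 1 < p) (hq : 1 < q) (h1 : Lit Γ < ENNReal.ofReal p) (h2 : Lit Λ < ENNReal.ofReal q)
    (hpq : 0 < 1 / p + 1 / q - 1) : Lit G ≤ ENNReal.ofReal (1 / (1 / p + 1 / q - 1)) := by
  obtain ⟨c, hc, h⟩ := ori_prod hp.le hq.le (lb_of_lit_lt p hp h1) (lb_of_lit_lt q hq h2)
  refine lit_le_of_ori _ c hpq hc fun K R hR hO => ?_
  have h3 := h K _ (hR.map) (hO.map e)
  rwa [card_map] at h3

end Pool.Agent.H62.LP
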