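import Mathlib

/-!
# Random walk loop percolation: definitions of the problem (MP_521601_pr)
-/

set_option autoImplicit false

open MeasureTheory ProbabilityTheory Filter Topology
open scoped ENNReal NNReal

namespace Pool.Agent.H62.LP

/-- The vertices of the lattice `ℤ ^ d`. -/
abbrev Vt (d : ℕ) := Fin d → ℤ

/-- Nearest neighbours. -/
def Adj {d : ℕ} (x y : Vt d) : Prop := ∑ i, |x i - y i| = 1

open Classical in
/-- The transition matrix of the simple random walk. -/
noncomputable def Q {d : ℕ} (x y : Vt d) : ℝ≥0∞ :=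
  if Adj x y then ((2 * d : ℕ) : ℝ≥0∞)⁻¹ else 0

/-- The weight `q x y₁ q y₁ y₂ ... q yₖ₋₁ yₖ` of the walk `x, y₁, ..., yₖ`. -/
noncomputable def wt {V : Type} (q : V → V → ℝ≥0∞) : V → List V → ℝ≥0∞
  | _, [] => 1
  | x, y :: l => q x y * wt q y l

/-- The weight `(1/n) Q x₁ x₂ Q x₂ x₃ ... Q xₙ x₁` of the based loop `(x₁, ..., xₙ)`, `n ≥ 2`. -/
noncomputable def lw {d : ℕ} : List (Vt d) → ℝ≥0∞
  | [] => 0
  | [_] => 0
  | x :: y :: l => wt Q x (y :: l ++ [x]) / ((l.length + 2 : ℕ) : ℝ≥0∞)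

open Classical in
/-- The loop measure: the weight of a loop (a based loop up to cyclic rotation) is the sum of the
weights of its based loops. -/
noncomputable def mu {d : ℕ} (c : Cycle (Vt d)) : ℝ≥0∞ :=
  ∑' l : List (Vt d), if (l : Cycle (Vt d)) = c then lw l else 0

/-- The Poisson point process with intensity `q` on a countable set: the multiplicities `N c` of
the points `c` are independent with Poisson laws of mean `q c`. -/
noncomputable def pois {Λ : Type} (q : Λ → ℝ≥0) : Measure (Λ → ℕ) :=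
  Measure.infinitePi (fun c => poissonMeasure (q c))

instance {Λ : Type} (q : Λ → ℝ≥0) : IsProbabilityMeasure (pois q) := by
  unfold pois; infer_instance

/-- The intensity `α μ`. -/
noncomputable def inten (d : ℕ) (α : ℝ≥0) (c : Cycle (Vt d)) : ℝ≥0 := α * (mu c).toNNReal

/-- The law of the loop soup `𝓛_α`. -/
noncomputable def soup (d : ℕ) (α : ℝ≥0) : Measure (Cycle (Vt d) → ℕ) := pois (inten d α)

/-- The loop `c` traverses the edge between `x` and `y`. -/
def Trav {d : ℕ} (c : Cycle (Vt d)) (x y : Vt d) : Prop :=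
  ∃ l : List (Vt d), c = ((x :: y :: l : List (Vt d)) : Cycle (Vt d)) ∨
    c = ((y :: x :: l : List (Vt d)) : Cycle (Vt d))

/-- The edge between `x` and `y` is open. -/
def Open {d : ℕ} (N : Cycle (Vt d) → ℕ) (x y : Vt d) : Prop := ∃ c, 1 ≤ N c ∧ Trav c x y

/-- The open cluster of the vertex `x`. -/
def cluster {d : ℕ} (N : Cycle (Vt d) → ℕ) (x : Vt d) : Set (Vt d) :=
  {y | Relation.ReflTransGen (Open N) x y}

/-- The sup norm. -/
def nm {d : ℕ} (x : Vt d) : ℕ := Finset.univ.sup (fun i => (x i).natAbs)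

/-- Some vertex of `B(0,n)` and some vertex of `∂B(0,m)` lie in the same open cluster. -/
def Cross {d : ℕ} (n m : ℕ) (N : Cycle (Vt d) → ℕ) : Prop :=
  ∃ x y : Vt d, nm x ≤ n ∧ nm y = m ∧ y ∈ cluster N x

/-- The percolation threshold `α_c(d)`. -/
noncomputable def alphaC (d : ℕ) : ℝ≥0∞ :=
  ⨅ (α : ℝ≥0) (_ : 0 < soup d α {N | (cluster N 0).Infinite}), (α : ℝ≥0∞)

/-- The annulus-crossing threshold `α_#(d)`. -/
noncomputable def alphaSharp (d : ℕ) : ℝ≥0∞ :=
  ⨆ (β : ℝ) (_ : 1 < β), ⨅ (α : ℝ≥0)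
    (_ : 0 < α ∧ limsup (fun n : ℕ => soup d α {N | Cross n ⌈β * n⌉₊ N}) atTop = 1), (α : ℝ≥0∞)

end Pool.Agent.H62.LP
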