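import Pool.Agent.H62.LP.Defs

/-!
# Loop percolation in dimension three: targets, part 1 (walks, Green function, Poisson processes)
-/

set_option autoImplicit false

open MeasureTheory ProbabilityTheory Filter Topology
open scoped ENNReal NNReal

namespace Pool.Agent.H62.LP

/-! ## Walks -/

/-- One marked vertex. -/
def T_MK1 : Prop := ∀ (V : Type) (q : V → V → ℝ≥0∞) (f : V → ℝ≥0∞) (a a' : V),
  ∑' t : List V, wt q a (t ++ [a']) * vis f t = ∑' b, f b * (Hk q a b * Hk q b a')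

/-- Two marked vertices. -/
def T_MK2 : Prop := ∀ (V : Type) (q : V → V → ℝ≥0∞) (g : V → V → ℝ≥0∞) (a a' : V),
  ∑' t : List V, wt q a (t ++ [a']) * vis2 g t ≤
    ∑' b, ∑' b', (g b b' + g b' b) * (Hk q a b * Gk q b b' * Hk q b' a')

open Classical in
/-- The distribution of the first visit to `S` has mass at most one. -/
def T_FHT : Prop := ∀ (V : Type) (q : V → V → ℝ≥0∞), (∀ x, ∑' y, q x y ≤ 1) →
  ∀ (S : Set V) (x : V), ∑' (t : List V), ∑' (y : V),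
    (if (∀ u ∈ t, u ∉ S) ∧ y ∈ S then wt q x (t ++ [y]) else 0) ≤ 1

open Classical in
/-- Walks which visit `S`. -/
def T_HIT : Prop := ∀ (V : Type) (q : V → V → ℝ≥0∞), (∀ x, ∑' y, q x y ≤ 1) →
  ∀ (S : Set V) (h : ℝ≥0∞) (a a' : V), (∀ y ∈ S, Hk q y a' ≤ h) →
    ∑' t : List V, (if ∃ y ∈ t, y ∈ S then wt q a (t ++ [a']) else 0) ≤ h

open Classical in
/-- Walks which visit `S`, with a mark outside `S`. -/
def T_HT2 : Prop := ∀ (V : Type) (q : V → V → ℝ≥0∞), (∀ x, ∑' y, q x y ≤ 1) →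
  ∀ (S : Set V) (h : ℝ≥0∞) (f : V → ℝ≥0∞) (a a' : V), (∀ y ∈ S, f y = 0) →
    (∀ y ∈ S, ∀ b, (f b ≠ 0 ∨ b = a') → Hk q y b ≤ h) →
    ∑' t : List V, (if ∃ y ∈ t, y ∈ S then wt q a (t ++ [a']) * vis f t else 0) ≤
      ∑' b, f b * (h * Hk q b a' + Hk q a b * h)

/-- Reversal. -/
def T_SYM : Prop := ∀ (V : Type) (q : V → V → ℝ≥0∞), (∀ x y, q x y = q y x) →
  (∀ (x y : V) (t : List V), wt q x (t ++ [y]) = wt q y (t.reverse ++ [x])) ∧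
    ∀ x y, Hk q x y = Hk q y x

/-- Rotation of based loops. -/
def T_ROT : Prop := ∀ (d : ℕ) (ψ : List (Vt d) → ℝ≥0∞),
  ∑' l : List (Vt d), lw l * ∑ i ∈ Finset.range l.length, ψ (l.rotate i) =
    ∑' (a : Vt d) (t : List (Vt d)), if t = [] then 0 else wt Q a (t ++ [a]) * ψ (a :: t)

/-- The moment identity of the loop measure. -/
def T_MOM : Prop := ∀ (d : ℕ) (f : Vt d → ℝ≥0∞) (F : Cycle (Vt d) → ℝ≥0∞),
  ∑' l : List (Vt d), lw l * (vis f l * F (l : Cycle (Vt d))) =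
    ∑' (a : Vt d) (t : List (Vt d)), if t = [] then 0 else
      f a * (wt Q a (t ++ [a]) * F ((a :: t : List (Vt d)) : Cycle (Vt d)))

/-- Sums over loops are sums over based loops; the measure of a loop is finite. -/
def T_MUS : Prop := ∀ (d : ℕ), (∀ (F : Cycle (Vt d) → ℝ≥0∞),
  ∑' c, mu c * F c = ∑' l : List (Vt d), lw l * F (l : Cycle (Vt d))) ∧ ∀ c : Cycle (Vt d), mu c ≠ ⊤

/-- The Cauchy-Schwarz inequality. -/
def T_CS : Prop := ∀ (ι : Type) (w f g : ι → ℝ≥0∞),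
  (∑' i, w i * (f i * g i)) ^ 2 ≤ (∑' i, w i * f i ^ 2) * ∑' i, w i * g i ^ 2

/-! ## The Green function -/

/-- `(K + |x|²)^(-1/2)` is superharmonic. -/
def T_LAP : Prop := ∃ K C : ℝ, 1 ≤ K ∧ 0 < C ∧ 0 < ff K 0 - avg (ff K) 0 ∧
  ∀ x : V3, 0 ≤ ff K x - avg (ff K) x ∧ ff K x - avg (ff K) x ≤ C / (1 + (nm x : ℝ)) ^ 5

/-- The maximum principle. -/
def T_MAX : Prop := ∀ (u : V3 → ℝ) (S : Set V3) (A : ℝ), 0 ≤ A →
  (∀ x, x ∉ S → u x ≤ avg u x) → (∀ x ∈ S, u x ≤ A) →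
  (∀ δ : ℝ, 0 < δ → {x | δ ≤ u x}.Finite) → ∀ x, u x ≤ A

/-- `Q` is symmetric, has row sums one and is the kernel of `avg`. -/
def T_QAV : Prop := (∀ x y : V3, Q x y = Q y x) ∧ (∀ x : V3, ∑' y, Q x y = 1) ∧
  ∀ (f : V3 → ℝ) (x : V3), (∀ y, 0 ≤ f y) →
    ∑' y, Q x y * ENNReal.ofReal (f y) = ENNReal.ofReal (avg f x)

/-- Upper bound of the Green function. -/
def T_GUP : Prop := ∃ C : ℝ≥0, 1 ≤ C ∧ ∀ x y : V3,
  Gr x y ≤ (C : ℝ≥0∞) / ((1 + nm (x - y) : ℕ) : ℝ≥0∞)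

/-- Lower bound of the Green function. -/
def T_GLO : Prop := ∃ c : ℝ≥0, 0 < c ∧ ∀ x y : V3,
  (c : ℝ≥0∞) / ((1 + nm (x - y) : ℕ) : ℝ≥0∞) ≤ Gr x y

/-- Lower bound inside large balls. -/
def T_GBL : Prop := ∃ (c : ℝ≥0) (M : ℕ), 0 < c ∧ 40 ≤ M ∧ ∀ (n : ℕ) (B : Set V3), 1 ≤ n →
  Bl 0 (M * n) ⊆ B → ∀ x ∈ Bl 0 (20 * n), ∀ y ∈ Bl 0 (20 * n),
    (c : ℝ≥0∞) / (n : ℝ≥0∞) ≤ Hk (QB B) x y

open Classical in
/-- Sums of the Green function over balls. -/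
def T_GSU : Prop := ∀ C₀ : ℝ≥0, (∀ x y : V3, Gr x y ≤ (C₀ : ℝ≥0∞) / ((1 + nm (x - y) : ℕ) : ℝ≥0∞)) →
  ∃ C : ℝ≥0, ∀ (x z : V3) (r : ℕ),
    ∑' y, (if y ∈ Bl z r then Gr x y else 0) ≤ C * ((1 + r : ℕ) : ℝ≥0∞) ^ 2 ∧
    ∑' y, (if y ∈ Bl z r then Gr x y ^ 2 else 0) ≤ C * ((1 + r : ℕ) : ℝ≥0∞)

/-- Translation invariance of the Green function. -/
def T_GTR : Prop := ∀ x y z : V3, Gr (x + z) (y + z) = Gr x y ∧ Gr x y = Gr y x

/-- Size of balls and spheres. -/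
def T_CNT : Prop := (∀ (z : V3) (r : ℕ), (Bl z r).Finite ∧ (Bl z r).ncard = (2 * r + 1) ^ 3) ∧
  ∀ (z : V3) (r : ℕ), {y : V3 | nm (y - z) = r}.ncard ≤ 26 * (r + 1) ^ 2

/-- A measure of finite energy gives a measure with potential at most one. -/
def T_POT : Prop := ∀ (f : V3 → ℝ≥0∞), {x | f x ≠ 0}.Finite → (∀ x, f x ≠ ⊤) → mass f ≠ 0 →
  ∀ m : ℝ≥0∞, m * (4 * erg f f) ≤ mass f ^ 2 →
    ∃ w : V3 → ℝ≥0∞, (∀ x, f x = 0 → w x = 0) ∧ mass w = m ∧ ∀ x, pot w x ≤ 1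

/-! ## Poisson processes -/

/-- Superposition. -/
def T_ADD : Prop := ∀ (Λ : Type) [Countable Λ] (q₁ q₂ : Λ → ℝ≥0),
  ((pois q₁).prod (pois q₂)).map (fun (p : (Λ → ℕ) × (Λ → ℕ)) c => p.1 c + p.2 c) =
    pois (fun c => q₁ c + q₂ c)

open Classical in
/-- Independent parts. -/
def T_MRG : Prop := ∀ (Λ : Type) [Countable Λ] (q : Λ → ℝ≥0) (I : Set Λ),
  ((pois q).prod (pois q)).map
    (fun (p : (Λ → ℕ) × (Λ → ℕ)) c => if c ∈ I then p.1 c else p.2 c) = pois q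

open Classical in
/-- Void probabilities. -/
def T_VOI : Prop := ∀ (Λ : Type) [Countable Λ] (q : Λ → ℝ≥0) (P : Set Λ) (x : ℝ), 0 ≤ x →
  (ENNReal.ofReal x ≤ ∑' c, (if c ∈ P then (q c : ℝ≥0∞) else 0) →
    ENNReal.ofReal (1 - Real.exp (-x)) ≤ pois q {N | ∃ c ∈ P, 1 ≤ N c}) ∧
  (∑' c, (if c ∈ P then (q c : ℝ≥0∞) else 0) ≤ ENNReal.ofReal x →
    ENNReal.ofReal (Real.exp (-x)) ≤ pois q {N | ∀ c ∈ P, N c = 0})

/-- Invariance under bijections. -/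
def T_BIJ : Prop := ∀ (Λ : Type) [Countable Λ] (q : Λ → ℝ≥0) (σ : Λ ≃ Λ), (∀ c, q (σ c) = q c) →
  (pois q).map (fun (N : Λ → ℕ) c => N (σ c)) = pois q

/-- The zero-one law. -/
def T_Z01 : Prop := ∀ (Λ : Type) [Countable Λ] (q : Λ → ℝ≥0) (E : Set (Λ → ℕ)), MeasurableSet E →
  (∀ N N' : Λ → ℕ, {c | N c ≠ N' c}.Finite → (N ∈ E ↔ N' ∈ E)) → pois q E = 0 ∨ pois q E = 1

/-- Independence of events that depend on disjoint sets of points. -/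
def T_IND : Prop := ∀ (Λ : Type) [Countable Λ] (q : Λ → ℝ≥0) (ι : Type) (I : ι → Set Λ)
  (E : ι → Set (Λ → ℕ)), (∀ i j, i ≠ j → Disjoint (I i) (I j)) → (∀ i, MeasurableSet (E i)) →
  (∀ i (N N' : Λ → ℕ), (∀ c ∈ I i, N c = N' c) → (N ∈ E i ↔ N' ∈ E i)) →
  ∀ s : Finset ι, pois q (⋂ i ∈ s, E i) = ∏ i ∈ s, pois q (E i)

/-- Measurability of finitary increasing events. -/
def T_FMS : Prop := ∀ (Λ : Type) [Countable Λ] (Φ : Set Λ → Prop),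
  (∀ S, Φ S ↔ ∃ F : Finset Λ, (F : Set Λ) ⊆ S ∧ Φ F) →
  MeasurableSet {N : Λ → ℕ | Φ (sp N)}

/-- Measurable selection from countably many events. -/
def T_SEL : Prop := ∀ (Ω : Type) [MeasurableSpace Ω] (C : Type) [Countable C] (E : C → Set Ω),
  (∀ c, MeasurableSet (E c)) → ∃ D : Ω → Option C, (∀ c, MeasurableSet {ω | D ω = some c}) ∧
    (∀ ω c, D ω = some c → ω ∈ E c) ∧ (∀ ω, D ω = none → ∀ c, ω ∉ E c) ∧
    ∀ ω ω', (∀ c, ω ∈ E c ↔ ω' ∈ E c) → D ω = D ω'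

/-- Almost surely only loops of positive measure are present. -/
def T_PRS : Prop := ∀ (Λ : Type) [Countable Λ] (q : Λ → ℝ≥0),
  ∀ᵐ N ∂(pois q), ∀ c, 1 ≤ N c → q c ≠ 0

/-- The process with several independent rounds. -/
def T_CUR : Prop := ∀ (Λ : Type) [Countable Λ] (J : ℕ) (q₀ : Λ → ℝ≥0) (q : Λ → ℝ≥0),
  ((pois q₀).prod (Measure.pi (fun _ : Fin J => pois q))).map
    (fun (p : (Λ → ℕ) × (Fin J → Λ → ℕ)) c => p.1 c + ∑ j, p.2 j c) =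
      pois (fun c => q₀ c + J * q c) ∧
  ((pois q₀).prod (Measure.pi (fun _ : Fin J => pois q))).map
    (fun (p : (Λ → ℕ) × (Fin J → Λ → ℕ)) (x : Option (Fin J) × Λ) =>
      match x.1 with
      | none => p.1 x.2
      | some j => p.2 j x.2) =
      pois (fun x : Option (Fin J) × Λ => match x.1 with
        | none => q₀ x.2
        | some _ => q x.2)

end Pool.Agent.H62.LP
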