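import Pool.Agent.H62.LP.T4

/-!
# Loop percolation in dimension three: targets, part 5 (polynomial decay below the threshold)
-/

set_option autoImplicit false

open MeasureTheory ProbabilityTheory Filter Topology
open scoped ENNReal NNReal

namespace Pool.Agent.H62.LP

open Classical in
/-- Loops which visit a ball and leave a much larger one. -/
def T_LO2 : Prop := ∃ (K : ℕ) (C : ℝ≥0), 2 ≤ K ∧ ∀ r s : ℕ, 1 ≤ r → K * r ≤ s →
  (∑' c : Lp, (if (∃ x ∈ c, nm x ≤ r) ∧ (∃ y ∈ c, s < nm y) then mu c else 0)) * s ≤ C * r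

/-- Loops inside the shell. -/
def Shl (r s : ℕ) : Set Lp := {c | c ≠ Cycle.nil ∧ ∀ u ∈ c, r < nm u ∧ nm u ≤ s}

/-- The annulus with radii `n`, `m` is crossed by loops inside the shell. -/
def CrS (r s n m : ℕ) (S : Set Lp) : Prop := ∃ x y, nm x = n ∧ nm y = m ∧ Conn (S ∩ Shl r s) x y

/-- Local crossings are less likely than crossings; measurability and locality. -/
def T_CSP : Prop := ∀ r s n m : ℕ, (∀ α : ℝ≥0,
  soup 3 α {N | CrS r s n m (sp N)} ≤ soup 3 α {N | Cross n m N}) ∧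
  MeasurableSet {N : Lp → ℕ | CrS r s n m (sp N)} ∧
  ∀ N N' : Lp → ℕ, (∀ c ∈ Shl r s, N c = N' c) → (CrS r s n m (sp N) ↔ CrS r s n m (sp N'))

/-- The radii: `rI k = Λ ^ k * a`, `Λ = λ * λ * b`. -/
def rI (l b a k : ℕ) : ℕ := (l * l * b) ^ k * a

/-- The loop is bad at the level `k`: it visits the annulus of radii `l * rI k`, `b * l * rI k` and
leaves the shell of radii `rI k`, `rI (k + 1)`. -/
def Bdl (l b a k : ℕ) (c : Lp) : Prop :=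
  (∃ u ∈ c, l * rI l b a k ≤ nm u ∧ nm u ≤ b * (l * rI l b a k)) ∧
    ((∃ v ∈ c, nm v ≤ rI l b a k) ∨ ∃ v ∈ c, rI l b a (k + 1) < nm v)

/-- If the origin is joined to a far point then at each level the annulus is crossed by local loops
or some loop is bad. -/
def T_DTL : Prop := ∀ (l b a K : ℕ) (S : Set Lp), 2 ≤ l → 2 ≤ b → 1 ≤ a → (∀ c ∈ S, mu c ≠ 0) →
  ∀ y, rI l b a K ≤ nm y → Conn S 0 y → ∀ k < K,
    CrS (rI l b a k) (rI l b a (k + 1)) (l * rI l b a k) (b * (l * rI l b a k)) S ∨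
      ∃ c ∈ S, Bdl l b a k c

/-- The loops whose first bad level is `i` and whose last bad level is `j`. -/
def EB (l b a K i j : ℕ) : Set Lp :=
  {c | Bdl l b a i c ∧ Bdl l b a j c ∧ ∀ k < K, Bdl l b a k c → i ≤ k ∧ k ≤ j}

open Classical in
/-- Their measure. -/
def T_EMS : Prop := ∀ (K₀ : ℕ) (C : ℝ≥0), 2 ≤ K₀ → (∀ r s : ℕ, 1 ≤ r → K₀ * r ≤ s →
  (∑' c : Lp, (if (∃ x ∈ c, nm x ≤ r) ∧ (∃ y ∈ c, s < nm y) then mu c else 0)) * s ≤ C * r) →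
  ∀ l b a K i j : ℕ, 4 * K₀ ≤ l → 2 ≤ b → 1 ≤ a → i ≤ j →
    (∑' c : Lp, (if c ∈ EB l b a K i j then mu c else 0)) * (l : ℝ≥0∞) ^ (j - i + 1) ≤ 3 * C

/-- The abstract estimate: independent levels and independent bad intervals. -/
def T_ABI : Prop := ∀ (Ω : Type) [MeasurableSpace Ω] (P : Measure Ω) [IsProbabilityMeasure P]
  (K : ℕ) (A : ℕ → Set Ω) (X : ℕ → ℕ → Set Ω) (q x : ℝ), 0 < q → q ≤ 1 → 0 ≤ x → 2 * x ≤ q →
  (∀ (s : Finset ℕ) (t : Finset (ℕ × ℕ)), (∀ k ∈ s, k < K) → (∀ p ∈ t, p.1 ≤ p.2 ∧ p.2 < K) →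
    P ((⋂ k ∈ s, A k) ∩ ⋂ p ∈ t, X p.1 p.2) ≤
      (∏ _k ∈ s, ENNReal.ofReal q) * ∏ p ∈ t, ENNReal.ofReal (x ^ (p.2 - p.1 + 1))) →
  P {ω | ∀ k < K, ω ∈ A k ∨ ∃ i j, i ≤ k ∧ k ≤ j ∧ j < K ∧ ω ∈ X i j} ≤
    ENNReal.ofReal ((q * Real.exp (2 * x / q)) ^ K)

/-- Exponential decay in the number of scales. -/
def T_DE1 : Prop := ∀ (α : ℝ≥0) (b n₀ : ℕ) (q : ℝ), 2 ≤ b → 0 < q → q < 1 →
  (∀ n, n₀ ≤ n → soup 3 α {N | Cross n (b * n) N} ≤ ENNReal.ofReal q) →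
  ∃ (l a : ℕ) (ρ : ℝ), 2 ≤ l ∧ 1 ≤ a ∧ 0 < ρ ∧ ρ < 1 ∧ ∀ K : ℕ,
    soup 3 α {N | ∃ y, rI l b a K ≤ nm y ∧ Conn (sp N) 0 y} ≤ ENNReal.ofReal (ρ ^ K)

/-- Polynomial decay below the annulus crossing threshold. -/
def T_DEC : Prop := ∀ α : ℝ≥0, 0 < α → (α : ℝ≥0∞) < alphaSharp 3 → ∃ C c : ℝ, 0 < c ∧
  ∀ n : ℕ, 1 ≤ n → soup 3 α {N | ∃ y, nm y = n ∧ Conn (sp N) 0 y} ≤
    ENNReal.ofReal (C * (n : ℝ) ^ (-c))

/-- The percolation threshold in the form of the problem on the one-arm exponent. -/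
noncomputable def alphaS : ℝ≥0∞ :=
  ⨆ (α : ℝ≥0) (_ : 0 < α ∧ soup 3 α {N | {y | Conn (sp N) 0 y}.Infinite} = 0), (α : ℝ≥0∞)

/-- The two forms of the percolation threshold agree. -/
def T_ACS : Prop := alphaS = alphaC 3

end Pool.Agent.H62.LP
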