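import Mathlib

/-!
# Random words in an action with a Dixmier system

`Γ` acts on `X`; `σ i` are finitely many elements of `Γ` and `F i` bounded functions on `X` with
`∑ F i ((σ i)⁻¹ z) ≥ 1/2` and `∑ F i z ≤ -1/2` for all `z`.
-/

set_option autoImplicit false

open Finset

namespace Pool.Agent.H62.LP

section

variable {Γ X ι : Type*} [Group Γ] [MulAction Γ X]

/-- the element spelled by a word -/
def gw (σ : ι → Γ) : (N : ℕ) → (Fin N → ι) → Γ
  | 0, _ => 1
  | N + 1, l => σ (l 0) * gw σ N (Fin.tail l)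

/-- the sum of the functions along a path -/
def Wo (σ : ι → Γ) (F : ι → X → ℝ) : (N : ℕ) → X → (Fin N → ι) → ℝ
  | 0, _, _ => 0
  | N + 1, z, l => F (l 0) ((σ (l 0))⁻¹ • z) + Wo σ F N ((σ (l 0))⁻¹ • z) (Fin.tail l)

lemma gw_cons (σ : ι → Γ) (N : ℕ) (i : ι) (l : Fin N → ι) :
    gw σ (N + 1) (Fin.cons i l) = σ i * gw σ N l := rfl

lemma Wo_cons (σ : ι → Γ) (F : ι → X → ℝ) (N : ℕ) (z : X) (i : ι) (l : Fin N → ι) :
    Wo σ F (N + 1) z (Fin.cons i l) = F i ((σ i)⁻¹ • z) + Wo σ F N ((σ i)⁻¹ • z) l := rfl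

lemma Wo_gw_cons (σ : ι → Γ) (F : ι → X → ℝ) (N : ℕ) (y : X) (i : ι) (l : Fin N → ι) :
    Wo σ F (N + 1) (gw σ (N + 1) (Fin.cons i l) • y) (Fin.cons i l) =
      F i (gw σ N l • y) + Wo σ F N (gw σ N l • y) l := by
  rw [Wo_cons, gw_cons, mul_smul, inv_smul_smul]

variable [Fintype ι]

lemma sum_cons (N : ℕ) (f : (Fin (N + 1) → ι) → ℝ) :
    ∑ l, f l = ∑ i, ∑ l : Fin N → ι, f (Fin.cons i l) := by
  rw [← (Fin.consEquiv (fun _ => ι)).sum_comp, Fintype.sum_prod_type]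
  rfl

lemma exp_fwd (σ : ι → Γ) (F : ι → X → ℝ) (a κ : ℝ) (hκ : 0 ≤ κ)
    (h : ∀ z, ∑ i, Real.exp (-(a * F i ((σ i)⁻¹ • z))) ≤ κ) :
    ∀ (N : ℕ) (z : X), ∑ l, Real.exp (-(a * Wo σ F N z l)) ≤ κ ^ N := by
  intro N
  induction N with
  | zero =>
    intro z
    simp [Wo]
  | succ N ih =>
    intro z
    rw [sum_cons]
    have h1 : ∀ (i : ι) (l : Fin N → ι), Real.exp (-(a * Wo σ F (N + 1) z (Fin.cons i l))) =
        Real.exp (-(a * F i ((σ i)⁻¹ • z))) *
          Real.exp (-(a * Wo σ F N ((σ i)⁻¹ • z) l)) := by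
      intro i l
      rw [Wo_cons, ← Real.exp_add]
      congr 1
      ring
    simp only [h1, ← mul_sum]
    calc ∑ i, Real.exp (-(a * F i ((σ i)⁻¹ • z))) *
          ∑ l, Real.exp (-(a * Wo σ F N ((σ i)⁻¹ • z) l))
        ≤ ∑ i, Real.exp (-(a * F i ((σ i)⁻¹ • z))) * κ ^ N :=
          sum_le_sum fun i _ => mul_le_mul_of_nonneg_left (ih _) (Real.exp_pos _).le
      _ = (∑ i, Real.exp (-(a * F i ((σ i)⁻¹ • z)))) * κ ^ N := (sum_mul _ _ _).symm
      _ ≤ κ * κ ^ N := mul_le_mul_of_nonneg_right (h z) (by positivity)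
      _ = κ ^ (N + 1) := (pow_succ' κ N).symm

lemma exp_bwd (σ : ι → Γ) (F : ι → X → ℝ) (a κ : ℝ) (hκ : 0 ≤ κ)
    (h : ∀ z, ∑ i, Real.exp (a * F i z) ≤ κ) :
    ∀ (N : ℕ) (y : X), ∑ l, Real.exp (a * Wo σ F N (gw σ N l • y) l) ≤ κ ^ N := by
  intro N
  induction N with
  | zero =>
    intro z
    simp [Wo]
  | succ N ih =>
    intro y
    rw [sum_cons, sum_comm]
    have h1 : ∀ (i : ι) (l : Fin N → ι),
        Real.exp (a * Wo σ F (N + 1) (gw σ (N + 1) (Fin.cons i l) • y) (Fin.cons i l)) =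
        Real.exp (a * Wo σ F N (gw σ N l • y) l) * Real.exp (a * F i (gw σ N l • y)) := by
      intro i l
      rw [Wo_gw_cons, ← Real.exp_add]
      congr 1
      ring
    simp only [h1, ← mul_sum]
    calc ∑ l : Fin N → ι, Real.exp (a * Wo σ F N (gw σ N l • y) l) *
          ∑ i, Real.exp (a * F i (gw σ N l • y))
        ≤ ∑ l : Fin N → ι, Real.exp (a * Wo σ F N (gw σ N l • y) l) * κ :=
          sum_le_sum fun l _ => mul_le_mul_of_nonneg_left (h _) (Real.exp_pos _).le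
      _ = (∑ l : Fin N → ι, Real.exp (a * Wo σ F N (gw σ N l • y) l)) * κ :=
          (sum_mul _ _ _).symm
      _ ≤ κ ^ N * κ := mul_le_mul_of_nonneg_right (ih y) hκ
      _ = κ ^ (N + 1) := (pow_succ κ N).symm

/-- the exponential moment of one step -/
lemma step (B : ℝ) (hB : 1 ≤ B) (hk : 1 ≤ Fintype.card ι) (u : ι → ℝ) (hu : ∀ i, |u i| ≤ B)
    (hs : 1 / 2 ≤ ∑ i, u i) :
    ∑ i, Real.exp (-(1 / (4 * Fintype.card ι * B ^ 2) * u i)) ≤
      Fintype.card ι * Real.exp (-(1 / (16 * (Fintype.card ι : ℝ) ^ 2 * B ^ 2))) := by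
  set k : ℝ := (Fintype.card ι : ℝ) with hkdef
  have hk' : (1 : ℝ) ≤ k := by
    rw [hkdef]
    exact_mod_cast hk
  have hB0 : 0 < B := by linarith
  set a : ℝ := 1 / (4 * k * B ^ 2) with ha
  have ha0 : 0 < a := by positivity
  have hBB : B ≤ B ^ 2 := by nlinarith
  have haB : a * B ≤ 1 := by
    rw [ha, div_mul_eq_mul_div, one_mul, div_le_one (by positivity)]
    nlinarith
  have h1 : ∀ i, Real.exp (-(a * u i)) ≤ 1 - a * u i + a ^ 2 * B ^ 2 := by
    intro i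
    have h2 : |-(a * u i)| ≤ 1 := by
      rw [abs_neg, abs_mul, abs_of_pos ha0]
      exact (mul_le_mul_of_nonneg_left (hu i) ha0.le).trans haB
    have h3 := Real.abs_exp_sub_one_sub_id_le h2
    have h4 := (abs_le.1 h3).2
    have h5 : (-(a * u i)) ^ 2 ≤ a ^ 2 * B ^ 2 := by
      have h6 : (u i) ^ 2 ≤ B ^ 2 := sq_le_sq' (by linarith [(abs_le.1 (hu i)).1])
        (abs_le.1 (hu i)).2
      have h7 : (-(a * u i)) ^ 2 = a ^ 2 * (u i) ^ 2 := by ring
      rw [h7]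
      exact mul_le_mul_of_nonneg_left h6 (by positivity)
    linarith
  calc ∑ i, Real.exp (-(a * u i)) ≤ ∑ i, (1 - a * u i + a ^ 2 * B ^ 2) :=
        sum_le_sum fun i _ => h1 i
    _ = k - a * ∑ i, u i + k * (a ^ 2 * B ^ 2) := by
        rw [sum_add_distrib, sum_sub_distrib, ← mul_sum]
        simp [hkdef]
    _ ≤ k - a * (1 / 2) + k * (a ^ 2 * B ^ 2) := by
        have := mul_le_mul_of_nonneg_left hs ha0.le
        linarith
    _ = k * (1 - 1 / (16 * k ^ 2 * B ^ 2)) := by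
        rw [ha]
        field_simp
        ring
    _ ≤ k * Real.exp (-(1 / (16 * k ^ 2 * B ^ 2))) := by
        refine mul_le_mul_of_nonneg_left ?_ (by linarith)
        have := Real.add_one_le_exp (-(1 / (16 * k ^ 2 * B ^ 2)))
        linarith

open Classical in
/-- few words have a small sum along the path from a given point -/
lemma count_fwd (σ : ι → Γ) (F : ι → X → ℝ) (B : ℝ) (hB : 1 ≤ B) (hk : 1 ≤ Fintype.card ι)
    (hF : ∀ i z, |F i z| ≤ B) (h : ∀ z, 1 / 2 ≤ ∑ i, F i ((σ i)⁻¹ • z)) (N : ℕ) (z : X) :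
    ((univ.filter fun l : Fin N → ι => Wo σ F N z l ≤ N / (8 * Fintype.card ι)).card : ℝ) ≤
      (Fintype.card ι : ℝ) ^ N *
        Real.exp (-(1 / (32 * (Fintype.card ι : ℝ) ^ 2 * B ^ 2) * N)) := by
  set k : ℝ := (Fintype.card ι : ℝ) with hkdef
  have hk' : (1 : ℝ) ≤ k := by
    rw [hkdef]
    exact_mod_cast hk
  have hB0 : 0 < B := by linarith
  set a : ℝ := 1 / (4 * k * B ^ 2) with ha
  have ha0 : 0 < a := by positivity
  set κ : ℝ := k * Real.exp (-(1 / (16 * k ^ 2 * B ^ 2))) with hκ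
  have hκ0 : 0 ≤ κ := by positivity
  have h1 := exp_fwd σ F a κ hκ0 (fun z => step B hB hk (fun i => F i ((σ i)⁻¹ • z))
    (fun i => hF _ _) (h z)) N z
  have h2 : ((univ.filter fun l : Fin N → ι => Wo σ F N z l ≤ N / (8 * k)).card : ℝ) *
      Real.exp (-(a * (N / (8 * k)))) ≤ ∑ l, Real.exp (-(a * Wo σ F N z l)) := by
    rw [← nsmul_eq_mul]
    refine (card_nsmul_le_sum _ _ _ fun l hl => ?_).trans
      (sum_le_sum_of_subset_of_nonneg (subset_univ _) fun l _ _ => (Real.exp_pos _).le)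
    have h3 := (mem_filter.1 hl).2
    refine Real.exp_le_exp.2 ?_
    have := mul_le_mul_of_nonneg_left h3 ha0.le
    linarith
  have h3 := h2.trans h1
  have h4 : κ ^ N = k ^ N * Real.exp (-(1 / (32 * k ^ 2 * B ^ 2) * N)) *
      Real.exp (-(a * (N / (8 * k)))) := by
    rw [hκ, mul_pow, ← Real.exp_nat_mul, mul_assoc (k ^ N), ← Real.exp_add]
    congr 2
    rw [ha]
    field_simp
    ring
  rw [h4] at h3
  exact le_of_mul_le_mul_right h3 (Real.exp_pos _)

open Classical in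
/-- few words have a large sum along the path to a given point -/
lemma count_bwd (σ : ι → Γ) (F : ι → X → ℝ) (B : ℝ) (hB : 1 ≤ B) (hk : 1 ≤ Fintype.card ι)
    (hF : ∀ i z, |F i z| ≤ B) (h : ∀ z, ∑ i, F i z ≤ -(1 / 2)) (N : ℕ) (y : X) :
    ((univ.filter fun l : Fin N → ι =>
      -(N / (8 * Fintype.card ι : ℝ)) ≤ Wo σ F N (gw σ N l • y) l).card : ℝ) ≤
      (Fintype.card ι : ℝ) ^ N *
        Real.exp (-(1 / (32 * (Fintype.card ι : ℝ) ^ 2 * B ^ 2) * N)) := by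
  set k : ℝ := (Fintype.card ι : ℝ) with hkdef
  have hk' : (1 : ℝ) ≤ k := by
    rw [hkdef]
    exact_mod_cast hk
  have hB0 : 0 < B := by linarith
  set a : ℝ := 1 / (4 * k * B ^ 2) with ha
  have ha0 : 0 < a := by positivity
  set κ : ℝ := k * Real.exp (-(1 / (16 * k ^ 2 * B ^ 2))) with hκ
  have hκ0 : 0 ≤ κ := by positivity
  have h1 := exp_bwd σ F a κ hκ0 (fun z => by
    have h5 := step B hB hk (fun i => -F i z) (fun i => by rw [abs_neg]; exact hF _ _)
      (by rw [sum_neg_distrib]; linarith [h z])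
    simpa only [mul_neg, neg_neg] using h5) N y
  have h2 : ((univ.filter fun l : Fin N → ι =>
      -(N / (8 * k)) ≤ Wo σ F N (gw σ N l • y) l).card : ℝ) *
      Real.exp (-(a * (N / (8 * k)))) ≤ ∑ l, Real.exp (a * Wo σ F N (gw σ N l • y) l) := by
    rw [← nsmul_eq_mul]
    refine (card_nsmul_le_sum _ _ _ fun l hl => ?_).trans
      (sum_le_sum_of_subset_of_nonneg (subset_univ _) fun l _ _ => (Real.exp_pos _).le)
    have h3 := (mem_filter.1 hl).2
    refine Real.exp_le_exp.2 ?_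
    have := mul_le_mul_of_nonneg_left h3 ha0.le
    linarith
  have h3 := h2.trans h1
  have h4 : κ ^ N = k ^ N * Real.exp (-(1 / (32 * k ^ 2 * B ^ 2) * N)) *
      Real.exp (-(a * (N / (8 * k)))) := by
    rw [hκ, mul_pow, ← Real.exp_nat_mul, mul_assoc (k ^ N), ← Real.exp_add]
    congr 2
    rw [ha]
    field_simp
    ring
  rw [h4] at h3
  exact le_of_mul_le_mul_right h3 (Real.exp_pos _)

end

end Pool.Agent.H62.LP
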